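import Pool.Agent.R128.IT.Stm

/-! AG: a real inequality -/

set_option autoImplicit false

namespace R128.IT

theorem AG_proof : AG_stm := by
  intro N L hN hL
  set x := √L with hx
  have hx0 : 0 < x := Real.sqrt_pos.2 hL
  have hxL : L = x ^ 2 := (Real.sq_sqrt hL.le).symm
  set y := N ^ ((1 : ℝ) / 3) with hy
  have hy0 : 0 ≤ y := by positivity
  have hy3 : N = y ^ 3 := by
    rw [hy, ← Real.rpow_natCast, ← Real.rpow_mul hN]
    norm_num
  have hy2 : N ^ ((2 : ℝ) / 3) = y ^ 2 := by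
    rw [hy, ← Real.rpow_natCast, ← Real.rpow_mul hN]
    norm_num
  rw [hy2]
  have h1 : L / 2 + N / x - 3 / 2 * y ^ 2 = ((x - y) ^ 2 * (x + 2 * y)) / (2 * x) := by
    rw [hxL, hy3]
    field_simp
    ring
  have h2 : 0 ≤ ((x - y) ^ 2 * (x + 2 * y)) / (2 * x) := by positivity
  linarith

end R128.IT
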