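import Pool.Agent.R128.IT.Stm

/-! Project IT (helper128), piece ARank by helper780. -/

namespace R128.IT
open Classical Finset

theorem ARank_proof : ARank_stm := by
  unfold ARank_stm
  intro β α D m K L h e he
  have hb : ∃ b ∈ D.B, e.2.1.card = D.s b ∨ e.2.1.card = D.s b + 1 := by
    unfold Dat.F at he
    rw [Finset.mem_biUnion] at he
    obtain ⟨b, hb, he⟩ := he
    rw [Finset.mem_biUnion] at he
    obtain ⟨S, hS, he⟩ := he
    rw [Finset.mem_image] at he
    obtain ⟨i, _, rfl⟩ := he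
    rw [Finset.mem_filter] at hS
    exact ⟨b, hb, hS.2⟩
  obtain ⟨b, hb, hcard⟩ := hb
  have hm := h.sm b hb
  have hle : e.2.1.card ≤ m := by omega
  unfold Dat.A
  constructor
  · exact ⟨Sum.inl e.1, by simp⟩
  · have h1 : e.2.1.card.choose 2 ≤ m ^ 2 := by
      calc e.2.1.card.choose 2 ≤ m.choose 2 := Nat.choose_le_choose 2 hle
        _ ≤ m ^ 2 := Nat.choose_le_pow m 2
    have h2 : ((e.2.1.powersetCard 2).image
        (fun q => (Sum.inr (Sum.inl q) : β ⊕ Finset α ⊕ (ℕ × ℕ)))).card ≤ e.2.1.card.choose 2 := by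
      rw [← Finset.card_powersetCard]
      exact Finset.card_image_le
    refine (Finset.card_union_le _ _).trans ?_
    have h3 := Finset.card_union_le ({Sum.inl e.1} : Finset (β ⊕ Finset α ⊕ (ℕ × ℕ)))
      ((e.2.1.powersetCard 2).image (fun q => (Sum.inr (Sum.inl q) : β ⊕ Finset α ⊕ (ℕ × ℕ))))
    rw [Finset.card_singleton] at h3 ⊢
    omega

end R128.IT
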