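import Pool.Agent.R128.IT.Stm

namespace R128.IT
open Classical Finset

theorem AlgG.inj_exists {V : Type} (q : ℕ) (hq : q.Prime) (U : Finset V) (hU : U.card ≤ q ^ 2) :
    ∃ g : V → ZMod q × ZMod q, ∀ a ∈ U, ∀ b ∈ U, g a = g b → a = b := by
  haveI : Fact q.Prime := ⟨hq⟩
  have hcard : Fintype.card U ≤ Fintype.card (ZMod q × ZMod q) := by
    rw [Fintype.card_prod, ZMod.card, Fintype.card_coe]
    nlinarith
  obtain ⟨f⟩ := Function.Embedding.nonempty_of_card_le hcard
  refine ⟨fun v => if h : v ∈ U then f ⟨v, h⟩ else 0, ?_⟩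
  intro a ha b hb hab
  simp only [ha, hb, dif_pos] at hab
  have := f.injective hab
  exact congrArg Subtype.val this

theorem AlgG.pigeon {E : Type} (q : ℕ) (hq : q.Prime) (S : Finset E) (c : E → ZMod q) :
    ∃ t : ZMod q, S.card ≤ q * (S.filter (fun e => c e = t)).card := by
  haveI : Fact q.Prime := ⟨hq⟩
  by_contra h
  push Not at h
  have h1 : ∑ t : ZMod q, q * (S.filter (fun e => c e = t)).card < ∑ t : ZMod q, S.card :=
    Finset.sum_lt_sum_of_nonempty univ_nonempty (fun t _ => h t)
  have h2 : S.card = ∑ t : ZMod q, (S.filter (fun e => c e = t)).card :=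
    Finset.card_eq_sum_card_fiberwise (fun x _ => by simp)
  rw [← Finset.mul_sum, ← h2, Finset.sum_const, card_univ, ZMod.card, smul_eq_mul] at h1
  exact lt_irrefl _ h1

theorem AlgG_proof : AlgG_stm := by
  unfold AlgG_stm AlgG
  intro V G q hq U hU hG
  haveI : Fact q.Prime := ⟨hq⟩
  obtain ⟨g, hg⟩ := AlgG.inj_exists q hq U hU
  have hfin : G.edgeSet.Finite := by
    refine Set.Finite.subset (U.sym2.finite_toSet) ?_
    intro e he
    induction e using Sym2.ind with
    | _ a b =>
      have h := hG a b he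
      simp only [Finset.mem_coe, Finset.mem_sym2_iff]
      intro x hx
      rcases Sym2.mem_iff.1 hx with rfl | rfl
      · exact h.1
      · exact h.2
  let c : Sym2 V → ZMod q := Sym2.lift ⟨fun u v => (g u).2 + (g v).2 - (g u).1 * (g v).1, by
    intro u v; ring⟩
  obtain ⟨t, ht⟩ := AlgG.pigeon q hq hfin.toFinset c
  let H : SimpleGraph V :=
    { Adj := fun u v => G.Adj u v ∧ (g u).2 + (g v).2 - (g u).1 * (g v).1 = t
      symm := ⟨fun u v h => ⟨h.1.symm, by rw [← h.2]; ring⟩⟩
      loopless := ⟨fun u h => G.loopless.irrefl u h.1⟩ }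
  have hHadj : ∀ u v, H.Adj u v ↔ G.Adj u v ∧ (g u).2 + (g v).2 - (g u).1 * (g v).1 = t :=
    fun u v => Iff.rfl
  refine ⟨H, fun u v h => h.1, ?_, ?_⟩
  · intro a b c' d hac hbd h1 h2 h3 h4
    rw [hHadj] at h1 h2 h3 h4
    have ha := (hG _ _ h1.1).1
    have hb := (hG _ _ h1.1).2
    have hc := (hG _ _ h2.1).2
    have hd := (hG _ _ h3.1).2
    have e1 := h1.2
    have e2 := h2.2
    have e3 := h3.2
    have e4 := h4.2
    have key : ((g a).1 - (g c').1) * ((g b).1 - (g d).1) = 0 := by
      linear_combination (e1 - e2 + e3 - e4) * (-1)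
    rcases mul_eq_zero.1 key with h | h
    · have hx : (g a).1 = (g c').1 := sub_eq_zero.1 h
      have hy : (g a).2 = (g c').2 := by
        linear_combination e1 - e2 + (g b).1 * hx
      exact hac (hg a ha c' hc (Prod.ext hx hy))
    · have hx : (g b).1 = (g d).1 := sub_eq_zero.1 h
      have hy : (g b).2 = (g d).2 := by
        linear_combination e2 - e3 + (g c').1 * hx
      exact hbd (hg b hb d hd (Prod.ext hx hy))
  · have h1 : ne G = hfin.toFinset.card := by
      unfold ne
      exact Set.ncard_eq_toFinset_card _ hfin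
    have h2 : H.edgeSet = ((hfin.toFinset.filter (fun e => c e = t) : Finset (Sym2 V)) : Set (Sym2 V)) := by
      ext e
      induction e using Sym2.ind with
      | _ a b =>
        simp only [SimpleGraph.mem_edgeSet, Finset.coe_filter, Set.Finite.mem_toFinset,
          Set.mem_setOf_eq]
        exact hHadj a b
    have h3 : ne H = (hfin.toFinset.filter (fun e => c e = t)).card := by
      unfold ne
      rw [h2, Set.ncard_coe_finset]
    rw [h1, h3]
    exact ht

end R128.IT
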