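import Pool.Agent.R128.IT.Stm

namespace R128.IT
open Classical Finset

theorem AlgP.inj {γ : Type} (s : Finset γ) (q : ℕ) [Fact q.Prime] (h : s.card ≤ q ^ 2) :
    ∃ i : γ → ZMod q × ZMod q, Set.InjOn i (s : Set γ) := by
  have hc : Fintype.card s ≤ Fintype.card (ZMod q × ZMod q) := by
    rw [Fintype.card_prod, ZMod.card, Fintype.card_coe]
    linarith [sq q]
  obtain ⟨e⟩ := Function.Embedding.nonempty_of_card_le hc
  refine ⟨fun a => if h : a ∈ s then e ⟨a, h⟩ else 0, ?_⟩
  intro a ha b hb hab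
  have ha' : a ∈ s := ha
  have hb' : b ∈ s := hb
  simp only [dif_pos ha', dif_pos hb'] at hab
  have := e.injective hab
  simpa using this

theorem AlgP_proof : AlgP_stm := by
  unfold AlgP_stm AlgP
  intro β α q hq Q h1 h2
  have : Fact q.Prime := ⟨hq⟩
  obtain ⟨j, hj⟩ := AlgP.inj (Q.image Prod.fst) q h1
  obtain ⟨i, hi⟩ := AlgP.inj (Q.image Prod.snd) q h2
  let t : β × α → ZMod q := fun e => (i e.2).2 - (j e.1).1 * (i e.2).1 - (j e.1).2
  obtain ⟨y, hy⟩ : ∃ y : ZMod q, Q.card ≤ q * (Q.filter (fun e => t e = y)).card := by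
    by_contra hn
    push Not at hn
    have hs : Q.card = ∑ y : ZMod q, (Q.filter (fun e => t e = y)).card :=
      Finset.card_eq_sum_card_fiberwise (fun x _ => mem_coe.2 (mem_univ _))
    have hlt : ∑ y : ZMod q, q * (Q.filter (fun e => t e = y)).card < ∑ _y : ZMod q, Q.card :=
      Finset.sum_lt_sum_of_nonempty univ_nonempty (fun y _ => hn y)
    rw [← Finset.mul_sum, ← hs, Finset.sum_const, smul_eq_mul, card_univ, ZMod.card] at hlt
    exact lt_irrefl _ hlt
  refine ⟨Q.filter (fun e => t e = y), filter_subset _ _, ?_, hy⟩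
  intro b b' x x' e1 e2 e3 e4
  rw [mem_filter] at e1 e2 e3 e4
  obtain ⟨m1, t1⟩ := e1
  obtain ⟨m2, t2⟩ := e2
  obtain ⟨m3, t3⟩ := e3
  obtain ⟨m4, t4⟩ := e4
  simp only [t] at t1 t2 t3 t4
  have k1 : ((j b).1 - (j b').1) * ((i x).1 - (i x').1) = 0 := by
    linear_combination -t1 + t2 + t3 - t4
  by_cases hx : (i x).1 = (i x').1
  · right
    have hx2 : (i x).2 = (i x').2 := by
      rw [hx] at t1
      linear_combination t1 - t2
    exact hi (mem_coe.2 (mem_image_of_mem Prod.snd m1)) (mem_coe.2 (mem_image_of_mem Prod.snd m2))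
      (Prod.ext hx hx2)
  · left
    have hm : (j b).1 = (j b').1 := by
      rcases mul_eq_zero.1 k1 with h | h
      · exact sub_eq_zero.1 h
      · exact absurd (sub_eq_zero.1 h) hx
    have hc : (j b).2 = (j b').2 := by
      rw [hm] at t1
      linear_combination t3 - t1
    exact hj (mem_coe.2 (mem_image_of_mem Prod.fst m1)) (mem_coe.2 (mem_image_of_mem Prod.fst m3))
      (Prod.ext hm hc)

end R128.IT
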