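import Pool.Agent.R128.IT.Stm

namespace R128.IT

theorem final_of (hNib : Nibble) (algP : AlgP_stm) (algG : AlgG_stm) (spn : Spn_stm)
    (forest : Forest_stm) (glueG : GlueG_stm) (mix : Mix_stm) (cnt : Cnt_stm) (sumF : SumF_stm)
    (wNonneg : WNonneg_stm) (wSum : WSum_stm) (aRank : ARank_stm) (loadB : LoadB_stm)
    (loadP : LoadP_stm) (loadD : LoadD_stm) (loads : Loads_stm) (nm : NM_stm) (nx : NX_stm)
    (nb : NB_stm) (nbq : NBQ_stm) (ag : AG_stm) (tap : TAP_stm) (tag : TAG_stm) (ts : TS_stm)
    (prune : Prune_stm) (tb : TB_stm) (split : Split_stm) (main : Main_stm) (lb : LB_stm)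
    (bdd : Bdd_stm) (upper : Upper_stm) (lower : Lower_stm) (fin1 : Fin1_stm) : Fin1 := by
  have hws : WSum := wSum sumF
  have hlb : LoadB := loadB cnt sumF wNonneg
  have hlp : LoadP := loadP cnt sumF wNonneg
  have hld : LoadD := loadD cnt sumF wNonneg
  have hl : Loads := loads wNonneg hlb hlp hld
  have hnm : NM := nm hNib wNonneg hws aRank hl
  have hnb : NB := nb mix hnm nx
  have hnbq : NBQ := nbq hnb
  have htap : TAP := tap algP
  have htag : TAG := tag algG
  have hts : TS := ts spn
  have htb : TB := tb hnbq ag htap forest prune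
  have hmain : Main := main htag hts htb glueG split
  exact fin1 (bdd hmain) (upper hmain) (lower lb)

end R128.IT
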