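import Pool.Agent.R128.IT.Stm

/-! Bdd: boundedness -/

set_option autoImplicit false

namespace R128.IT

open Classical Finset

theorem Bdd_proof : Bdd_stm := by
  intro hMain k
  obtain ⟨N0, hN0⟩ := hMain (1 / 2) (by norm_num)
  refine ⟨max N0 ⌈(k : ℝ) ^ ((3 : ℝ) / 2)⌉₊, ?_⟩
  rintro N ⟨n, G, hG, hH⟩
  rcases lt_or_ge N N0 with h | h
  · exact h.le.trans (le_max_left _ _)
  · obtain ⟨H, hHG, hC, hle⟩ := hN0 n G (by rw [hG]; exact h)
    have h1 : ne H < k := hH H hHG hC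
    have h2 : (ne H : ℝ) ≤ k := by exact_mod_cast h1.le
    rw [hG] at hle
    have h3 : (N : ℝ) ^ ((2 : ℝ) / 3) ≤ k := by
      norm_num at hle
      linarith
    have h4 : (N : ℝ) ≤ (k : ℝ) ^ ((3 : ℝ) / 2) := by
      have h5 := Real.rpow_le_rpow (by positivity) h3 (show (0 : ℝ) ≤ 3 / 2 by norm_num)
      rw [← Real.rpow_mul (by positivity)] at h5
      norm_num at h5
      exact h5
    have h6 : N ≤ ⌈(k : ℝ) ^ ((3 : ℝ) / 2)⌉₊ := by
      exact_mod_cast h4.trans (Nat.le_ceil _)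
    exact h6.trans (le_max_right _ _)

end R128.IT
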