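import Pool.Agent.R128.IT.Stm

/-! Cnt: number of `j`-subsets of `N` containing `T` -/

set_option autoImplicit false

namespace R128.IT

open Classical Finset

theorem Cnt_proof : Cnt_stm := by
  intro α N T j hT hj
  rw [← card_sdiff_of_subset hT, ← card_powersetCard]
  refine card_nbij' (fun S => S \ T) (fun S => S ∪ T) ?_ ?_ ?_ ?_
  · intro S hS
    simp only [coe_filter, Set.mem_ofPred_eq, mem_powersetCard] at hS
    simp only [mem_coe, mem_powersetCard]
    obtain ⟨⟨h1, h2⟩, h3⟩ := hS
    refine ⟨sdiff_subset_sdiff h1 le_rfl, ?_⟩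
    rw [card_sdiff_of_subset h3, h2]
  · intro S hS
    simp only [mem_coe, mem_powersetCard] at hS
    simp only [coe_filter, Set.mem_ofPred_eq, mem_powersetCard]
    obtain ⟨h1, h2⟩ := hS
    have h3 : Disjoint S T := disjoint_of_subset_left h1 sdiff_disjoint
    refine ⟨⟨union_subset (h1.trans sdiff_subset) hT, ?_⟩, subset_union_right⟩
    rw [card_union_of_disjoint h3, h2]
    omega
  · intro S hS
    simp only [coe_filter, Set.mem_ofPred_eq, mem_powersetCard] at hS
    exact sdiff_union_of_subset hS.2
  · intro S hS
    simp only [mem_coe, mem_powersetCard] at hS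
    have h3 : Disjoint S T := disjoint_of_subset_left hS.1 sdiff_disjoint
    exact union_sdiff_cancel_right h3

end R128.IT
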