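import Mathlib

/-!
Definitions for the inverse Turan number of the 4-cycle.
-/

namespace R128.IT

noncomputable section
open Classical Finset

/-- `G` contains no 4-cycle -/
def C4Free {V : Type} (G : SimpleGraph V) : Prop :=
  ∀ a b c d : V, a ≠ c → b ≠ d → G.Adj a b → G.Adj b c → G.Adj c d → G.Adj d a → False

/-- number of edges -/
def ne {V : Type} (G : SimpleGraph V) : ℕ := G.edgeSet.ncard

/-- the numbers of edges of the graphs all of whose `C_4`-free subgraphs have fewer than `k` edges -/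
def InvSet (k : ℕ) : Set ℕ :=
  {N | ∃ (n : ℕ) (G : SimpleGraph (Fin n)), ne G = N ∧
    ∀ H : SimpleGraph (Fin n), H ≤ G → C4Free H → ne H < k}

/-- the inverse Turan number of `C_4` -/
def exInv (k : ℕ) : ℕ := sSup (InvSet k)

/-- a set of pairs `(b, a)` (edges of a bipartite graph) without 4-cycle -/
def C4P {β α : Type} (P : Finset (β × α)) : Prop :=
  ∀ b b' : β, ∀ x y : α, (b, x) ∈ P → (b, y) ∈ P → (b', x) ∈ P → (b', y) ∈ P → b = b' ∨ x = y

/-- neighbourhood of `b` -/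
def nb {β α : Type} (Q : Finset (β × α)) (b : β) : Finset α :=
  (Q.filter (fun e => e.1 = b)).image Prod.snd

/-! ### the hypergraph for the nibble -/

/-- data: a finite set `B`, neighbourhoods `Nb b`, sizes `s b` and `s b + 1` with probabilities
`1 - p b` and `p b` -/
structure Dat (β α : Type) where
  B : Finset β
  Nb : β → Finset α
  s : β → ℕ
  p : β → ℝ
  R : ℕ

variable {β α : Type}

/-- probability that the set of `b` has size `j` -/
def Dat.P (D : Dat β α) (b : β) (j : ℕ) : ℝ :=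
  if j = D.s b then 1 - D.p b else if j = D.s b + 1 then D.p b else 0

/-- expected number of sets of size `j` -/
def Dat.W (D : Dat β α) (j : ℕ) : ℝ := ∑ b ∈ D.B, D.P b j

/-- number of dummy vertices of class `j` -/
def Dat.Dm (D : Dat β α) (j : ℕ) : ℕ := ⌈D.W j⌉₊ + D.R

/-- the hyperedges `(b, S, i)` -/
def Dat.F (D : Dat β α) : Finset (β × Finset α × ℕ) :=
  D.B.biUnion (fun b => (((D.Nb b).powerset.filter
    (fun S => S.card = D.s b ∨ S.card = D.s b + 1)).biUnion
    (fun S => (range (D.Dm S.card)).image (fun i => (b, S, i)))))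

/-- the vertex set of the hyperedge -/
def Dat.A (_D : Dat β α) (e : β × Finset α × ℕ) : Finset (β ⊕ Finset α ⊕ (ℕ × ℕ)) :=
  {Sum.inl e.1} ∪ ((e.2.1.powersetCard 2).image (fun q => Sum.inr (Sum.inl q))) ∪
    {Sum.inr (Sum.inr (e.2.1.card, e.2.2))}

/-- the weight of the hyperedge -/
def Dat.w (D : Dat β α) (e : β × Finset α × ℕ) : ℝ :=
  D.P e.1 e.2.1.card / ((((D.Nb e.1).card.choose e.2.1.card : ℕ) : ℝ) * (D.Dm e.2.1.card : ℝ))

/-- admissible data with parameters: sizes at most `m`, degrees at least `K`, pair budget `1/L` -/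
structure Adm (D : Dat β α) (m K L : ℕ) : Prop where
  s1 : ∀ b ∈ D.B, 1 ≤ D.s b
  sm : ∀ b ∈ D.B, D.s b + 1 ≤ m
  p0 : ∀ b ∈ D.B, 0 ≤ D.p b
  p1 : ∀ b ∈ D.B, D.p b ≤ 1
  dK : ∀ b ∈ D.B, K ≤ (D.Nb b).card
  mK : m + 3 ≤ K
  R1 : 1 ≤ D.R
  cardB : D.B.card ≤ L
  L1 : 1 ≤ L
  bud : ∀ b ∈ D.B, (1 - D.p b) * ((D.s b).choose 2 : ℝ) + D.p b * ((D.s b + 1).choose 2 : ℝ) =
    (((D.Nb b).card.choose 2 : ℕ) : ℝ) / (L : ℝ)

end

end R128.IT
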