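import Pool.Agent.R128.IT.Stm

/-! Fin1: the final squeeze -/

set_option autoImplicit false

namespace R128.IT

open Classical Finset

theorem Fin1_proof : Fin1_stm := by
  intro hB hU hL
  refine ⟨hB, ?_⟩
  rw [Metric.tendsto_atTop]
  intro ε hε
  obtain ⟨k1, hk1⟩ := hU (ε / 2) (by positivity)
  obtain ⟨k2, hk2⟩ := hL (ε / 2) (by positivity)
  refine ⟨max (max k1 k2) 1, fun k hk => ?_⟩
  have e1 : k1 ≤ k := (le_max_left _ _).trans ((le_max_left _ _).trans hk)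
  have e2 : k2 ≤ k := (le_max_right _ _).trans ((le_max_left _ _).trans hk)
  have e3 : 1 ≤ k := (le_max_right _ _).trans hk
  have hk0 : (0 : ℝ) < k := by exact_mod_cast e3
  have hp : (0 : ℝ) < (k : ℝ) ^ ((3 : ℝ) / 2) := by positivity
  obtain ⟨N, hN, hN2⟩ := hk2 k e2
  have hmem : exInv k ∈ InvSet k := Nat.sSup_mem ⟨N, hN⟩ (hB k)
  have h1 := hk1 k e1 _ hmem
  have h2 : N ≤ exInv k := le_csSup (hB k) hN
  have h3 : (N : ℝ) ≤ exInv k := by exact_mod_cast h2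
  set c : ℝ := 2 * √2 / (3 * √3) with hc
  rw [Real.dist_eq, abs_lt]
  constructor
  · have h4 : c - ε / 2 ≤ (exInv k : ℝ) / (k : ℝ) ^ ((3 : ℝ) / 2) := by
      rw [le_div_iff₀ hp]
      exact hN2.trans h3
    linarith
  · have h4 : (exInv k : ℝ) / (k : ℝ) ^ ((3 : ℝ) / 2) ≤ c + ε / 2 := by
      rw [div_le_iff₀ hp]
      exact h1
    linarith

end R128.IT
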