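import Pool.Agent.R128.IT.Stm

/-!
# Forest: one edge for each `b`
-/

namespace R128.IT

open Classical Finset

theorem Forest_proof : Forest_stm := by
  intro β α Q
  obtain ⟨P, hPQ, hinj, himg⟩ := Finset.exists_subset_injOn_image_eq_of_surjOn
    (f := (Prod.fst : β × α → β)) (Q : Set (β × α)) (Q.image Prod.fst)
    (fun b hb => by
      obtain ⟨e, he, rfl⟩ := Finset.mem_image.1 hb
      exact ⟨e, he, rfl⟩)
  refine ⟨P, fun e he => hPQ he, ?_, ?_⟩
  · intro b b' x y h1 h2 _ _
    right
    have := hinj h1 h2 rfl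
    exact (Prod.mk.inj this).2
  · rw [← himg, Finset.card_image_of_injOn hinj]

end R128.IT
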