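import Pool.Agent.R128.IT.Stm

/-!
IT-GlueG (MP_9a04dc_co): pairs to graph.
-/

namespace R128.IT

open Classical Finset

theorem GlueG_proof : GlueG_stm := by
  intro V _ G A B hAB P hP hC
  have hnot : ∀ v, v ∈ A → v ∈ B → False := fun v h1 h2 => (Finset.disjoint_left.1 hAB) h1 h2
  let H : SimpleGraph V :=
    { Adj := fun u v => (u, v) ∈ P ∨ (v, u) ∈ P
      symm := ⟨fun u v h => h.symm⟩
      loopless := ⟨fun u h => by
        have h1 : (u, u) ∈ P := by
          rcases h with h | h <;> exact h
        exact hnot u (hP _ h1).2.1 (hP _ h1).1⟩ }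
  have hadj : ∀ u v, H.Adj u v ↔ ((u, v) ∈ P ∨ (v, u) ∈ P) := fun u v => Iff.rfl
  -- orientation
  have hB : ∀ u v, H.Adj u v → u ∈ B → (u, v) ∈ P := by
    intro u v h hu
    rcases h with h | h
    · exact h
    · exact absurd hu (fun hu => hnot u (hP _ h).2.1 hu)
  have hA : ∀ u v, H.Adj u v → u ∈ A → (v, u) ∈ P := by
    intro u v h hu
    rcases h with h | h
    · exact absurd (hP _ h).1 (fun h' => hnot u hu h')
    · exact h
  refine ⟨H, ?_, ?_, ?_⟩
  · intro u v h
    rcases h with h | h
    · exact (hP _ h).2.2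
    · exact (hP _ h).2.2.symm
  · intro a b c d hac hbd h1 h2 h3 h4
    rcases h1 with h | h
    · have ha : a ∈ B := (hP _ h).1
      have hb : b ∈ A := (hP _ h).2.1
      have h5 := hA b c h2 hb
      have hc : c ∈ B := (hP _ h5).1
      have h6 := hB c d h3 hc
      have h7 := hB a d h4.symm ha
      rcases hC a c b d h h7 h5 h6 with h8 | h8
      · exact hac h8
      · exact hbd h8
    · have hb : b ∈ B := (hP _ h).1
      have ha : a ∈ A := (hP _ h).2.1
      have h5 := hB b c h2 hb
      have hc : c ∈ A := (hP _ h5).2.1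
      have h6 := hA c d h3 hc
      have h7 := hA a d h4.symm ha
      rcases hC b d a c h h5 h7 h6 with h8 | h8
      · exact hbd h8
      · exact hac h8
  · have hinj : Set.InjOn (fun e : V × V => s(e.1, e.2)) (P : Set (V × V)) := by
      intro e he f hf h
      have he' := hP e (mem_coe.1 he)
      have hf' := hP f (mem_coe.1 hf)
      rw [Sym2.eq_iff] at h
      rcases h with ⟨h1, h2⟩ | ⟨h1, -⟩
      · exact Prod.ext h1 h2
      · exact absurd he'.1 (fun h' => hnot _ hf'.2.1 (h1 ▸ h'))
    rw [← card_image_of_injOn hinj, ← Set.ncard_coe_finset]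
    unfold ne
    refine Set.ncard_le_ncard ?_ (Set.toFinite _)
    intro s hs
    rw [mem_coe, mem_image] at hs
    obtain ⟨e, he, rfl⟩ := hs
    rw [SimpleGraph.mem_edgeSet]
    exact Or.inl he

end R128.IT
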