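import Pool.Agent.R128.IT.Stm

/-! IT-LB: complete bipartite graphs (helper45). -/

namespace R128.IT

noncomputable section
open Classical Finset

/-- The complete bipartite graph on `Fin (a + b)`. -/
def LB.G (a b : ℕ) : SimpleGraph (Fin (a + b)) where
  Adj x y := (x.val < a ∧ a ≤ y.val) ∨ (y.val < a ∧ a ≤ x.val)
  symm := ⟨fun _ _ h => h.symm⟩
  loopless := ⟨fun x h => by rcases h with h | h <;> omega⟩

/-- The pairs of a subgraph. -/
def LB.P (a b : ℕ) (H : SimpleGraph (Fin (a + b))) : Finset (Fin a × Fin b) :=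
  univ.filter (fun p => H.Adj (Fin.castAdd b p.1) (Fin.natAdd a p.2))

theorem LB.ne_eq (a b : ℕ) (H : SimpleGraph (Fin (a + b))) (hH : H ≤ LB.G a b) :
    ne H = (LB.P a b H).card := by
  unfold ne
  rw [← Set.ncard_coe_finset]
  symm
  refine Set.ncard_congr (fun p _ => s(Fin.castAdd b p.1, Fin.natAdd a p.2)) ?_ ?_ ?_
  · intro p hp
    exact (Finset.mem_filter.mp (Finset.mem_coe.mp hp)).2
  · rintro ⟨i, j⟩ ⟨i', j'⟩ _ _ h
    rw [Sym2.eq_iff] at h
    rcases h with ⟨h1, h2⟩ | ⟨h1, h2⟩
    · have e1 : i = i' := Fin.castAdd_injective _ _ h1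
      have e2 : j = j' := Fin.natAdd_injective _ _ h2
      rw [e1, e2]
    · exfalso
      have := congrArg Fin.val h1
      simp only [Fin.val_castAdd, Fin.val_natAdd] at this
      have := i.2
      omega
  · intro e
    induction e using Sym2.ind with
    | _ x y =>
      intro h
      have hadj : H.Adj x y := h
      rcases hH hadj with ⟨h1, h2⟩ | ⟨h1, h2⟩
      · refine ⟨(⟨x.val, h1⟩, ⟨y.val - a, by have := y.2; omega⟩), ?_, ?_⟩
        · refine Finset.mem_coe.mpr (Finset.mem_filter.mpr ⟨Finset.mem_univ _, ?_⟩)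
          have e1 : Fin.natAdd a (⟨y.val - a, by have := y.2; omega⟩ : Fin b) = y :=
            Fin.ext (by simp; omega)
          have e2 : Fin.castAdd b (⟨x.val, h1⟩ : Fin a) = x := Fin.ext (by simp)
          change H.Adj (Fin.castAdd b (⟨x.val, h1⟩ : Fin a))
            (Fin.natAdd a (⟨y.val - a, by have := y.2; omega⟩ : Fin b))
          rw [e1, e2]
          exact hadj
        · refine congrArg₂ (fun u v => s(u, v)) (Fin.ext (by simp)) (Fin.ext (by simp; omega))
      · refine ⟨(⟨y.val, h1⟩, ⟨x.val - a, by have := x.2; omega⟩), ?_, ?_⟩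
        · refine Finset.mem_coe.mpr (Finset.mem_filter.mpr ⟨Finset.mem_univ _, ?_⟩)
          have e1 : Fin.natAdd a (⟨x.val - a, by have := x.2; omega⟩ : Fin b) = x :=
            Fin.ext (by simp; omega)
          have e2 : Fin.castAdd b (⟨y.val, h1⟩ : Fin a) = y := Fin.ext (by simp)
          change H.Adj (Fin.castAdd b (⟨y.val, h1⟩ : Fin a))
            (Fin.natAdd a (⟨x.val - a, by have := x.2; omega⟩ : Fin b))
          rw [e1, e2]
          exact hadj.symm
        · rw [Sym2.eq_swap]
          refine congrArg₂ (fun u v => s(u, v)) (Fin.ext (by simp; omega)) (Fin.ext (by simp))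

theorem LB.le_choose (d : ℕ) : d ≤ 1 + d.choose 2 := by
  cases d with
  | zero => simp
  | succ d =>
    have : (d + 1).choose 2 = d.choose 1 + d.choose 2 := Nat.choose_succ_succ d 1
    rw [this, Nat.choose_one_right]
    omega

theorem LB.card_le (a b : ℕ) (H : SimpleGraph (Fin (a + b))) (hC : C4Free H) :
    (LB.P a b H).card ≤ b + a.choose 2 := by
  set N : Fin b → Finset (Fin a) := fun j =>
    univ.filter (fun i => H.Adj (Fin.castAdd b i) (Fin.natAdd a j)) with hN
  have h1 : (LB.P a b H).card = ∑ j : Fin b, (N j).card := by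
    have := Finset.card_eq_sum_card_fiberwise (f := Prod.snd) (s := LB.P a b H)
      (t := (univ : Finset (Fin b))) (fun _ _ => Finset.mem_coe.mpr (Finset.mem_univ _))
    rw [this]
    refine Finset.sum_congr rfl fun j _ => ?_
    symm
    refine Finset.card_bij (fun i _ => (i, j)) ?_ ?_ ?_
    · intro i hi
      have := (Finset.mem_filter.mp hi).2
      exact Finset.mem_filter.mpr ⟨Finset.mem_filter.mpr ⟨Finset.mem_univ _, this⟩, rfl⟩
    · intro i _ i' _ h
      exact congrArg Prod.fst h
    · rintro ⟨i, j'⟩ hp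
      obtain ⟨hp1, hp2⟩ := Finset.mem_filter.mp hp
      have hp3 := (Finset.mem_filter.mp hp1).2
      have hj : j' = j := hp2
      subst hj
      exact ⟨i, Finset.mem_filter.mpr ⟨Finset.mem_univ _, hp3⟩, rfl⟩
  have h2 : ∑ j : Fin b, ((N j).card.choose 2) ≤ a.choose 2 := by
    have hd : ∀ j ∈ (univ : Finset (Fin b)), ∀ j' ∈ (univ : Finset (Fin b)), j ≠ j' →
        Disjoint ((N j).powersetCard 2) ((N j').powersetCard 2) := by
      intro j _ j' _ hjj
      rw [Finset.disjoint_left]
      intro T hT hT'
      rw [Finset.mem_powersetCard] at hT hT'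
      obtain ⟨x, y, hxy, rfl⟩ := Finset.card_eq_two.mp hT.2
      have hx := (Finset.mem_filter.mp (hT.1 (Finset.mem_insert_self x _))).2
      have hy := (Finset.mem_filter.mp
        (hT.1 (Finset.mem_insert_of_mem (Finset.mem_singleton_self y)))).2
      have hx' := (Finset.mem_filter.mp (hT'.1 (Finset.mem_insert_self x _))).2
      have hy' := (Finset.mem_filter.mp
        (hT'.1 (Finset.mem_insert_of_mem (Finset.mem_singleton_self y)))).2
      exact hC _ _ _ _ (fun h => hxy (Fin.castAdd_injective _ _ h))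
        (fun h => hjj (Fin.natAdd_injective _ _ h)) hx hy.symm hy' hx'.symm
    have h3 : ∑ j : Fin b, ((N j).card.choose 2) =
        ((univ : Finset (Fin b)).biUnion (fun j => (N j).powersetCard 2)).card := by
      rw [Finset.card_biUnion hd]
      exact Finset.sum_congr rfl fun j _ => (Finset.card_powersetCard _ _).symm
    rw [h3]
    calc ((univ : Finset (Fin b)).biUnion (fun j => (N j).powersetCard 2)).card
        ≤ ((univ : Finset (Fin a)).powersetCard 2).card := by
          refine Finset.card_le_card ?_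
          intro T hT
          obtain ⟨j, _, hj⟩ := Finset.mem_biUnion.mp hT
          rw [Finset.mem_powersetCard] at hj ⊢
          exact ⟨Finset.subset_univ _, hj.2⟩
      _ = a.choose 2 := by rw [Finset.card_powersetCard, Finset.card_univ, Fintype.card_fin]
  calc (LB.P a b H).card = ∑ j : Fin b, (N j).card := h1
    _ ≤ ∑ j : Fin b, (1 + (N j).card.choose 2) := Finset.sum_le_sum fun j _ => LB.le_choose _
    _ = b + ∑ j : Fin b, ((N j).card.choose 2) := by
        rw [Finset.sum_add_distrib]
        simp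
    _ ≤ b + a.choose 2 := by omega

theorem LB_proof : LB_stm := by
  intro a b k hk
  refine ⟨a + b, LB.G a b, ?_, ?_⟩
  · rw [LB.ne_eq a b _ le_rfl]
    have : LB.P a b (LB.G a b) = univ := by
      refine Finset.filter_true_of_mem ?_
      rintro ⟨i, j⟩ _
      refine Or.inl ⟨?_, ?_⟩
      · simp
      · simp
    rw [this, Finset.card_univ, Fintype.card_prod, Fintype.card_fin, Fintype.card_fin]
  · intro H hH hC
    rw [LB.ne_eq a b H hH]
    exact lt_of_le_of_lt (LB.card_le a b H hC) hk

end

end R128.IT
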