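import Pool.Agent.R128.IT.Stm

/-!
Piece LoadB of project IT (helper562): loads at a vertex `b`.
-/

namespace R128.IT

namespace LoadB

noncomputable section
open Classical Finset

variable {β α : Type}

lemma P_nonneg {D : Dat β α} {m K L : ℕ} (h : Adm D m K L) {b : β} (hb : b ∈ D.B) (j : ℕ) :
    0 ≤ D.P b j := by
  unfold Dat.P
  split_ifs
  · linarith [h.p1 b hb]
  · exact h.p0 b hb
  · exact le_rfl

lemma P_le_one {D : Dat β α} {m K L : ℕ} (h : Adm D m K L) {b : β} (hb : b ∈ D.B) (j : ℕ) :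
    D.P b j ≤ 1 := by
  unfold Dat.P
  split_ifs
  · linarith [h.p0 b hb]
  · exact h.p1 b hb
  · exact zero_le_one

lemma P_s (D : Dat β α) (b : β) : D.P b (D.s b) = 1 - D.p b := by simp [Dat.P]

lemma P_s1 (D : Dat β α) (b : β) : D.P b (D.s b + 1) = D.p b := by simp [Dat.P]

lemma R_pos {D : Dat β α} {m K L : ℕ} (h : Adm D m K L) : 0 < (D.R : ℝ) := by
  have := h.R1
  exact_mod_cast this

lemma Dm_ge (D : Dat β α) (j : ℕ) : (D.R : ℝ) ≤ (D.Dm j : ℝ) := by
  have : D.R ≤ D.Dm j := by unfold Dat.Dm; omega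
  exact_mod_cast this

lemma Dm_pos {D : Dat β α} {m K L : ℕ} (h : Adm D m K L) (j : ℕ) : 0 < (D.Dm j : ℝ) :=
  lt_of_lt_of_le (R_pos h) (Dm_ge D j)

lemma s_le {D : Dat β α} {m K L : ℕ} (h : Adm D m K L) {b : β} (hb : b ∈ D.B) :
    D.s b + 4 ≤ (D.Nb b).card := by
  have h1 := h.sm b hb
  have h2 := h.dK b hb
  have h3 := h.mK
  omega

/-- the key count -/
lemma cnt2 (hC : Cnt) (N T : Finset α) (hT : T.card = 2) (hTN : T ⊆ N) (j : ℕ)
    (hj : j ≤ N.card) :
    (((N.powersetCard j).filter (fun S => T ⊆ S)).card : ℝ) * ((N.card.choose 2 : ℕ) : ℝ) =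
      ((N.card.choose j : ℕ) : ℝ) * ((j.choose 2 : ℕ) : ℝ) := by
  by_cases h2 : 2 ≤ j
  · rw [hC α N T j hTN (by omega), hT]
    have := Nat.choose_mul (n := N.card) h2
    rw [← Nat.cast_mul, ← Nat.cast_mul, this, mul_comm]
  · have h0 : ((N.powersetCard j).filter (fun S => T ⊆ S)) = ∅ := by
      rw [filter_eq_empty_iff]
      intro S hS hTS
      have h3 := card_le_card hTS
      rw [(mem_powersetCard.1 hS).2] at h3
      omega
    rw [h0, Nat.choose_eq_zero_of_lt (by omega : j < 2)]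
    simp

lemma cnt2_zero (N T : Finset α) (hTN : ¬ T ⊆ N) (j : ℕ) :
    ((N.powersetCard j).filter (fun S => T ⊆ S)) = ∅ := by
  rw [filter_eq_empty_iff]
  intro S hS hTS
  exact hTN (hTS.trans (mem_powersetCard.1 hS).1)

/-- ratio form of the count -/
lemma ratio2 (hC : Cnt) (N T : Finset α) (hT : T.card = 2) (hTN : T ⊆ N) (j : ℕ)
    (hj : j ≤ N.card) (h2 : 2 ≤ N.card) :
    (((N.powersetCard j).filter (fun S => T ⊆ S)).card : ℝ) / ((N.card.choose j : ℕ) : ℝ) =
      ((j.choose 2 : ℕ) : ℝ) / ((N.card.choose 2 : ℕ) : ℝ) := by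
  have h := cnt2 hC N T hT hTN j hj
  have hj0 : ((N.card.choose j : ℕ) : ℝ) ≠ 0 := by
    have := Nat.choose_pos hj
    exact_mod_cast this.ne'
  have h20 : ((N.card.choose 2 : ℕ) : ℝ) ≠ 0 := by
    have := Nat.choose_pos h2
    exact_mod_cast this.ne'
  rw [div_eq_div_iff hj0 h20, h, mul_comm]

/-- the sum over the sets of size `j` and the dummies -/
lemma inner {D : Dat β α} {m K L : ℕ} (h : Adm D m K L) (b : β) (j : ℕ)
    (Q : Finset α → Prop) [DecidablePred Q] :
    ∑ S ∈ (D.Nb b).powersetCard j, ∑ i ∈ range (D.Dm j),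
      (if Q S then D.w (b, S, i) else 0) =
    D.P b j * (((((D.Nb b).powersetCard j).filter Q).card : ℝ) /
      (((D.Nb b).card.choose j : ℕ) : ℝ)) := by
  have hD : (D.Dm j : ℝ) ≠ 0 := (Dm_pos h j).ne'
  have h1 : ∀ S ∈ (D.Nb b).powersetCard j, ∑ i ∈ range (D.Dm j),
      (if Q S then D.w (b, S, i) else 0) =
      if Q S then D.P b j / (((D.Nb b).card.choose j : ℕ) : ℝ) else 0 := by
    intro S hS
    have hc := (mem_powersetCard.1 hS).2
    by_cases hQ : Q S
    · simp only [hQ, if_true, Dat.w, hc, sum_const, card_range, nsmul_eq_mul]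
      by_cases hn : (((D.Nb b).card.choose j : ℕ) : ℝ) = 0
      · rw [hn]; simp
      · field_simp
    · simp [hQ]
  rw [sum_congr rfl h1, ← sum_filter, sum_const, nsmul_eq_mul]
  ring

lemma sumB (hF : SumF) {D : Dat β α} {m K L : ℕ} (h : Adm D m K L) (b : β)
    (Q : Finset α → Prop) [DecidablePred Q] (P : β × Finset α × ℕ → Prop) [DecidablePred P]
    (hP : ∀ e, P e ↔ (e.1 = b ∧ Q e.2.1)) :
    ∑ e ∈ D.F.filter P, D.w e =
    if b ∈ D.B then
      (1 - D.p b) * (((((D.Nb b).powersetCard (D.s b)).filter Q).card : ℝ) /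
        (((D.Nb b).card.choose (D.s b) : ℕ) : ℝ)) +
      D.p b * (((((D.Nb b).powersetCard (D.s b + 1)).filter Q).card : ℝ) /
        (((D.Nb b).card.choose (D.s b + 1) : ℕ) : ℝ))
    else 0 := by
  rw [sum_filter, hF β α D _ h.s1 h.R1]
  simp only [hP]
  by_cases hb : b ∈ D.B
  · rw [if_pos hb, sum_eq_single b]
    · have h1 := inner h b (D.s b) Q
      have h2 := inner h b (D.s b + 1) Q
      rw [P_s] at h1
      rw [P_s1] at h2
      simp only [true_and]
      rw [h1, h2]
    · intro b' _ hne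
      simp [hne]
    · intro hb'
      exact absurd hb hb'
  · rw [if_neg hb]
    apply sum_eq_zero
    intro b' hb'
    have hne : b' ≠ b := fun e => hb (e ▸ hb')
    simp [hne]

end

end LoadB

open LoadB Classical Finset in
theorem LoadB_proof : LoadB_stm := by
  intro hC hF _ β α D m K L h b
  constructor
  · rw [sumB hF h b (fun _ => True) (fun e => e.1 = b) (by simp)]
    by_cases hb : b ∈ D.B
    · have hs := s_le h hb
      have hj : ∀ j, j ≤ (D.Nb b).card → (((((D.Nb b).powersetCard j).filter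
          (fun _ => True)).card : ℝ) / (((D.Nb b).card.choose j : ℕ) : ℝ)) = 1 := by
        intro j hj
        rw [filter_true, card_powersetCard]
        apply div_self
        have := Nat.choose_pos hj
        exact_mod_cast this.ne'
      rw [if_pos hb, hj _ (by omega), hj _ (by omega)]
      linarith
    · rw [if_neg hb]
      exact zero_le_one
  · intro T hT
    rw [sumB hF h b (fun S => T ⊆ S) (fun e => e.1 = b ∧ T ⊆ e.2.1) (by simp)]
    by_cases hb : b ∈ D.B
    · have hs := s_le h hb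
      by_cases hTN : T ⊆ D.Nb b
      · rw [if_pos hb, if_pos ⟨hb, hTN⟩, ratio2 hC _ T hT hTN _ (by omega) (by omega),
          ratio2 hC _ T hT hTN _ (by omega) (by omega)]
        have hbud := h.bud b hb
        have h20 : (((D.Nb b).card.choose 2 : ℕ) : ℝ) ≠ 0 := by
          have := Nat.choose_pos (show 2 ≤ (D.Nb b).card by omega)
          exact_mod_cast this.ne'
        rw [← mul_div_assoc, ← mul_div_assoc, ← add_div, hbud]
        rw [div_div, mul_comm, ← div_div, div_self h20]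
      · rw [if_pos hb, if_neg (fun hh => hTN hh.2), cnt2_zero _ _ hTN, cnt2_zero _ _ hTN]
        simp
    · rw [if_neg hb, if_neg (fun hh => hb hh.1)]

end R128.IT
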