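import Pool.Agent.R128.IT.Stm

namespace R128.IT

noncomputable section
open Classical Finset

/-- number of `j`-sets containing `U` -/
theorem LoadP.cnt (hC : Cnt) {α : Type} (N U : Finset α) (j u : ℕ) (hU : U.card = u)
    (_hj : j ≤ N.card) :
    ((N.powersetCard j).filter (fun S => U ⊆ S)).card * N.card.choose u ≤
      N.card.choose j * j.choose u := by
  by_cases h1 : U ⊆ N
  · by_cases h2 : u ≤ j
    · rw [hC α N U j h1 (by omega), hU, Nat.choose_mul (n := N.card) h2, Nat.mul_comm]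
    · have h0 : (N.powersetCard j).filter (fun S => U ⊆ S) = ∅ := by
        apply Finset.filter_eq_empty_iff.2
        intro S hS h
        have h3 := Finset.card_le_card h
        rw [(Finset.mem_powersetCard.1 hS).2] at h3
        omega
      rw [h0]; simp
  · have h0 : (N.powersetCard j).filter (fun S => U ⊆ S) = ∅ := by
      apply Finset.filter_eq_empty_iff.2
      intro S hS h
      exact h1 (h.trans (Finset.mem_powersetCard.1 hS).1)
    rw [h0]; simp

theorem LoadP.inner {β α : Type} (D : Dat β α) (hR : 1 ≤ D.R) (q : Finset α → Prop) (b : β)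
    (j : ℕ) :
    ∑ S ∈ (D.Nb b).powersetCard j, ∑ i ∈ range (D.Dm j), (if q S then D.w (b, S, i) else 0) =
    ((((D.Nb b).powersetCard j).filter (fun S => q S)).card : ℝ) *
      (D.P b j / (((D.Nb b).card.choose j : ℕ) : ℝ)) := by
  have hD : (D.Dm j : ℝ) ≠ 0 := by
    have : 0 < D.Dm j := by unfold Dat.Dm; omega
    exact_mod_cast this.ne'
  have h1 : ∀ S ∈ (D.Nb b).powersetCard j,
      ∑ i ∈ range (D.Dm j), (if q S then D.w (b, S, i) else 0) =
      if q S then D.P b j / (((D.Nb b).card.choose j : ℕ) : ℝ) else 0 := by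
    intro S hS
    have hc := (Finset.mem_powersetCard.1 hS).2
    split_ifs with h
    · simp only [Dat.w, hc, Finset.sum_const, card_range, nsmul_eq_mul]
      rw [← mul_div_assoc, mul_comm (D.Dm j : ℝ) (D.P b j), mul_div_mul_right _ _ hD]
    · simp
  rw [Finset.sum_congr rfl h1, ← Finset.sum_filter, Finset.sum_const, nsmul_eq_mul]

theorem LoadP.gen (hS : SumF) {β α : Type} (D : Dat β α) (m K L : ℕ) (hA : Adm D m K L)
    (q : Finset α → Prop) (t : ℝ) (ht : 0 ≤ t)
    (hq : ∀ b ∈ D.B, ∀ j, j ≤ m →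
      ((((D.Nb b).powersetCard j).filter (fun S => q S)).card : ℝ) *
        (((D.Nb b).card.choose 2 : ℕ) : ℝ) ≤
        t * (((D.Nb b).card.choose j : ℕ) : ℝ) * ((j.choose 2 : ℕ) : ℝ)) :
    ∑ e ∈ D.F.filter (fun e => q e.2.1), D.w e ≤ t := by
  have hL : (0 : ℝ) < L := by exact_mod_cast hA.L1
  have hone : ∀ b ∈ D.B, ∀ j, j ≤ m → 0 ≤ D.P b j →
      ((((D.Nb b).powersetCard j).filter (fun S => q S)).card : ℝ) *
      (D.P b j / (((D.Nb b).card.choose j : ℕ) : ℝ)) ≤
      t * (D.P b j * ((j.choose 2 : ℕ) : ℝ) / (((D.Nb b).card.choose 2 : ℕ) : ℝ)) := by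
    intro b hb j hj hP
    have hK := hA.dK b hb
    have hmK := hA.mK
    have h1 : (0 : ℝ) < (((D.Nb b).card.choose j : ℕ) : ℝ) := by
      exact_mod_cast Nat.choose_pos (by omega)
    have h2 : (0 : ℝ) < (((D.Nb b).card.choose 2 : ℕ) : ℝ) := by
      exact_mod_cast Nat.choose_pos (by omega)
    have h3 := hq b hb j hj
    rw [← mul_div_assoc, ← mul_div_assoc, div_le_div_iff₀ h1 h2]
    calc _ = D.P b j * (((((D.Nb b).powersetCard j).filter (fun S => q S)).card : ℝ) *
          (((D.Nb b).card.choose 2 : ℕ) : ℝ)) := by ring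
      _ ≤ D.P b j * (t * (((D.Nb b).card.choose j : ℕ) : ℝ) * ((j.choose 2 : ℕ) : ℝ)) :=
          mul_le_mul_of_nonneg_left h3 hP
      _ = _ := by ring
  have hb : ∀ b ∈ D.B, (∑ S ∈ (D.Nb b).powersetCard (D.s b),
      ∑ i ∈ range (D.Dm (D.s b)), (if q S then D.w (b, S, i) else 0) +
      ∑ S ∈ (D.Nb b).powersetCard (D.s b + 1),
        ∑ i ∈ range (D.Dm (D.s b + 1)), (if q S then D.w (b, S, i) else 0)) ≤
      t * (1 / (L : ℝ)) := by
    intro b hb
    have hK := hA.dK b hb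
    have hmK := hA.mK
    have hsm := hA.sm b hb
    have h2 : (0 : ℝ) < (((D.Nb b).card.choose 2 : ℕ) : ℝ) := by
      exact_mod_cast Nat.choose_pos (by omega)
    have hPs : D.P b (D.s b) = 1 - D.p b := by simp [Dat.P]
    have hPs1 : D.P b (D.s b + 1) = D.p b := by simp [Dat.P]
    rw [LoadP.inner D hA.R1, LoadP.inner D hA.R1]
    have e1 := hone b hb (D.s b) (by omega) (by rw [hPs]; linarith [hA.p1 b hb])
    have e2 := hone b hb (D.s b + 1) hsm (by rw [hPs1]; exact hA.p0 b hb)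
    rw [hPs] at e1 ⊢
    rw [hPs1] at e2 ⊢
    have hbud := hA.bud b hb
    refine (add_le_add e1 e2).trans (le_of_eq ?_)
    rw [← mul_add, ← add_div, hbud]
    congr 1
    field_simp
  rw [Finset.sum_filter, hS β α D _ hA.s1 hA.R1]
  have hcB : (D.B.card : ℝ) ≤ L := by exact_mod_cast hA.cardB
  calc _ ≤ ∑ _b ∈ D.B, t * (1 / (L : ℝ)) := Finset.sum_le_sum hb
    _ = D.B.card * (t * (1 / (L : ℝ))) := by rw [Finset.sum_const, nsmul_eq_mul]
    _ ≤ L * (t * (1 / (L : ℝ))) := mul_le_mul_of_nonneg_right hcB (by positivity)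
    _ = t := by field_simp

theorem LoadP.arith (n c2 c3 cj j2 j3 d j m K : ℕ) (h : n * c3 ≤ cj * j3)
    (hc : c3 * 3 = c2 * (d - 2)) (hj : j3 * 3 = j2 * (j - 2)) (hjm : j ≤ m) (hK : K ≤ d) :
    n * c2 * (K - 2) ≤ cj * j2 * m := by
  have h1 : n * c2 * (K - 2) ≤ n * c2 * (d - 2) := Nat.mul_le_mul_left _ (by omega)
  have h2 : cj * j2 * (j - 2) ≤ cj * j2 * m := Nat.mul_le_mul_left _ (by omega)
  calc n * c2 * (K - 2) ≤ n * c2 * (d - 2) := h1
    _ = n * (c2 * (d - 2)) := by ring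
    _ = 3 * (n * c3) := by rw [← hc]; ring
    _ ≤ 3 * (cj * j3) := Nat.mul_le_mul_left _ h
    _ = cj * (j3 * 3) := by ring
    _ = cj * j2 * (j - 2) := by rw [hj]; ring
    _ ≤ _ := h2

theorem LoadP_proof : LoadP_stm := by
  unfold LoadP_stm
  intro hC hS _ β α D m K L hA
  have hmK := hA.mK
  constructor
  · intro T hT
    have hg := LoadP.gen hS D m K L hA (fun S => T ⊆ S) 1 zero_le_one ?_
    · convert hg
    intro b hb j hj
    have hK := hA.dK b hb
    have h := LoadP.cnt hC (D.Nb b) T j 2 hT (by omega)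
    rw [one_mul]
    have h' : ((((D.Nb b).powersetCard j).filter (fun S => T ⊆ S)).card : ℝ) *
        (((D.Nb b).card.choose 2 : ℕ) : ℝ) ≤
        (((D.Nb b).card.choose j : ℕ) : ℝ) * ((j.choose 2 : ℕ) : ℝ) := by
      exact_mod_cast h
    convert h'
  · intro T T' hT hT' hne
    have hx : ∃ x ∈ T', x ∉ T := by
      by_contra hcon
      push Not at hcon
      exact hne (Finset.eq_of_subset_of_card_le hcon (by omega)).symm
    obtain ⟨x, hx1, hx2⟩ := hx
    have hKr : (0 : ℝ) < (K : ℝ) - 2 := by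
      have : (3 : ℝ) ≤ K := by exact_mod_cast (by omega : 3 ≤ K)
      linarith
    have ht : (0 : ℝ) ≤ (m : ℝ) / ((K : ℝ) - 2) := by positivity
    have hg := LoadP.gen hS D m K L hA (fun S => T ⊆ S ∧ T' ⊆ S) _ ht ?_
    · convert hg
    intro b hb j hj
    have hK := hA.dK b hb
    have hU : (insert x T).card = 3 := by rw [Finset.card_insert_of_notMem hx2, hT]
    have h := LoadP.cnt hC (D.Nb b) (insert x T) j 3 hU (by omega)
    have hle : ((((D.Nb b).powersetCard j).filter (fun S => T ⊆ S ∧ T' ⊆ S)).card) ≤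
        ((((D.Nb b).powersetCard j).filter (fun S => insert x T ⊆ S)).card) := by
      apply Finset.card_le_card
      intro S hS1
      rw [Finset.mem_filter] at hS1 ⊢
      exact ⟨hS1.1, Finset.insert_subset (hS1.2.2 hx1) hS1.2.1⟩
    have h' : ((((D.Nb b).powersetCard j).filter (fun S => T ⊆ S ∧ T' ⊆ S)).card) *
        (D.Nb b).card.choose 3 ≤ (D.Nb b).card.choose j * j.choose 3 :=
      (Nat.mul_le_mul_right _ hle).trans h
    have h3 := LoadP.arith _ ((D.Nb b).card.choose 2) _ _ (j.choose 2) _ (D.Nb b).card j m K h'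
      (Nat.choose_succ_right_eq _ 2) (Nat.choose_succ_right_eq _ 2) hj hK
    have h4 : ((((D.Nb b).powersetCard j).filter (fun S => T ⊆ S ∧ T' ⊆ S)).card : ℝ) *
        (((D.Nb b).card.choose 2 : ℕ) : ℝ) * ((K : ℝ) - 2) ≤
        (((D.Nb b).card.choose j : ℕ) : ℝ) * ((j.choose 2 : ℕ) : ℝ) * (m : ℝ) := by
      have h5 : ((K - 2 : ℕ) : ℝ) = (K : ℝ) - 2 := by
        rw [Nat.cast_sub (by omega)]; norm_num
      rw [← h5]
      exact_mod_cast h3
    rw [← le_div_iff₀ hKr] at h4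
    have h6 : ((((D.Nb b).powersetCard j).filter (fun S => T ⊆ S ∧ T' ⊆ S)).card : ℝ) *
        (((D.Nb b).card.choose 2 : ℕ) : ℝ) ≤
        (m : ℝ) / ((K : ℝ) - 2) * (((D.Nb b).card.choose j : ℕ) : ℝ) *
          ((j.choose 2 : ℕ) : ℝ) := by
      refine h4.trans (le_of_eq ?_)
      ring
    convert h6

end

end R128.IT
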