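import Pool.Agent.R128.IT.Stm

namespace R128.IT
open Classical Finset

theorem Loads.mem_inl {β α : Type} (D : Dat β α) (b : β) (e : β × Finset α × ℕ) :
    (Sum.inl b ∈ D.A e) ↔ e.1 = b := by
  unfold Dat.A
  simp [eq_comm]

theorem Loads.mem_pair {β α : Type} (D : Dat β α) (T : Finset α) (e : β × Finset α × ℕ) :
    (Sum.inr (Sum.inl T) ∈ D.A e) ↔ (T ⊆ e.2.1 ∧ T.card = 2) := by
  unfold Dat.A
  simp [mem_powersetCard]

theorem Loads.mem_dum {β α : Type} (D : Dat β α) (j i : ℕ) (e : β × Finset α × ℕ) :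
    (Sum.inr (Sum.inr (j, i)) ∈ D.A e) ↔ (e.2.1.card = j ∧ e.2.2 = i) := by
  unfold Dat.A
  simp [eq_comm]

theorem Loads_proof : Loads_stm := by
  unfold Loads_stm Loads
  intro hWN hB hP hDm β α D m K L hA
  have nL : (0 : ℝ) ≤ 1 / (L : ℝ) := by positivity
  have nR : (0 : ℝ) ≤ 1 / (D.R : ℝ) := by positivity
  have nK : (0 : ℝ) ≤ (m : ℝ) / ((K : ℝ) - 2) := by
    have : ((m + 3 : ℕ) : ℝ) ≤ (K : ℝ) := by exact_mod_cast hA.mK
    push_cast at this
    have h0 : (0 : ℝ) ≤ m := Nat.cast_nonneg m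
    apply div_nonneg h0
    linarith
  have hb := hB β α D m K L hA
  have hp := hP β α D m K L hA
  have hd := hDm β α D m K L hA
  have eqs : ∀ (p q : β × Finset α × ℕ → Prop) [DecidablePred p] [DecidablePred q],
      (∀ e, p e ↔ q e) →
      ∑ e ∈ D.F.filter p, D.w e = ∑ e ∈ D.F.filter q, D.w e := by
    intro p q _ _ h
    apply Finset.sum_congr _ (fun _ _ => rfl)
    ext e
    simp only [mem_filter, h e]
  have zero : ∀ (p : β × Finset α × ℕ → Prop) [DecidablePred p], (∀ e, ¬ p e) →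
      ∑ e ∈ D.F.filter p, D.w e = 0 := by
    intro p _ h
    rw [Finset.filter_false_of_mem (fun e _ => h e), sum_empty]
  -- the symmetric cases
  have BT : ∀ b T, ∑ e ∈ D.F.filter (fun e => Sum.inl b ∈ D.A e ∧ Sum.inr (Sum.inl T) ∈ D.A e),
      D.w e ≤ 1 / (L : ℝ) := by
    intro b T
    by_cases hT : T.card = 2
    · rw [eqs _ (fun e => e.1 = b ∧ T ⊆ e.2.1) (fun e => by
        rw [Loads.mem_inl, Loads.mem_pair]; simp [hT])]
      refine le_trans ((hb b).2 T hT) ?_
      split_ifs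
      · exact le_refl _
      · exact nL
    · rw [zero _ (fun e h => hT ((Loads.mem_pair D T e).1 h.2).2)]
      exact nL
  have BD : ∀ b j i, ∑ e ∈ D.F.filter (fun e => Sum.inl b ∈ D.A e ∧
      Sum.inr (Sum.inr (j, i)) ∈ D.A e), D.w e ≤ 1 / (D.R : ℝ) := by
    intro b j i
    rw [eqs _ (fun e => e.1 = b ∧ e.2.1.card = j ∧ e.2.2 = i) (fun e => by
        rw [Loads.mem_inl, Loads.mem_dum])]
    exact (hd j i).2.1 b
  have TD : ∀ T j i, ∑ e ∈ D.F.filter (fun e => Sum.inr (Sum.inl T) ∈ D.A e ∧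
      Sum.inr (Sum.inr (j, i)) ∈ D.A e), D.w e ≤ 1 / (D.R : ℝ) := by
    intro T j i
    by_cases hT : T.card = 2
    · rw [eqs _ (fun e => T ⊆ e.2.1 ∧ e.2.1.card = j ∧ e.2.2 = i) (fun e => by
        rw [Loads.mem_pair, Loads.mem_dum]; simp [hT])]
      exact (hd j i).2.2 T hT
    · rw [zero _ (fun e h => hT ((Loads.mem_pair D T e).1 h.1).2)]
      exact nR
  have swap : ∀ u v, ∑ e ∈ D.F.filter (fun e => u ∈ D.A e ∧ v ∈ D.A e), D.w e =
      ∑ e ∈ D.F.filter (fun e => v ∈ D.A e ∧ u ∈ D.A e), D.w e :=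
    fun u v => eqs _ _ (fun e => and_comm)
  constructor
  · rintro (b | T | ⟨j, i⟩)
    · rw [eqs _ (fun e => e.1 = b) (fun e => Loads.mem_inl D b e)]
      exact (hb b).1
    · by_cases hT : T.card = 2
      · rw [eqs _ (fun e => T ⊆ e.2.1) (fun e => by rw [Loads.mem_pair]; simp [hT])]
        exact hp.1 T hT
      · rw [zero _ (fun e h => hT ((Loads.mem_pair D T e).1 h).2)]
        exact zero_le_one
    · rw [eqs _ (fun e => e.2.1.card = j ∧ e.2.2 = i) (fun e => Loads.mem_dum D j i e)]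
      exact (hd j i).1
  · rintro (b | T | ⟨j, i⟩) (b' | T' | ⟨j', i'⟩) huv
    · have hbb : b ≠ b' := fun h => huv (by rw [h])
      rw [zero _ (fun e h => by
        have h1 := (Loads.mem_inl D b e).1 h.1
        have h2 := (Loads.mem_inl D b' e).1 h.2
        exact hbb (h1.symm.trans h2))]
      linarith
    · linarith [BT b T']
    · linarith [BD b j' i']
    · rw [swap]; linarith [BT b' T]
    · have hTT : T ≠ T' := fun h => huv (by rw [h])
      by_cases hT : T.card = 2
      · by_cases hT' : T'.card = 2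
        · rw [eqs _ (fun e => T ⊆ e.2.1 ∧ T' ⊆ e.2.1) (fun e => by
            rw [Loads.mem_pair, Loads.mem_pair]; simp [hT, hT'])]
          linarith [hp.2 T T' hT hT' hTT]
        · rw [zero _ (fun e h => hT' ((Loads.mem_pair D T' e).1 h.2).2)]
          linarith
      · rw [zero _ (fun e h => hT ((Loads.mem_pair D T e).1 h.1).2)]
        linarith
    · linarith [TD T j' i']
    · rw [swap]; linarith [BD b' j i]
    · rw [swap]; linarith [TD T' j i]
    · rw [zero _ (fun e h => by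
        have h1 := (Loads.mem_dum D j i e).1 h.1
        have h2 := (Loads.mem_dum D j' i' e).1 h.2
        apply huv
        rw [← h1.1, ← h1.2, ← h2.1, ← h2.2])]
      linarith

end R128.IT
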