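import Pool.Agent.R128.IT.Stm

/-! IT-Main (MP_9a04dc): assembly of the main theorem. -/

namespace R128.IT

open Classical Finset

theorem Main.card_image_le {β α : Type} (Q : Finset (β × α)) (A : Finset α)
    (h : ∀ e ∈ Q, e.2 ∈ A) : (Q.image Prod.snd).card ≤ A.card := by
  apply card_le_card
  intro x hx
  obtain ⟨e, he, rfl⟩ := mem_image.1 hx
  exact h e he

theorem Main.large (c d : ℝ) (hc : 0 < c) (hd : 0 < d) : ∃ N4 : ℕ, 1 ≤ N4 ∧ ∀ N : ℕ, N4 ≤ N →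
    2 / c * √(N : ℝ) ≤ d * (N : ℝ) ^ ((2 : ℝ) / 3) := by
  refine ⟨⌈(2 / (c * d)) ^ 6⌉₊ + 1, by omega, ?_⟩
  intro N hN
  have h1 : (2 / (c * d)) ^ 6 ≤ (N : ℝ) := by
    have h2 := Nat.le_ceil ((2 / (c * d)) ^ 6)
    have h3 : ((⌈(2 / (c * d)) ^ 6⌉₊ + 1 : ℕ) : ℝ) ≤ (N : ℝ) := by exact_mod_cast hN
    push_cast at h3
    linarith
  have hN0 : (0 : ℝ) < (N : ℝ) := by
    have : 0 < N := by omega
    exact_mod_cast this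
  have hcd : 0 < 2 / (c * d) := by positivity
  have h4 : 2 / (c * d) ≤ (N : ℝ) ^ ((1 : ℝ) / 6) := by
    have h5 : ((2 / (c * d)) ^ 6) ^ ((1 : ℝ) / 6) ≤ (N : ℝ) ^ ((1 : ℝ) / 6) :=
      Real.rpow_le_rpow (by positivity) h1 (by norm_num)
    have h6 : ((2 / (c * d)) ^ 6) ^ ((1 : ℝ) / 6) = 2 / (c * d) := by
      rw [← Real.rpow_natCast, ← Real.rpow_mul hcd.le]
      norm_num
    rwa [h6] at h5
  have h7 : (N : ℝ) ^ ((2 : ℝ) / 3) = √(N : ℝ) * (N : ℝ) ^ ((1 : ℝ) / 6) := by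
    rw [Real.sqrt_eq_rpow, ← Real.rpow_add hN0]
    norm_num
  rw [h7]
  have h8 : 0 ≤ √(N : ℝ) := Real.sqrt_nonneg _
  have h9 : 2 / c = d * (2 / (c * d)) := by field_simp
  rw [h9]
  calc d * (2 / (c * d)) * √(N : ℝ) ≤ d * ((N : ℝ) ^ ((1 : ℝ) / 6)) * √(N : ℝ) := by gcongr
    _ = d * (√(N : ℝ) * (N : ℝ) ^ ((1 : ℝ) / 6)) := by ring

theorem Main_proof : Main_stm := by
  intro hTAG hTS hTB hGlue hSplit η hη
  obtain ⟨ε, hε, d1, hd1, N1, h1⟩ := hTB η hη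
  obtain ⟨d2, hd2, N2, h2⟩ := hTAG (ε / 2) (by linarith)
  obtain ⟨c, hc, N3, h3⟩ := hTS (ε / 2) (by linarith)
  obtain ⟨N4, hN4, h4⟩ := Main.large c (min d1 d2) hc (lt_min hd1 hd2)
  refine ⟨N1 + N2 + N3 + N4, ?_⟩
  intro n G hN
  set N : ℕ := ne G with hNdef
  have hNpos : 0 < N := by omega
  have hN0 : (0 : ℝ) < (N : ℝ) := by exact_mod_cast hNpos
  have hsq : 0 < √(N : ℝ) := Real.sqrt_pos.2 hN0
  have hT : 0 < c * √(N : ℝ) := mul_pos hc hsq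
  obtain ⟨A, B, hAB, hA, GA, GB, Q, hGA, hGB, hGAA, hGBT, hQ, hsum, hQN⟩ := hSplit n G _ hT
  have hX : (0 : ℝ) ≤ (N : ℝ) ^ ((2 : ℝ) / 3) := by positivity
  have hAc : (A.card : ℝ) ≤ 2 / c * √(N : ℝ) := by
    have e1 : √(N : ℝ) * √(N : ℝ) = (N : ℝ) := Real.mul_self_sqrt hN0.le
    have e2 : ((A.card : ℝ) * c) * √(N : ℝ) ≤ (2 * √(N : ℝ)) * √(N : ℝ) := by
      calc ((A.card : ℝ) * c) * √(N : ℝ) = (A.card : ℝ) * (c * √(N : ℝ)) := by ring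
        _ ≤ 2 * (N : ℝ) := hA
        _ = (2 * √(N : ℝ)) * √(N : ℝ) := by rw [mul_assoc, e1]
    have e3 : (A.card : ℝ) * c ≤ 2 * √(N : ℝ) := le_of_mul_le_mul_right e2 hsq
    rw [div_mul_eq_mul_div, le_div_iff₀ hc]
    exact e3
  have hA2 : (A.card : ℝ) ≤ min d1 d2 * (N : ℝ) ^ ((2 : ℝ) / 3) :=
    hAc.trans (h4 N (by omega))
  have hAd1 : (A.card : ℝ) ≤ d1 * (N : ℝ) ^ ((2 : ℝ) / 3) :=
    hA2.trans (mul_le_mul_of_nonneg_right (min_le_left _ _) hX)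
  have hAd2 : (A.card : ℝ) ≤ d2 * (N : ℝ) ^ ((2 : ℝ) / 3) :=
    hA2.trans (mul_le_mul_of_nonneg_right (min_le_right _ _) hX)
  have hfin : ∀ z : ℝ, 2 * (N : ℝ) ^ ((2 : ℝ) / 3) ≤ z →
      (3 / 2 - η) * (N : ℝ) ^ ((2 : ℝ) / 3) ≤ z := by
    intro z hz
    refine le_trans (mul_le_mul_of_nonneg_right ?_ hX) hz
    linarith
  by_cases hcB : ε / 2 * (N : ℝ) ≤ (ne GB : ℝ)
  · obtain ⟨H, hH1, hH2, hH3⟩ := h3 N (by omega) (Fin n) GB hGBT hcB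
    exact ⟨H, hH1.trans hGB, hH2, hfin _ hH3⟩
  by_cases hcA : ε / 2 * (N : ℝ) ≤ (ne GA : ℝ)
  · obtain ⟨H, hH1, hH2, hH3⟩ := h2 N (by omega) (Fin n) GA A hAd2 hGAA hcA
    exact ⟨H, hH1.trans hGA, hH2, hfin _ hH3⟩
  push Not at hcA hcB
  have hsum' : (N : ℝ) ≤ (ne GA : ℝ) + (ne GB : ℝ) + (Q.card : ℝ) := by exact_mod_cast hsum
  have hQ1 : (1 - ε) * (N : ℝ) ≤ (Q.card : ℝ) := by
    have e : (1 - ε) * (N : ℝ) = (N : ℝ) - ε / 2 * (N : ℝ) - ε / 2 * (N : ℝ) := by ring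
    rw [e]
    linarith
  have hQ2 := Main.card_image_le Q A (fun e he => (hQ e he).2.1)
  obtain ⟨P, hP1, hP2, hP3⟩ := h1 N (by omega) (Fin n) (Fin n) Q hQ1 hQN
    (le_trans (by exact_mod_cast hQ2) hAd1)
  obtain ⟨H, hH1, hH2, hH3⟩ := hGlue (Fin n) G A B hAB P (fun e he => hQ e (hP1 he)) hP2
  refine ⟨H, hH1, hH2, hP3.trans ?_⟩
  exact_mod_cast hH3

end R128.IT
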