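import Pool.Agent.R128.IT.Stm

namespace R128.IT
open Classical Finset

theorem Mix_proof : Mix_stm := by
  unfold Mix_stm Mix
  intro Z
  refine ⟨Z + 2, fun z hz0 hzZ => ?_⟩
  have hch : ∀ n : ℕ, (((n + 1).choose 2 : ℕ) : ℝ) = ((n.choose 2 : ℕ) : ℝ) + n := by
    intro n
    rw [Nat.choose_succ_succ' n 1, Nat.choose_one_right]
    push_cast
    ring
  have hbig : ∀ n : ℕ, n ≤ (n + 1).choose 2 := by
    intro n
    rw [Nat.choose_succ_succ' n 1, Nat.choose_one_right]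
    omega
  obtain ⟨Pz, hPz⟩ : ∃ Pz : ℕ → Prop, ∀ s, Pz s ↔ ((s.choose 2 : ℕ) : ℝ) ≤ z :=
    ⟨_, fun s => Iff.rfl⟩
  have hP1 : Pz 1 := by
    rw [hPz]
    simpa using hz0
  have hPN : ¬ Pz (Z + 2) := by
    rw [hPz]
    intro h3
    have h2 : ((Z + 1 : ℕ) : ℝ) ≤ (((Z + 2).choose 2 : ℕ) : ℝ) := by
      exact_mod_cast hbig (Z + 1)
    push_cast at h2
    linarith
  obtain ⟨s, hs⟩ : ∃ s, s = Nat.findGreatest Pz (Z + 2) := ⟨_, rfl⟩
  have hs1 : 1 ≤ s := by
    rw [hs]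
    exact Nat.le_findGreatest (by omega) hP1
  have hPs : Pz s := by
    rw [hs]
    exact Nat.findGreatest_spec (m := 1) (by omega) hP1
  have hsN : s ≤ Z + 2 := by
    rw [hs]
    exact Nat.findGreatest_le _
  have hsne : s ≠ Z + 2 := by
    intro h
    rw [h] at hPs
    exact hPN hPs
  have hPs1 : ¬ Pz (s + 1) := by
    apply Nat.findGreatest_is_greatest (P := Pz) (n := Z + 2)
    · rw [← hs]
      omega
    · omega
  rw [hPz] at hPs hPs1
  have hs0 : (0 : ℝ) < s := by exact_mod_cast hs1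
  have hcs1 := not_le.1 hPs1
  have hc2 := hch s
  have hcv : ((s.choose 2 : ℕ) : ℝ) = s * (s - 1) / 2 := Nat.cast_choose_two ℝ s
  refine ⟨s, (z - ((s.choose 2 : ℕ) : ℝ)) / s, hs1, by omega, div_nonneg (by linarith) hs0.le,
    ?_, ?_, ?_⟩
  · rw [div_le_one hs0]
    linarith
  · rw [hc2]
    field_simp
    ring
  · have h5 : √(2 * z) ≤ z / s + s / 2 := by
      rw [Real.sqrt_le_iff]
      refine ⟨by positivity, ?_⟩
      have h6 : (z / s + s / 2) ^ 2 - 2 * z = (z / s - s / 2) ^ 2 := by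
        field_simp
        ring
      nlinarith [sq_nonneg (z / s - s / 2)]
    have h6 : (1 - (z - ((s.choose 2 : ℕ) : ℝ)) / s) * (s : ℝ) +
        (z - ((s.choose 2 : ℕ) : ℝ)) / s * ((s : ℝ) + 1) = z / s + s / 2 + 1 / 2 := by
      rw [hcv]
      field_simp
      ring
    rw [h6]
    linarith

end R128.IT
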