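import Pool.Agent.R128.IT.Stm

namespace R128.IT
open Classical Finset

theorem NB_proof : NB_stm := by
  unfold NB_stm
  intro hMix hNM hNX ε Z hε
  obtain ⟨m, hm⟩ := hMix Z
  have hm2 : 2 ≤ m := by
    obtain ⟨s, p, h1, h2, _⟩ := hm 0 le_rfl (Nat.cast_nonneg Z)
    omega
  have hm0 : (0 : ℝ) < m := by exact_mod_cast (by omega : 0 < m)
  obtain ⟨κ, hκ, H⟩ := hNM m (ε / (2 * m)) (by positivity)
  obtain ⟨R, hR⟩ : ∃ R : ℕ, 3 / κ ≤ R := exists_nat_ge _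
  obtain ⟨K, hK⟩ : ∃ K : ℕ, 3 * (m : ℝ) / κ ≤ K := exists_nat_ge _
  obtain ⟨L0, hL0⟩ : ∃ L0 : ℕ, 2 * (m : ℝ) ^ 2 * (1 + ((R : ℝ) + 1)) / ε + 3 / κ ≤ L0 :=
    exists_nat_ge _
  refine ⟨K + m + 3, L0 + 1, fun β α B Nb L hL hBL hB => ?_⟩
  have hL1 : 1 ≤ L := by omega
  have hLr : (0 : ℝ) < L := by exact_mod_cast hL1
  have hLL0 : (L0 : ℝ) ≤ L := by exact_mod_cast (by omega : L0 ≤ L)
  have hex : ∀ b ∈ B, ∃ (s : ℕ) (p : ℝ), 1 ≤ s ∧ s + 1 ≤ m ∧ 0 ≤ p ∧ p ≤ 1 ∧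
      (1 - p) * ((s.choose 2 : ℕ) : ℝ) + p * (((s + 1).choose 2 : ℕ) : ℝ) =
        (((Nb b).card.choose 2 : ℕ) : ℝ) / L ∧
      1 / 2 + √(2 * ((((Nb b).card.choose 2 : ℕ) : ℝ) / L)) ≤ (1 - p) * s + p * (s + 1) := by
    intro b hb
    apply hm
    · positivity
    · rw [div_le_iff₀ hLr]
      exact (hB b hb).2
  choose! s p hs1 hsm hp0 hp1 hbud hsqrt using hex
  have hA : Adm (⟨B, Nb, s, p, R + 1⟩ : Dat β α) m (K + m + 3) L :=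
    { s1 := hs1
      sm := hsm
      p0 := hp0
      p1 := hp1
      dK := fun b hb => (hB b hb).1
      mK := by omega
      R1 := Nat.le_add_left 1 R
      cardB := hBL
      L1 := hL1
      bud := hbud }
  have h3κ : 0 < 3 / κ := by positivity
  have hpos : 0 ≤ 2 * (m : ℝ) ^ 2 * (1 + ((R : ℝ) + 1)) / ε := by positivity
  have hκle : 1 / (L : ℝ) + (m : ℝ) / (((K + m + 3 : ℕ) : ℝ) - 2) + 1 / (((R + 1 : ℕ)) : ℝ) ≤
      κ := by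
    have h1 : 1 / (L : ℝ) ≤ κ / 3 := by
      have h : 3 / κ ≤ L := by linarith
      rw [div_le_iff₀ hκ] at h
      rw [div_le_iff₀ hLr]
      linarith
    have h2 : (m : ℝ) / (((K + m + 3 : ℕ) : ℝ) - 2) ≤ κ / 3 := by
      rw [div_le_iff₀ hκ] at hK
      push_cast
      have hK0 : (0 : ℝ) ≤ K := Nat.cast_nonneg K
      rw [div_le_iff₀ (by linarith)]
      nlinarith
    have h3 : 1 / (((R + 1 : ℕ)) : ℝ) ≤ κ / 3 := by
      rw [div_le_iff₀ hκ] at hR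
      push_cast
      have hR0 : (0 : ℝ) ≤ R := Nat.cast_nonneg R
      rw [div_le_iff₀ (by linarith)]
      nlinarith
    linarith
  obtain ⟨M, hM, hMd, hMc⟩ := H β α _ (K + m + 3) L hA hκle
  obtain ⟨S, hS1, hS2, hS3⟩ := hNX β α _ m (K + m + 3) L _ hA M hM hMd hMc
  refine ⟨S, hS1, hS2, ?_⟩
  have h6 : ∑ b ∈ B, (1 / 2 + √(2 * ((((Nb b).card.choose 2 : ℕ) : ℝ) / (L : ℝ)))) ≤
      ∑ b ∈ B, ((1 - p b) * (s b : ℝ) + p b * ((s b : ℝ) + 1)) :=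
    Finset.sum_le_sum fun b hb => hsqrt b hb
  have hBL' : (B.card : ℝ) ≤ L := by exact_mod_cast hBL
  have h7 : (m : ℝ) * (ε / (2 * m) * (B.card : ℝ) + m * (1 + ((R + 1 : ℕ) : ℝ))) ≤ ε * L := by
    have e1 : (m : ℝ) * (ε / (2 * m) * (B.card : ℝ) + m * (1 + ((R + 1 : ℕ) : ℝ))) =
        ε / 2 * B.card + (m : ℝ) ^ 2 * (1 + ((R : ℝ) + 1)) := by
      push_cast
      field_simp
    rw [e1]
    have h8 : 2 * (m : ℝ) ^ 2 * (1 + ((R : ℝ) + 1)) / ε ≤ L := by linarith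
    rw [div_le_iff₀ hε] at h8
    have h9 : ε / 2 * B.card ≤ ε / 2 * L := mul_le_mul_of_nonneg_left hBL' (by positivity)
    linarith
  have h8 : (∑ b ∈ B, ((1 - p b) * (s b : ℝ) + p b * ((s b : ℝ) + 1))) -
      (m : ℝ) * (ε / (2 * m) * (B.card : ℝ) + m * (1 + ((R + 1 : ℕ) : ℝ))) ≤
      ∑ b ∈ B, ((S b).card : ℝ) := hS3
  linarith

end R128.IT
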