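import Pool.Agent.R128.IT.Stm

/-!
Project IT, piece NBQ: the version of `NB` for sets of pairs.
-/

namespace R128.IT

noncomputable section
open Classical Finset

theorem NBQ.card_nb {β α : Type} (Q : Finset (β × α)) (b : β) :
    (nb Q b).card = (Q.filter (fun e => e.1 = b)).card := by
  unfold nb
  apply Finset.card_image_of_injOn
  intro x hx y hy hxy
  simp only [Finset.coe_filter, Set.mem_ofPred_eq] at hx hy
  exact Prod.ext (hx.2.trans hy.2.symm) hxy

theorem NBQ.sum_nb {β α : Type} (Q : Finset (β × α)) :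
    ∑ b ∈ Q.image Prod.fst, (nb Q b).card = Q.card := by
  rw [Finset.card_eq_sum_card_fiberwise (f := Prod.fst) (t := Q.image Prod.fst)
    (fun x hx => Finset.mem_coe.2 (Finset.mem_image_of_mem _ hx))]
  exact Finset.sum_congr rfl fun b _ => NBQ.card_nb Q b

theorem NBQ.one_le {β α : Type} {Q : Finset (β × α)} {b : β} (hb : b ∈ Q.image Prod.fst) :
    1 ≤ (nb Q b).card := by
  obtain ⟨e, he, rfl⟩ := Finset.mem_image.1 hb
  rw [Nat.one_le_iff_ne_zero, ← Nat.pos_iff_ne_zero, Finset.card_pos]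
  exact ⟨e.2, Finset.mem_image_of_mem _ (Finset.mem_filter.2 ⟨he, rfl⟩)⟩

theorem NBQ.sqrt_bound (d L : ℕ) (hd : 1 ≤ d) (hL : 1 ≤ L) :
    ((d : ℝ) - 1) / √(L : ℝ) ≤ √(2 * (((d.choose 2 : ℕ) : ℝ) / (L : ℝ))) := by
  have hL0 : (0 : ℝ) < L := by exact_mod_cast hL
  have hd0 : (1 : ℝ) ≤ d := by exact_mod_cast hd
  apply Real.le_sqrt_of_sq_le
  rw [div_pow, Real.sq_sqrt hL0.le, Nat.cast_choose_two]
  have e : 2 * ((d : ℝ) * ((d : ℝ) - 1) / 2 / L) = (d : ℝ) * ((d : ℝ) - 1) / L := by ring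
  rw [e]
  apply div_le_div_of_nonneg_right _ hL0.le
  nlinarith

theorem NBQ_proof : NBQ_stm := by
  intro hNB ε Z hε
  obtain ⟨K, L0, h⟩ := hNB ε Z hε
  refine ⟨K, L0, ?_⟩
  intro β α Q L hL0 hL1 hB hQ
  obtain ⟨S, hS1, hS2, hS3⟩ := h β α (Q.image Prod.fst) (nb Q) L hL0 hB (fun b hb => by
    obtain ⟨h1, h2⟩ := hQ b hb
    refine ⟨h1, ?_⟩
    have h3 : (nb Q b).card.choose 2 ≤ Z * L := (Nat.choose_le_pow _ _).trans h2
    exact_mod_cast h3)
  refine ⟨Q.filter (fun e => e.2 ∈ S e.1), Finset.filter_subset _ _, ?_, ?_⟩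
  · intro b b' x y h1 h2 h3 h4
    rw [Finset.mem_filter] at h1 h2 h3 h4
    by_cases hbb : b = b'
    · exact Or.inl hbb
    · right
      have hb : b ∈ Q.image Prod.fst := Finset.mem_image_of_mem Prod.fst h1.1
      have hb' : b' ∈ Q.image Prod.fst := Finset.mem_image_of_mem Prod.fst h3.1
      have h5 := hS2 b hb b' hb' hbb
      rw [Finset.card_le_one] at h5
      exact h5 x (Finset.mem_inter.2 ⟨h1.2, h3.2⟩) y (Finset.mem_inter.2 ⟨h2.2, h4.2⟩)
  · have hP : ∑ b ∈ Q.image Prod.fst, (S b).card ≤ (Q.filter (fun e => e.2 ∈ S e.1)).card := by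
      rw [Finset.card_eq_sum_card_fiberwise (f := Prod.fst) (t := Q.image Prod.fst)
        (s := Q.filter (fun e => e.2 ∈ S e.1))
        (fun x hx => Finset.mem_coe.2 (Finset.mem_image_of_mem _
          (Finset.mem_filter.1 (Finset.mem_coe.1 hx)).1))]
      refine Finset.sum_le_sum fun b hb => ?_
      rw [← Finset.card_image_of_injective (S b) (Prod.mk_right_injective b)]
      apply Finset.card_le_card
      intro e he
      obtain ⟨a, ha, rfl⟩ := Finset.mem_image.1 he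
      have h1 := hS1 b hb ha
      unfold nb at h1
      obtain ⟨e', he', rfl⟩ := Finset.mem_image.1 h1
      obtain ⟨h2, h3⟩ := Finset.mem_filter.1 he'
      subst h3
      rw [Finset.mem_filter, Finset.mem_filter]
      exact ⟨⟨h2, ha⟩, rfl⟩
    have hP' : ∑ b ∈ Q.image Prod.fst, ((S b).card : ℝ) ≤
        ((Q.filter (fun e => e.2 ∈ S e.1)).card : ℝ) := by exact_mod_cast hP
    have hsum : ((Q.image Prod.fst).card : ℝ) / 2 +
        ((Q.card : ℝ) - ((Q.image Prod.fst).card : ℝ)) / √(L : ℝ) ≤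
        ∑ b ∈ Q.image Prod.fst,
          (1 / 2 + √(2 * ((((nb Q b).card.choose 2 : ℕ) : ℝ) / (L : ℝ)))) := by
      have h1 : (Q.card : ℝ) = ∑ b ∈ Q.image Prod.fst, ((nb Q b).card : ℝ) := by
        rw [← NBQ.sum_nb Q]
        push_cast
        rfl
      have h2 : ((Q.image Prod.fst).card : ℝ) / 2 +
          ((Q.card : ℝ) - ((Q.image Prod.fst).card : ℝ)) / √(L : ℝ) =
          ∑ b ∈ Q.image Prod.fst, (1 / 2 + (((nb Q b).card : ℝ) - 1) / √(L : ℝ)) := by
        have h3 : ∑ b ∈ Q.image Prod.fst, (((nb Q b).card : ℝ) - 1) / √(L : ℝ) =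
            ((Q.card : ℝ) - ((Q.image Prod.fst).card : ℝ)) / √(L : ℝ) := by
          rw [← Finset.sum_div, Finset.sum_sub_distrib, ← h1]
          simp only [Finset.sum_const, nsmul_eq_mul, mul_one]
        rw [Finset.sum_add_distrib, h3]
        simp only [Finset.sum_const, nsmul_eq_mul]
        ring
      rw [h2]
      refine Finset.sum_le_sum fun b hb => ?_
      have := NBQ.sqrt_bound (nb Q b).card L (NBQ.one_le hb) hL1
      linarith
    linarith

end

end R128.IT
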