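import Pool.Agent.R128.IT.Stm

namespace R128.IT
open Classical Finset

theorem NM_proof : NM_stm := by
  unfold NM_stm
  intro hNib hWN hWS hAR hLd m θ hθ
  obtain ⟨κ, hκ, H⟩ := hNib (m ^ 2 + 2) θ hθ
  refine ⟨κ, hκ, fun β α D K L hA hle => ?_⟩
  have hK : (0 : ℝ) ≤ (K : ℝ) - 2 := by
    have h1 : 2 ≤ K := by have := hA.mK; omega
    have h2 : (2 : ℝ) ≤ (K : ℝ) := by exact_mod_cast h1
    linarith
  have hR : 1 / (D.R : ℝ) ≤ κ := by
    have h1 : 0 ≤ 1 / (L : ℝ) := by positivity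
    have h2 : 0 ≤ (m : ℝ) / ((K : ℝ) - 2) := div_nonneg (Nat.cast_nonneg m) hK
    linarith
  obtain ⟨M, hM1, hM2, hM3⟩ := H D.F (β ⊕ Finset α ⊕ (ℕ × ℕ)) (fun e => D.A e.1)
    (fun e => D.w e.1)
    (fun e => (hWN β α D m K L hA e.1 e.2).1)
    (fun e => (hAR β α D m K L hA e.1 e.2).1)
    (fun e => (hAR β α D m K L hA e.1 e.2).2)
    (fun v => by
      have h := (hLd β α D m K L hA).1 v
      refine le_trans (le_of_eq ?_) h
      rw [Finset.sum_filter, Finset.sum_filter]
      have h2 := Finset.sum_coe_sort D.F (fun e => if v ∈ D.A e then D.w e else 0)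
      convert h2)
    (fun u v huv => by
      have h := ((hLd β α D m K L hA).2 u v huv).trans hle
      refine le_trans (le_of_eq ?_) h
      rw [Finset.sum_filter, Finset.sum_filter]
      have h2 := Finset.sum_coe_sort D.F (fun e => if u ∈ D.A e ∧ v ∈ D.A e then D.w e else 0)
      convert h2)
    (fun e => ((hWN β α D m K L hA e.1 e.2).2).trans hR)
  refine ⟨M.map (Function.Embedding.subtype _), ?_, ?_, ?_⟩
  · intro e he
    obtain ⟨x, _, rfl⟩ := Finset.mem_map.1 he
    exact x.2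
  · intro e he f hf hne
    obtain ⟨x, hx, rfl⟩ := Finset.mem_map.1 he
    obtain ⟨y, hy, rfl⟩ := Finset.mem_map.1 hf
    exact hM1 x hx y hy (fun h => hne (by rw [h]))
  · rw [Finset.card_map]
    have h1 : ∑ e : D.F, D.w e.1 = (D.B.card : ℝ) := by
      rw [Finset.sum_coe_sort D.F D.w]
      exact hWS β α D m K L hA
    rw [← h1]
    exact hM3

end R128.IT
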