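import Pool.Agent.R128.IT.Stm

namespace R128.IT

open Classical Finset

theorem NX.mem_F {β α : Type} {D : Dat β α} {e : β × Finset α × ℕ} (he : e ∈ D.F) :
    e.1 ∈ D.B ∧ e.2.1 ⊆ D.Nb e.1 ∧ (e.2.1.card = D.s e.1 ∨ e.2.1.card = D.s e.1 + 1) ∧
      e.2.2 < D.Dm e.2.1.card := by
  unfold Dat.F at he
  simp only [mem_biUnion, mem_filter, mem_powerset, mem_image, mem_range] at he
  obtain ⟨b, hb, S, ⟨hS, hc⟩, i, hi, rfl⟩ := he
  exact ⟨hb, hS, hc, hi⟩

theorem NX.sumP {β α : Type} {D : Dat β α} {m K L : ℕ} (h : Adm D m K L) {b : β} (hb : b ∈ D.B)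
    (g : ℕ → ℝ) : ∑ j ∈ Icc 1 m, g j * D.P b j =
      (1 - D.p b) * g (D.s b) + D.p b * g (D.s b + 1) := by
  have h1 := h.s1 b hb
  have h2 := h.sm b hb
  have hsub : ({D.s b, D.s b + 1} : Finset ℕ) ⊆ Icc 1 m := by
    intro x hx
    simp only [mem_insert, mem_singleton] at hx
    rw [mem_Icc]
    omega
  rw [← Finset.sum_subset hsub]
  · rw [Finset.sum_pair (by omega)]
    unfold Dat.P
    simp
    ring
  · intro x _ hx
    simp only [mem_insert, mem_singleton, not_or] at hx
    unfold Dat.P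
    rw [if_neg hx.1, if_neg hx.2, mul_zero]

theorem NX.sumW {β α : Type} {D : Dat β α} {m K L : ℕ} (h : Adm D m K L) (g : ℕ → ℝ) :
    ∑ j ∈ Icc 1 m, g j * D.W j =
      ∑ b ∈ D.B, ((1 - D.p b) * g (D.s b) + D.p b * g (D.s b + 1)) := by
  unfold Dat.W
  simp_rw [Finset.mul_sum]
  rw [Finset.sum_comm]
  exact Finset.sum_congr rfl fun b hb => NX.sumP h hb g

theorem NX.W_nonneg {β α : Type} {D : Dat β α} {m K L : ℕ} (h : Adm D m K L) (j : ℕ) :
    0 ≤ D.W j := by
  unfold Dat.W
  apply Finset.sum_nonneg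
  intro b hb
  unfold Dat.P
  have h0 := h.p0 b hb
  have h1 := h.p1 b hb
  split_ifs
  · linarith
  · exact h0
  · exact le_refl _

theorem NX_proof : NX_stm := by
  unfold NX_stm NX
  intro β α D m K L θ h M hMF hdis hcard
  have hmem : ∀ e ∈ M, e.1 ∈ D.B ∧ e.2.1 ⊆ D.Nb e.1 ∧
      (e.2.1.card = D.s e.1 ∨ e.2.1.card = D.s e.1 + 1) ∧ e.2.2 < D.Dm e.2.1.card :=
    fun e he => NX.mem_F (hMF he)
  have hcl : ∀ e ∈ M, e.2.1.card ∈ Icc 1 m := by
    intro e he
    obtain ⟨hb, _, hc, _⟩ := hmem e he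
    have h1 := h.s1 _ hb
    have h2 := h.sm _ hb
    rw [mem_Icc]
    omega
  have hinj : ∀ e ∈ M, ∀ f ∈ M, e.1 = f.1 → e = f := by
    intro e he f hf hef
    by_contra hne
    have hd := hdis e he f hf hne
    rw [Finset.disjoint_left] at hd
    refine hd (a := Sum.inl e.1) ?_ ?_
    · unfold Dat.A
      simp
    · unfold Dat.A
      simp [hef]
  set S : β → Finset α := fun b => if hb : ∃ e ∈ M, e.1 = b then hb.choose.2.1 else ∅ with hS
  have hSe : ∀ e ∈ M, S e.1 = e.2.1 := by
    intro e he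
    have hex : ∃ f ∈ M, f.1 = e.1 := ⟨e, he, rfl⟩
    rw [hS]
    simp only [hex, dif_pos]
    have := hinj _ hex.choose_spec.1 e he hex.choose_spec.2
    rw [this]
  have hSn : ∀ b, b ∉ M.image Prod.fst → S b = ∅ := by
    intro b hb
    have hnex : ¬ ∃ e ∈ M, e.1 = b := by
      rintro ⟨e, he, rfl⟩
      exact hb (mem_image_of_mem _ he)
    rw [hS]
    simp only [hnex, dif_neg, not_false_eq_true]
  refine ⟨S, ?_, ?_, ?_⟩
  · intro b _
    by_cases hbM : b ∈ M.image Prod.fst
    · obtain ⟨e, he, rfl⟩ := mem_image.mp hbM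
      rw [hSe e he]
      exact (hmem e he).2.1
    · rw [hSn b hbM]
      exact empty_subset _
  · intro b _ b' _ hbb
    by_contra hcon
    push Not at hcon
    obtain ⟨T, hT, hTc⟩ := Finset.exists_subset_card_eq (Nat.succ_le_of_lt hcon)
    have hTne : T.Nonempty := by
      rw [← Finset.card_pos, hTc]
      norm_num
    have key : ∀ c, T ⊆ S c → ∃ e ∈ M, e.1 = c ∧ T ⊆ e.2.1 := by
      intro c hc
      by_cases hcM : c ∈ M.image Prod.fst
      · obtain ⟨e, he, rfl⟩ := mem_image.mp hcM
        exact ⟨e, he, rfl, by rwa [hSe e he] at hc⟩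
      · rw [hSn c hcM, Finset.subset_empty] at hc
        exact absurd hc hTne.ne_empty
    obtain ⟨e, he, heb, hTe⟩ := key b (hT.trans inter_subset_left)
    obtain ⟨f, hf, hfb, hTf⟩ := key b' (hT.trans inter_subset_right)
    have hne : e ≠ f := by
      rintro rfl
      exact hbb (heb.symm.trans hfb)
    have hd := hdis e he f hf hne
    rw [Finset.disjoint_left] at hd
    have hin : ∀ g : β × Finset α × ℕ, T ⊆ g.2.1 → Sum.inr (Sum.inl T) ∈ D.A g := by
      intro g hg
      unfold Dat.A
      simp only [mem_union, mem_image, mem_powersetCard]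
      left
      right
      exact ⟨T, ⟨hg, hTc⟩, rfl⟩
    exact hd (hin e hTe) (hin f hTf)
  · -- the sum
    have hsum1 : ∑ b ∈ D.B, ((S b).card : ℝ) = ∑ e ∈ M, (e.2.1.card : ℝ) := by
      have hsub : M.image Prod.fst ⊆ D.B := by
        intro b hb
        obtain ⟨e, he, rfl⟩ := mem_image.mp hb
        exact (hmem e he).1
      rw [← Finset.sum_subset hsub]
      · rw [Finset.sum_image]
        · exact Finset.sum_congr rfl fun e he => by rw [hSe e he]
        · intro e he f hf hef
          exact hinj e he f hf hef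
      · intro b _ hb
        rw [hSn b hb]
        simp
    have hfib : ∀ g : ℕ → ℝ, ∑ e ∈ M, g e.2.1.card =
        ∑ j ∈ Icc 1 m, g j * ((M.filter (fun e => e.2.1.card = j)).card : ℝ) := by
      intro g
      rw [← Finset.sum_fiberwise_of_maps_to hcl]
      apply Finset.sum_congr rfl
      intro j _
      rw [Finset.sum_congr rfl (g := fun _ => g j)]
      · rw [Finset.sum_const, nsmul_eq_mul, mul_comm]
      · intro e he
        rw [(mem_filter.mp he).2]
    have hMj : ∀ j, ((M.filter (fun e => e.2.1.card = j)).card : ℝ) ≤ D.W j + 1 + D.R := by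
      intro j
      have h1 : (M.filter (fun e => e.2.1.card = j)).card ≤ (range (D.Dm j)).card := by
        apply Finset.card_le_card_of_injOn (fun e => e.2.2)
        · intro e he
          have he' := mem_filter.mp he
          have := (hmem e he'.1).2.2.2
          rw [he'.2] at this
          exact mem_coe.mpr (mem_range.mpr this)
        · intro e he f hf hef
          have he' := mem_filter.mp he
          have hf' := mem_filter.mp hf
          by_contra hne
          have hd := hdis e he'.1 f hf'.1 hne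
          rw [Finset.disjoint_left] at hd
          simp only at hef
          refine hd (a := Sum.inr (Sum.inr (j, e.2.2))) ?_ ?_
          · unfold Dat.A
            rw [he'.2]
            simp
          · unfold Dat.A
            rw [hf'.2, hef]
            simp
      rw [card_range] at h1
      have h2 : (D.Dm j : ℝ) ≤ D.W j + 1 + D.R := by
        unfold Dat.Dm
        push_cast
        have := (Nat.ceil_lt_add_one (NX.W_nonneg h j)).le
        linarith
      exact le_trans (by exact_mod_cast h1) h2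
    rw [hsum1]
    have hA := hfib (fun j => (j : ℝ))
    have hB := hfib (fun _ => (1 : ℝ))
    simp only [one_mul, sum_const, nsmul_eq_mul, mul_one] at hB
    have hWj := NX.sumW h (fun j => (j : ℝ))
    have hW1 := NX.sumW h (fun _ => (1 : ℝ))
    simp only [one_mul, mul_one, sub_add_cancel, sum_const, nsmul_eq_mul] at hW1
    push_cast at hWj
    rw [← hWj]
    rw [hA]
    -- now pure sums over j
    have hcardI : ((Icc 1 m).card : ℝ) = m := by
      rw [Nat.card_Icc]
      norm_num
    have hsumx : ∑ j ∈ Icc 1 m, (D.W j + 1 + D.R -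
        ((M.filter (fun e => e.2.1.card = j)).card : ℝ)) =
        (D.B.card : ℝ) + m * (1 + (D.R : ℝ)) - (M.card : ℝ) := by
      rw [Finset.sum_sub_distrib, ← hB]
      have : ∑ j ∈ Icc 1 m, (D.W j + 1 + (D.R : ℝ)) =
          ∑ j ∈ Icc 1 m, D.W j + ∑ j ∈ Icc 1 m, (1 + (D.R : ℝ)) := by
        rw [← Finset.sum_add_distrib]
        exact Finset.sum_congr rfl fun j _ => by ring
      rw [this, hW1, Finset.sum_const, nsmul_eq_mul, hcardI]
    have hle : ∑ j ∈ Icc 1 m, (j : ℝ) * (D.W j + 1 + D.R -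
        ((M.filter (fun e => e.2.1.card = j)).card : ℝ)) ≤
        ∑ j ∈ Icc 1 m, (m : ℝ) * (D.W j + 1 + D.R -
        ((M.filter (fun e => e.2.1.card = j)).card : ℝ)) := by
      apply Finset.sum_le_sum
      intro j hj
      apply mul_le_mul_of_nonneg_right
      · exact_mod_cast (mem_Icc.mp hj).2
      · linarith [hMj j]
    rw [← Finset.mul_sum, hsumx] at hle
    have hexp : ∑ j ∈ Icc 1 m, (j : ℝ) * (D.W j + 1 + D.R -
        ((M.filter (fun e => e.2.1.card = j)).card : ℝ)) =
        ∑ j ∈ Icc 1 m, (j : ℝ) * D.W j + ∑ j ∈ Icc 1 m, (j : ℝ) * (1 + (D.R : ℝ)) -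
        ∑ j ∈ Icc 1 m, (j : ℝ) * ((M.filter (fun e => e.2.1.card = j)).card : ℝ) := by
      rw [← Finset.sum_add_distrib, ← Finset.sum_sub_distrib]
      exact Finset.sum_congr rfl fun j _ => by ring
    rw [hexp] at hle
    have hnn : 0 ≤ ∑ j ∈ Icc 1 m, (j : ℝ) * (1 + (D.R : ℝ)) := by
      apply Finset.sum_nonneg
      intro j _
      positivity
    have hm0 : (0 : ℝ) ≤ m := Nat.cast_nonneg m
    have hfin : (m : ℝ) * ((D.B.card : ℝ) + m * (1 + (D.R : ℝ)) - (M.card : ℝ)) ≤
        m * (θ * (D.B.card : ℝ) + m * (1 + (D.R : ℝ))) := by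
      apply mul_le_mul_of_nonneg_left _ hm0
      linarith
    linarith

end R128.IT
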