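import Pool.Agent.R128.IT.Stm
import Pool.Agent.H115R4.ND2
import Pool.Agent.H89R2.AG.NA
import Pool.Agent.H89R2.AG.NB
import Pool.Agent.H459R2.AG.NC
import Pool.Agent.H895R2.AG.NE
import Pool.Agent.H18R2.AG.NF
import Pool.Agent.H204R2.AG.NG

/-!
The nibble theorem (formalised by the team project H115R4, helpers 89, 459, 895, 18, 204, 303, 115),
assembled here without the unrelated parts of that project.
-/

namespace R128.IT

open H115R4

theorem nibble_T' : H115R4.nibble := by
  have sp_lower_T : sp_lower := sp_lower_proof
  have Ex_sp_T : Ex_sp := Ex_sp_of Ex_surv_proof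
  have second_moment_T : second_moment := second_moment_of' cv_bd_proof sp_lower_proof Ex_sp_T
  have Ex_wn_T : Ex_wn := Ex_wn_of second_moment_T sp_lower_proof Ex_sp_T Ex_mono_proof cv_bd_proof
  have Ex_iso_T : Ex_iso := Ex_iso_of Ex_pick_proof
  have one_round_T : one_round := one_round_of Ex_iso_T Ex_wn_T wn_good_proof Ex_exists_proof cv_bd_proof
  exact nibble_of (nibS_all_of one_round_T)

theorem Nibble_proof : Nibble := nibble_T'

end R128.IT
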