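import Pool.Agent.R128.IT.Stm

/-! IT-Prune: double counting (helper45). -/

namespace R128.IT

noncomputable section
open Classical Finset

theorem Prune.nb_card {β α : Type} (Q : Finset (β × α)) (b : β) :
    (nb Q b).card = (Q.filter (fun e => e.1 = b)).card := by
  unfold nb
  refine Finset.card_image_of_injOn ?_
  rintro ⟨x, y⟩ hx ⟨x', y'⟩ hx' h
  have h1 := (Finset.mem_filter.mp (Finset.mem_coe.mp hx)).2
  have h2 := (Finset.mem_filter.mp (Finset.mem_coe.mp hx')).2
  simp only at h1 h2 h
  rw [h1, h2, h]

theorem Prune_proof : Prune_stm := by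
  intro β α Q K D _
  refine ⟨?_, ?_, ?_⟩
  · have h := Finset.card_le_mul_card_image_of_maps_to
      (f := Prod.fst) (s := Q.filter (fun e => (nb Q e.1).card < K)) (t := Q.image Prod.fst)
      (fun e he => Finset.mem_image_of_mem _ (Finset.mem_filter.mp he).1) K (by
        intro b _
        by_cases hb : (nb Q b).card < K
        · refine le_trans (Finset.card_le_card ?_) (le_of_lt ((Prune.nb_card Q b) ▸ hb))
          intro e he
          rw [Finset.mem_filter, Finset.mem_filter] at he
          exact Finset.mem_filter.mpr ⟨he.1.1, he.2⟩
        · have : ((Q.filter (fun e => (nb Q e.1).card < K)).filter (fun e => e.1 = b)) = ∅ := by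
            refine Finset.filter_eq_empty_iff.mpr ?_
            intro e he heb
            have := (Finset.mem_filter.mp he).2
            rw [heb] at this
            exact hb this
          rw [this]
          simp)
    exact_mod_cast h
  · set I := (Q.filter (fun e => D < ((nb Q e.1).card : ℝ))).image Prod.fst with hI
    have h1 : ((I.card : ℝ)) * D ≤ ∑ b ∈ I, ((Q.filter (fun e => e.1 = b)).card : ℝ) := by
      rw [← nsmul_eq_mul]
      refine Finset.card_nsmul_le_sum _ _ _ ?_
      intro b hb
      rw [hI, Finset.mem_image] at hb
      obtain ⟨e, he, rfl⟩ := hb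
      have := (Finset.mem_filter.mp he).2
      rw [Prune.nb_card] at this
      exact this.le
    have h2 : ∑ b ∈ I, (Q.filter (fun e => e.1 = b)).card ≤ Q.card := by
      have h := Finset.sum_card_fiberwise_eq_card_filter Q I Prod.fst
      refine le_trans (le_of_eq ?_) (Finset.card_filter_le Q (fun e => e.1 ∈ I))
      convert h
    have h3 : (∑ b ∈ I, ((Q.filter (fun e => e.1 = b)).card : ℝ)) ≤ (Q.card : ℝ) := by
      exact_mod_cast h2
    exact h1.trans h3
  · intro p b hp
    unfold nb
    rw [Finset.filter_filter]
    congr 1
    refine Finset.filter_congr ?_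
    intro e _
    constructor
    · exact fun h => h.2
    · intro h
      exact ⟨by rw [h]; exact hp, h⟩

end

end R128.IT
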