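import Pool.Agent.R128.IT.Stm

/-!
Threshold split of the edges of a graph (project IT).
-/

namespace R128.IT

open Classical Finset

theorem Split.deg_eq {n : ℕ} (G : SimpleGraph (Fin n)) (v : Fin n) :
    (G.neighborSet v).ncard = G.degree v := by
  rw [Set.ncard_eq_toFinset_card', ← SimpleGraph.card_neighborFinset_eq_degree]
  rfl

theorem Split.ne_eq {n : ℕ} (G : SimpleGraph (Fin n)) : ne G = G.edgeFinset.card := by
  unfold ne
  rw [Set.ncard_eq_toFinset_card']
  rfl

/-- the graph restricted to a set of vertices -/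
def Split.res {n : ℕ} (G : SimpleGraph (Fin n)) (A : Finset (Fin n)) : SimpleGraph (Fin n) where
  Adj a b := G.Adj a b ∧ a ∈ A ∧ b ∈ A
  symm := ⟨fun a b h => ⟨h.1.symm, h.2.2, h.2.1⟩⟩
  loopless := ⟨fun a h => G.loopless.irrefl a h.1⟩

theorem Split_proof : Split_stm := by
  intro n G T hT
  let A : Finset (Fin n) := univ.filter (fun v => T < ((G.neighborSet v).ncard : ℝ))
  let B : Finset (Fin n) := univ.filter (fun v => ¬ T < ((G.neighborSet v).ncard : ℝ))
  have hAB : Disjoint A B := Finset.disjoint_filter_filter_not _ _ _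
  have hmA : ∀ v, v ∈ A ↔ T < ((G.neighborSet v).ncard : ℝ) := fun v => by simp [A]
  have hmB : ∀ v, v ∈ B ↔ ¬ T < ((G.neighborSet v).ncard : ℝ) := fun v => by simp [B]
  refine ⟨A, B, hAB, ?_, Split.res G A, Split.res G B,
    (B ×ˢ A).filter (fun e => G.Adj e.1 e.2), fun a b h => h.1, fun a b h => h.1,
    fun a b h => h.2, ?_, ?_, ?_, ?_⟩
  · have h1 : (A.card : ℝ) * T ≤ ∑ v ∈ A, (G.degree v : ℝ) := by
      rw [← nsmul_eq_mul, ← Finset.sum_const]
      apply Finset.sum_le_sum
      intro v hv
      have := (hmA v).1 hv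
      rw [Split.deg_eq] at this
      exact this.le
    have h2 : ∑ v ∈ A, (G.degree v : ℝ) ≤ ∑ v, (G.degree v : ℝ) :=
      Finset.sum_le_sum_of_subset_of_nonneg (Finset.subset_univ _) (fun _ _ _ => Nat.cast_nonneg _)
    have h3 : ∑ v, (G.degree v : ℝ) = 2 * (ne G : ℝ) := by
      have := G.sum_degrees_eq_twice_card_edges
      rw [Split.ne_eq]
      exact_mod_cast this
    linarith
  · intro v
    by_cases hv : v ∈ B
    · have h1 : ((Split.res G B).neighborSet v).ncard ≤ (G.neighborSet v).ncard := by
        apply Set.ncard_le_ncard _ (Set.toFinite _)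
        intro w hw
        exact hw.1
      have h2 := (hmB v).1 hv
      push Not at h2
      exact le_trans (by exact_mod_cast h1) h2
    · have : (Split.res G B).neighborSet v = ∅ := by
        ext w
        simp only [SimpleGraph.mem_neighborSet, Set.mem_empty_iff_false, iff_false]
        intro h
        exact hv h.2.1
      rw [this]
      simp [hT.le]
  · intro e he
    rw [mem_filter, mem_product] at he
    exact ⟨he.1.1, he.1.2, he.2⟩
  · have hsub : G.edgeFinset ⊆ (Split.res G A).edgeFinset ∪ (Split.res G B).edgeFinset ∪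
        ((B ×ˢ A).filter (fun e => G.Adj e.1 e.2)).image (fun e => s(e.1, e.2)) := by
      intro e
      induction e using Sym2.ind with
      | _ x y =>
        intro h
        rw [SimpleGraph.mem_edgeFinset, SimpleGraph.mem_edgeSet] at h
        simp only [mem_union, SimpleGraph.mem_edgeFinset, SimpleGraph.mem_edgeSet, mem_image,
          mem_filter, mem_product]
        by_cases hx : x ∈ A
        · by_cases hy : y ∈ A
          · exact Or.inl (Or.inl ⟨h, hx, hy⟩)
          · right
            refine ⟨(y, x), ⟨⟨(hmB y).2 (fun h' => hy ((hmA y).2 h')), hx⟩, h.symm⟩, ?_⟩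
            exact Sym2.eq_swap
        · by_cases hy : y ∈ A
          · right
            exact ⟨(x, y), ⟨⟨(hmB x).2 (fun h' => hx ((hmA x).2 h')), hy⟩, h⟩, rfl⟩
          · exact Or.inl (Or.inr ⟨h, (hmB x).2 (fun h' => hx ((hmA x).2 h')),
              (hmB y).2 (fun h' => hy ((hmA y).2 h'))⟩)
    rw [Split.ne_eq, Split.ne_eq, Split.ne_eq]
    refine (Finset.card_le_card hsub).trans ?_
    refine (Finset.card_union_le _ _).trans ?_
    exact Nat.add_le_add (Finset.card_union_le _ _) Finset.card_image_le
  · rw [Split.ne_eq]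
    have hinj : Set.InjOn (fun e : Fin n × Fin n => s(e.1, e.2))
        (((B ×ˢ A).filter (fun e => G.Adj e.1 e.2) : Finset (Fin n × Fin n)) :
          Set (Fin n × Fin n)) := by
      rintro ⟨a, b⟩ h1 ⟨c, d⟩ h2 h
      simp only [coe_filter, mem_product, Set.mem_setOf_eq] at h1 h2
      simp only [Sym2.eq, Sym2.rel_iff', Prod.mk.injEq, Prod.swap_prod_mk] at h
      rcases h with ⟨h3, h4⟩ | ⟨h3, h4⟩
      · rw [h3, h4]
      · exfalso
        have : a ∈ A := h3 ▸ h2.1.2
        exact Finset.disjoint_left.1 hAB this h1.1.1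
    rw [← Finset.card_image_of_injOn hinj]
    apply Finset.card_le_card
    intro e he
    rw [mem_image] at he
    obtain ⟨p, hp, rfl⟩ := he
    rw [mem_filter] at hp
    rw [SimpleGraph.mem_edgeFinset, SimpleGraph.mem_edgeSet]
    exact hp.2

end R128.IT
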