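import Pool.Agent.R128.IT.Stm

/-!
Project IT, piece Spn: random colouring and deletion.
-/

namespace R128.IT
open Classical Finset

/-- number of colourings which are `0` on `S` -/
theorem Spn.cnt (ι : Type) [Fintype ι] (k : ℕ) (hk : 0 < k) (S : Finset ι) :
    ((univ : Finset (ι → Fin k)).filter (fun χ => ∀ e ∈ S, χ e = ⟨0, hk⟩)).card * k ^ S.card =
      k ^ Fintype.card ι := by
  have h : (univ : Finset (ι → Fin k)).filter (fun χ => ∀ e ∈ S, χ e = ⟨0, hk⟩) =
      Fintype.piFinset (fun e => if e ∈ S then {(⟨0, hk⟩ : Fin k)} else univ) := by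
    ext χ
    simp only [mem_filter, mem_univ, true_and, Fintype.mem_piFinset]
    constructor
    · intro h e
      by_cases he : e ∈ S
      · simp [he, h e he]
      · simp [he]
    · intro h e he
      have := h e
      simpa [he] using this
  rw [h, Fintype.card_piFinset]
  have h2 : ∀ e, (if e ∈ S then {(⟨0, hk⟩ : Fin k)} else univ : Finset (Fin k)).card =
      if e ∈ S then 1 else k := by
    intro e
    split_ifs <;> simp
  simp_rw [h2]
  rw [Finset.prod_ite]
  simp only [prod_const_one, prod_const, one_mul]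
  rw [← pow_add]
  congr 1
  have h3 : (univ.filter (fun e => e ∉ S)) = Sᶜ := by
    ext e
    simp
  rw [h3, Finset.card_compl]
  have := Finset.card_le_univ S
  omega

/-- averaging over the colourings -/
theorem Spn.avg (ι φ : Type) [Fintype ι] (E : Finset ι) (F : Finset φ) (S : φ → Finset ι)
    (hS : ∀ f ∈ F, (S f).card = 4) (k : ℕ) (hk : 0 < k) (hF : 2 * F.card ≤ E.card * k ^ 3) :
    ∃ χ : ι → Fin k, E.card + 2 * k * (F.filter (fun f => ∀ e ∈ S f, χ e = ⟨0, hk⟩)).card ≤
      2 * k * (E.filter (fun e => χ e = ⟨0, hk⟩)).card := by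
  by_contra hcon
  push Not at hcon
  have : Nonempty (ι → Fin k) := ⟨fun _ => ⟨0, hk⟩⟩
  have hs := Finset.sum_lt_sum_of_nonempty (s := (univ : Finset (ι → Fin k)))
    univ_nonempty (fun χ _ => hcon χ)
  rw [sum_add_distrib, ← mul_sum, ← mul_sum, sum_const, smul_eq_mul] at hs
  have hx : (∑ χ : ι → Fin k, (E.filter (fun e => χ e = ⟨0, hk⟩)).card) * k =
      E.card * k ^ Fintype.card ι := by
    have : ∑ χ : ι → Fin k, (E.filter (fun e => χ e = ⟨0, hk⟩)).card =
        ∑ e ∈ E, ((univ : Finset (ι → Fin k)).filter (fun χ => χ e = ⟨0, hk⟩)).card := by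
      simp_rw [card_filter]
      exact sum_comm
    rw [this, sum_mul]
    have h : ∀ e ∈ E, ((univ : Finset (ι → Fin k)).filter
          (fun χ => χ e = ⟨0, hk⟩)).card * k = k ^ Fintype.card ι := by
      intro e _
      have := Spn.cnt ι k hk {e}
      simpa using this
    rw [sum_congr rfl h, sum_const, smul_eq_mul]
  have hy : (∑ χ : ι → Fin k, (F.filter (fun f => ∀ e ∈ S f, χ e = ⟨0, hk⟩)).card) * k ^ 4 =
      F.card * k ^ Fintype.card ι := by
    have : ∑ χ : ι → Fin k, (F.filter (fun f => ∀ e ∈ S f, χ e = ⟨0, hk⟩)).card =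
        ∑ f ∈ F, ((univ : Finset (ι → Fin k)).filter
          (fun χ => ∀ e ∈ S f, χ e = ⟨0, hk⟩)).card := by
      simp_rw [card_filter]
      exact sum_comm
    rw [this, sum_mul]
    have h : ∀ f ∈ F, ((univ : Finset (ι → Fin k)).filter
          (fun χ => ∀ e ∈ S f, χ e = ⟨0, hk⟩)).card * k ^ 4 = k ^ Fintype.card ι := by
      intro f hf
      have := Spn.cnt ι k hk (S f)
      rwa [hS f hf] at this
    rw [sum_congr rfl h, sum_const, smul_eq_mul]
  have hcard : (univ : Finset (ι → Fin k)).card = k ^ Fintype.card ι := by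
    rw [card_univ, Fintype.card_fun, Fintype.card_fin]
  rw [hcard] at hs
  generalize (∑ χ : ι → Fin k, (E.filter (fun e => χ e = ⟨0, hk⟩)).card) = X at hs hx
  generalize (∑ χ : ι → Fin k, (F.filter (fun f => ∀ e ∈ S f, χ e = ⟨0, hk⟩)).card) = Y at hs hy
  generalize k ^ Fintype.card ι = M at hs hx hy
  generalize E.card = n at hs hx hF
  generalize F.card = f at hy hF
  have h1 : 2 * k * X = 2 * (n * M) := by rw [← hx]; ring
  have h2 : n * M < 2 * k * Y := by
    have h := hs
    rw [h1, mul_comm M n] at h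
    omega
  have h3 : n * M * k ^ 3 < 2 * k * Y * k ^ 3 := Nat.mul_lt_mul_of_pos_right h2 (by positivity)
  have h4 : 2 * k * Y * k ^ 3 = 2 * (f * M) := by rw [← hy]; ring
  rw [h4] at h3
  have h5 : 2 * (f * M) = 2 * f * M := by ring
  have h6 : 2 * f * M ≤ n * k ^ 3 * M := Nat.mul_le_mul_right _ hF
  have h7 : n * k ^ 3 * M = n * M * k ^ 3 := by ring
  omega

/-- the four edges of a 4-cycle are distinct -/
theorem Spn.four {V : Type} (G : SimpleGraph V) (a b c d : V) (hac : a ≠ c) (hbd : b ≠ d)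
    (h1 : G.Adj a b) (h2 : G.Adj b c) (h3 : G.Adj c d) (h4 : G.Adj d a) :
    ({s(a, b), s(b, c), s(c, d), s(d, a)} : Finset (Sym2 V)).card = 4 := by
  have n1 := h1.ne
  have n2 := h2.ne
  have n3 := h3.ne
  have n4 := h4.ne
  rw [card_insert_of_notMem, card_insert_of_notMem, card_insert_of_notMem, card_singleton]
  · simp only [mem_singleton, Sym2.eq_iff]
    rintro (⟨h, h'⟩ | ⟨h, h'⟩)
    · exact n3 h
    · exact hac h.symm
  · simp only [mem_insert, mem_singleton, Sym2.eq_iff]
    rintro ((⟨h, h'⟩ | ⟨h, h'⟩) | (⟨h, h'⟩ | ⟨h, h'⟩))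
    · exact n2 h
    · exact hbd h
    · exact hbd h
    · exact n1 h.symm
  · simp only [mem_insert, mem_singleton, Sym2.eq_iff]
    rintro ((⟨h, h'⟩ | ⟨h, h'⟩) | (⟨h, h'⟩ | ⟨h, h'⟩) | (⟨h, h'⟩ | ⟨h, h'⟩))
    · exact n1 h
    · exact hac h
    · exact hac h
    · exact n4 h.symm
    · exact n4 h.symm
    · exact hbd h'

/-- the oriented 4-cycles -/
noncomputable def Spn.F {V : Type} [Fintype V] (G : SimpleGraph V) : Finset (V × V × V × V) :=
  univ.filter (fun f => f.1 ≠ f.2.2.1 ∧ f.2.1 ≠ f.2.2.2 ∧ G.Adj f.1 f.2.1 ∧ G.Adj f.2.1 f.2.2.1 ∧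
    G.Adj f.2.2.1 f.2.2.2 ∧ G.Adj f.2.2.2 f.1)

/-- the edges of an oriented 4-cycle -/
noncomputable def Spn.S {V : Type} (f : V × V × V × V) : Finset (Sym2 V) :=
  {s(f.1, f.2.1), s(f.2.1, f.2.2.1), s(f.2.2.1, f.2.2.2), s(f.2.2.2, f.1)}

theorem Spn.cardS {V : Type} [Fintype V] (G : SimpleGraph V) (f : V × V × V × V)
    (hf : f ∈ Spn.F G) : (Spn.S f).card = 4 := by
  unfold Spn.F at hf
  simp only [mem_filter, mem_univ, true_and] at hf
  obtain ⟨h1, h2, h3, h4, h5, h6⟩ := hf
  exact Spn.four G _ _ _ _ h1 h2 h3 h4 h5 h6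

theorem Spn.ne_eq {V : Type} [Fintype V] (G : SimpleGraph V) : ne G = G.edgeFinset.card := by
  unfold ne
  rw [← SimpleGraph.coe_edgeFinset, Set.ncard_coe_finset]

theorem Spn.cardF {V : Type} [Fintype V] (G : SimpleGraph V) (T : ℕ)
    (hT : ∀ v, (G.neighborSet v).ncard ≤ T) : (Spn.F G).card ≤ 2 * G.edgeFinset.card * T ^ 2 := by
  have hd : ∀ v, G.degree v ≤ T := by
    intro v
    have := hT v
    rwa [← SimpleGraph.coe_neighborFinset, Set.ncard_coe_finset] at this
  have hsub : Spn.F G ⊆ (univ : Finset V).biUnion (fun a => (G.neighborFinset a).biUnion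
      (fun b => (G.neighborFinset b).biUnion (fun c => (G.neighborFinset a).image
        (fun d => (a, b, c, d))))) := by
    rintro ⟨a, b, c, d⟩ hf
    unfold Spn.F at hf
    simp only [mem_filter, mem_univ, true_and] at hf
    obtain ⟨h1, h2, h3, h4, h5, h6⟩ := hf
    simp only [mem_biUnion, mem_univ, true_and, mem_image, SimpleGraph.mem_neighborFinset]
    exact ⟨a, b, h3, c, h4, d, h6.symm, rfl⟩
  refine (card_le_card hsub).trans ?_
  have h1 : ∀ a b : V, ((G.neighborFinset b).biUnion (fun c => (G.neighborFinset a).image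
        (fun d => (a, b, c, d)))).card ≤ T * T := by
    intro a b
    refine (card_biUnion_le).trans ?_
    have : ∀ c ∈ G.neighborFinset b, ((G.neighborFinset a).image (fun d => (a, b, c, d))).card ≤
        T := fun c _ => card_image_le.trans
          (by rw [SimpleGraph.card_neighborFinset_eq_degree]; exact hd a)
    refine (sum_le_sum this).trans ?_
    rw [sum_const, smul_eq_mul, SimpleGraph.card_neighborFinset_eq_degree]
    exact Nat.mul_le_mul_right _ (hd b)
  refine (card_biUnion_le).trans ?_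
  have h2 : ∀ a : V, ((G.neighborFinset a).biUnion
      (fun b => (G.neighborFinset b).biUnion (fun c => (G.neighborFinset a).image
        (fun d => (a, b, c, d))))).card ≤ G.degree a * (T * T) := by
    intro a
    refine (card_biUnion_le).trans ?_
    refine (sum_le_sum (fun b _ => h1 a b)).trans ?_
    rw [sum_const, smul_eq_mul, SimpleGraph.card_neighborFinset_eq_degree]
  refine (sum_le_sum (fun a _ => h2 a)).trans ?_
  rw [← sum_mul, SimpleGraph.sum_degrees_eq_twice_card_edges]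
  apply le_of_eq
  ring

/-- the form used: no colours -/
theorem Spn.avg2 (ι φ : Type) [Fintype ι] (E : Finset ι) (F : Finset φ) (S : φ → Finset ι)
    (hS : ∀ f ∈ F, (S f).card = 4) (k : ℕ) (hk : 0 < k) (hF : 2 * F.card ≤ E.card * k ^ 3) :
    ∃ (E0 : Finset ι) (F0 : Finset φ), E0 ⊆ E ∧ (∀ f ∈ F, S f ⊆ E0 → f ∈ F0) ∧
      E.card + 2 * k * F0.card ≤ 2 * k * E0.card := by
  obtain ⟨χ, hχ⟩ := Spn.avg ι φ E F S hS k hk hF
  refine ⟨_, _, filter_subset _ _, ?_, hχ⟩
  intro f hf hsub
  rw [mem_filter]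
  refine ⟨hf, fun e he => ?_⟩
  have := hsub he
  rw [mem_filter] at this
  exact this.2

theorem Spn_proof : Spn_stm := by
  intro V _ G T k hT hk hTk
  have hFE : 2 * (Spn.F G).card ≤ G.edgeFinset.card * k ^ 3 := by
    have h1 := Spn.cardF G T hT
    have h2 : G.edgeFinset.card * (4 * T ^ 2) ≤ G.edgeFinset.card * k ^ 3 :=
      Nat.mul_le_mul_left _ hTk
    have h3 : G.edgeFinset.card * (4 * T ^ 2) = 2 * (2 * G.edgeFinset.card * T ^ 2) := by ring
    omega
  obtain ⟨E0, F0, hE0, hF0, hχ⟩ := Spn.avg2 (Sym2 V) (V × V × V × V) G.edgeFinset (Spn.F G) Spn.S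
    (fun f hf => Spn.cardS G f hf) k hk hFE
  rw [← Spn.ne_eq] at hχ
  obtain ⟨R0, hR0, hR⟩ : ∃ R0 : Finset (Sym2 V), (∀ f ∈ F0, s(f.1, f.2.1) ∈ R0) ∧
      R0.card ≤ F0.card :=
    ⟨F0.image (fun f => s(f.1, f.2.1)), fun f hf => mem_image_of_mem _ hf, card_image_le⟩
  obtain ⟨D, hD, hDc⟩ : ∃ D : Finset (Sym2 V), (∀ e, e ∈ D ↔ e ∈ E0 ∧ e ∉ R0) ∧
      E0.card ≤ D.card + R0.card := by
    refine ⟨E0 \ R0, fun e => mem_sdiff, ?_⟩
    have := Finset.le_card_sdiff R0 E0
    omega
  have hsubG : ∀ e ∈ D, e ∈ G.edgeSet := by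
    intro e he
    exact SimpleGraph.mem_edgeFinset.1 (hE0 ((hD e).1 he).1)
  have hadj : ∀ u v, (SimpleGraph.fromEdgeSet (↑D : Set (Sym2 V))).Adj u v → s(u, v) ∈ D := by
    intro u v huv
    rw [SimpleGraph.fromEdgeSet_adj] at huv
    exact huv.1
  have hle : SimpleGraph.fromEdgeSet (↑D : Set (Sym2 V)) ≤ G := by
    intro u v huv
    exact hsubG _ (hadj u v huv)
  refine ⟨SimpleGraph.fromEdgeSet (↑D : Set (Sym2 V)), hle, ?_, ?_⟩
  · intro a b c d hac hbd h1 h2 h3 h4
    have m1 := (hD _).1 (hadj _ _ h1)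
    have m2 := (hD _).1 (hadj _ _ h2)
    have m3 := (hD _).1 (hadj _ _ h3)
    have m4 := (hD _).1 (hadj _ _ h4)
    apply m1.2
    refine hR0 (a, b, c, d) (hF0 _ ?_ ?_)
    · unfold Spn.F
      simp only [mem_filter, mem_univ, true_and]
      exact ⟨hac, hbd, hle h1, hle h2, hle h3, hle h4⟩
    · intro e he
      unfold Spn.S at he
      simp only [mem_insert, mem_singleton] at he
      rcases he with rfl | rfl | rfl | rfl
      · exact m1.1
      · exact m2.1
      · exact m3.1
      · exact m4.1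
  · have hne : ne (SimpleGraph.fromEdgeSet (↑D : Set (Sym2 V))) = D.card := by
      unfold ne
      rw [← Set.ncard_coe_finset]
      congr 1
      ext e
      rw [SimpleGraph.edgeSet_fromEdgeSet]
      constructor
      · intro h
        exact h.1
      · intro h
        refine ⟨h, ?_⟩
        exact G.not_isDiag_of_mem_edgeSet (hsubG e h)
    rw [hne]
    have h1 : 2 * k * E0.card ≤ 2 * k * D.card + 2 * k * F0.card := by
      rw [← mul_add]
      exact Nat.mul_le_mul_left _ (by omega)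
    omega

end R128.IT
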