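import Pool.Agent.R128.IT.Stm

namespace R128.IT
open Classical Finset

theorem SumF_proof : SumF_stm := by
  unfold SumF_stm SumF
  intro β α D g h1 hR
  unfold Dat.F
  rw [Finset.sum_biUnion]
  · refine Finset.sum_congr rfl fun b hb => ?_
    rw [Finset.sum_biUnion]
    · have hsplit : (D.Nb b).powerset.filter (fun S => S.card = D.s b ∨ S.card = D.s b + 1) =
          (D.Nb b).powersetCard (D.s b) ∪ (D.Nb b).powersetCard (D.s b + 1) := by
        ext S
        simp only [Finset.mem_filter, Finset.mem_powerset, Finset.mem_union,
          Finset.mem_powersetCard]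
        tauto
      rw [hsplit, Finset.sum_union]
      · congr 1
        · refine Finset.sum_congr rfl fun S hS => ?_
          rw [Finset.sum_image, (Finset.mem_powersetCard.1 hS).2]
          intro i _ j _ hij
          exact congrArg (fun e : β × Finset α × ℕ => e.2.2) hij
        · refine Finset.sum_congr rfl fun S hS => ?_
          rw [Finset.sum_image, (Finset.mem_powersetCard.1 hS).2]
          intro i _ j _ hij
          exact congrArg (fun e : β × Finset α × ℕ => e.2.2) hij
      · rw [Finset.disjoint_left]
        intro S hS hS'
        have e1 := (Finset.mem_powersetCard.1 hS).2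
        have e2 := (Finset.mem_powersetCard.1 hS').2
        omega
    · intro S hS S' hS' hne
      rw [Function.onFun, Finset.disjoint_left]
      intro e he he'
      obtain ⟨i, _, rfl⟩ := Finset.mem_image.1 he
      obtain ⟨j, _, hj⟩ := Finset.mem_image.1 he'
      exact hne (congrArg (fun e : β × Finset α × ℕ => e.2.1) hj).symm
  · intro b hb b' hb' hne
    rw [Function.onFun, Finset.disjoint_left]
    intro e he he'
    obtain ⟨S, _, hS⟩ := Finset.mem_biUnion.1 he
    obtain ⟨i, _, rfl⟩ := Finset.mem_image.1 hS
    obtain ⟨S', _, hS'⟩ := Finset.mem_biUnion.1 he'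
    obtain ⟨j, _, hj⟩ := Finset.mem_image.1 hS'
    exact hne (congrArg (fun e : β × Finset α × ℕ => e.1) hj).symm

end R128.IT
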