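import Pool.Agent.R128.IT.Stm

namespace R128.IT

open Classical Finset

theorem TAP.prime_choice (ε : ℝ) (hε : 0 < ε) : ∃ δ : ℝ, 0 < δ ∧ ∃ N0 : ℕ, ∀ N : ℕ, N0 ≤ N →
    ∃ q : ℕ, q.Prime ∧ δ * (N : ℝ) ^ ((2 : ℝ) / 3) ≤ (q : ℝ) ^ 2 ∧
      ∀ p : ℝ, ε * N ≤ q * p → 2 * (N : ℝ) ^ ((2 : ℝ) / 3) ≤ p := by
  refine ⟨(ε / 8) ^ 2, by positivity, ⌈(8 / ε) ^ 3⌉₊ + 1, ?_⟩
  intro N hN
  have hN1 : (1 : ℝ) ≤ N := by
    have : 1 ≤ N := by omega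
    exact_mod_cast this
  have hN0 : (0 : ℝ) ≤ N := by linarith
  set n : ℝ := (N : ℝ) ^ ((1 : ℝ) / 3) with hn
  have hn0 : 0 < n := Real.rpow_pos_of_pos (by linarith) _
  have hn3 : n ^ 3 = N := by
    rw [hn, ← Real.rpow_natCast, ← Real.rpow_mul hN0]
    norm_num
  have hn2 : (N : ℝ) ^ ((2 : ℝ) / 3) = n ^ 2 := by
    rw [hn, ← Real.rpow_natCast, ← Real.rpow_mul hN0]
    norm_num
  have hnb : 8 / ε ≤ n := by
    have h1 : (8 / ε) ^ 3 ≤ n ^ 3 := by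
      rw [hn3]
      have h2 : ((8 / ε) ^ 3 : ℝ) ≤ (⌈(8 / ε) ^ 3⌉₊ : ℝ) := Nat.le_ceil _
      have h3 : ((⌈(8 / ε) ^ 3⌉₊ : ℕ) : ℝ) ≤ N := by exact_mod_cast (by omega)
      linarith
    exact (pow_le_pow_iff_left₀ (by positivity) hn0.le (by norm_num)).1 h1
  set M : ℕ := ⌈ε / 8 * n⌉₊ with hM
  have hM1 : M ≠ 0 := by
    have : 0 < M := Nat.ceil_pos.2 (by positivity)
    omega
  have hMn : ε / 8 * n ≤ M := Nat.le_ceil _
  have hMn2 : (M : ℝ) < ε / 8 * n + 1 := Nat.ceil_lt_add_one (by positivity)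
  obtain ⟨q, hq, hMq, hq2⟩ := Nat.exists_prime_lt_and_le_two_mul M hM1
  have hMqr : (M : ℝ) < q := by exact_mod_cast hMq
  have hq2r : (q : ℝ) ≤ 2 * M := by exact_mod_cast hq2
  have hq0 : (0 : ℝ) < q := by exact_mod_cast hq.pos
  refine ⟨q, hq, ?_, ?_⟩
  · rw [hn2, ← mul_pow]
    apply pow_le_pow_left₀ (by positivity)
    linarith
  · intro p hp
    rw [hn2]
    have h1 : 4 ≤ ε * n / 2 := by
      rw [div_le_iff₀ hε] at hnb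
      linarith
    have h2 : (q : ℝ) ≤ ε * n / 4 + 2 := by linarith
    have h3 : q * (2 * n ^ 2) ≤ ε * N := by
      rw [← hn3]
      have h4 : q * (2 * n ^ 2) ≤ (ε * n / 4 + 2) * (2 * n ^ 2) :=
        mul_le_mul_of_nonneg_right h2 (by positivity)
      have h5 : 4 * n ^ 2 ≤ ε * n / 2 * n ^ 2 := mul_le_mul_of_nonneg_right h1 (by positivity)
      nlinarith [h4, h5]
    exact le_of_mul_le_mul_left (h3.trans hp) hq0

theorem TAP_proof : TAP_stm := by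
  unfold TAP_stm AlgP TAP
  intro hA ε hε
  obtain ⟨δ, hδ, N0, h⟩ := TAP.prime_choice ε hε
  refine ⟨δ, hδ, N0, ?_⟩
  intro N hN β α Q h1 h2 h3
  obtain ⟨q, hq, hq2, hp⟩ := h N hN
  obtain ⟨P, hPQ, hP, hc⟩ := hA β α q hq Q
    (by exact_mod_cast h1.trans hq2) (by exact_mod_cast h2.trans hq2)
  refine ⟨P, hPQ, hP, hp _ (h3.trans ?_)⟩
  exact_mod_cast hc

end R128.IT
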