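import Pool.Agent.R128.IT.Stm
import Pool.Agent.R128.IT.TAP

namespace R128.IT

open Classical Finset

theorem TAG_proof : TAG_stm := by
  unfold TAG_stm AlgG TAG
  intro hA ε hε
  obtain ⟨δ, hδ, N0, h⟩ := TAP.prime_choice ε hε
  refine ⟨δ, hδ, N0, ?_⟩
  intro N hN V G U h1 h2 h3
  obtain ⟨q, hq, hq2, hp⟩ := h N hN
  obtain ⟨H, hHG, hH, hc⟩ := hA V G q hq U (by exact_mod_cast h1.trans hq2) h2
  refine ⟨H, hHG, hH, hp _ (h3.trans ?_)⟩
  exact_mod_cast hc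

end R128.IT
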