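import Pool.Agent.R128.IT.Stm

/-! Piece TB of project IT (helper128, MP_9a04dc_co), by helper510. -/

set_option autoImplicit false

namespace R128.IT

open Classical Finset

theorem TB.cube_root (N : ℕ) (X0 : ℝ) (hN : ⌈X0 ^ 3⌉₊ ≤ N) :
    ∃ x : ℝ, 0 ≤ x ∧ X0 ≤ x ∧ (N : ℝ) = x ^ 3 ∧ (N : ℝ) ^ ((2 : ℝ) / 3) = x ^ 2 := by
  have hN0 : (0 : ℝ) ≤ (N : ℝ) := Nat.cast_nonneg _
  have h3 : ((N : ℝ) ^ ((1 : ℝ) / 3)) ^ 3 = (N : ℝ) := by
    rw [← Real.rpow_natCast, ← Real.rpow_mul hN0]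
    norm_num
  refine ⟨(N : ℝ) ^ ((1 : ℝ) / 3), Real.rpow_nonneg hN0 _, ?_, h3.symm, ?_⟩
  · have h : X0 ^ 3 ≤ ((N : ℝ) ^ ((1 : ℝ) / 3)) ^ 3 := by
      rw [h3]
      exact (Nat.le_ceil _).trans (by exact_mod_cast hN)
    exact le_of_pow_le_pow_left₀ (by norm_num) (Real.rpow_nonneg hN0 _) h
  · rw [← Real.rpow_natCast, ← Real.rpow_mul hN0]
    norm_num

/-- the final estimate -/
theorem TB.final {e x L B q P η : ℝ} (he : 0 < e) (he1 : e ≤ 1 / 20) (hη : 20 * e ≤ η)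
    (hx : 0 ≤ x) (hL : 0 < L)
    (hLx : L ≤ 3 / 2 * x ^ 2) (hex : 2 ≤ e * x) (hBL : B ≤ L) (hB : L - e * x ^ 2 ≤ B)
    (hq : (1 - 3 * e) * x ^ 3 ≤ q) (hag : 3 / 2 * x ^ 2 ≤ L / 2 + x ^ 3 / √L)
    (hP : B / 2 + (q - B) / √L - e / 2 * L ≤ P) : (3 / 2 - η) * x ^ 2 ≤ P := by
  have hs : 0 < √L := Real.sqrt_pos.2 hL
  have hss : √L * √L = L := Real.mul_self_sqrt hL.le
  have h1 : B / √L ≤ √L := by
    rw [div_le_iff₀ hs, hss]; exact hBL
  have h2 : √L ≤ 2 * x := by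
    rw [Real.sqrt_le_left (by positivity)]
    nlinarith [sq_nonneg x]
  have h3 : √L ≤ e * x ^ 2 := by nlinarith
  have h4 : (1 - 3 * e) * x ^ 3 / √L ≤ q / √L := by gcongr
  have h5 : (q - B) / √L = q / √L - B / √L := sub_div _ _ _
  have h6 : (1 - 3 * e) * x ^ 3 / √L = (1 - 3 * e) * (x ^ 3 / √L) := by ring
  have h7 : (1 - 3 * e) * (3 / 2 * x ^ 2) ≤ (1 - 3 * e) * (L / 2 + x ^ 3 / √L) :=
    mul_le_mul_of_nonneg_left hag (by linarith)
  have h8 : 0 ≤ x ^ 2 := sq_nonneg x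
  nlinarith

theorem TB_proof : TB_stm := by
  intro hNBQ hAG hTAP hForest hPrune η hη
  set η1 : ℝ := min η 1 with hη1
  have hη10 : 0 < η1 := lt_min hη one_pos
  set e : ℝ := η1 / 20 with he
  have he0 : 0 < e := by positivity
  have he1 : e ≤ 1 / 20 := by
    have : η1 ≤ 1 := min_le_right _ _
    rw [he]; linarith
  have heη : 20 * e ≤ η := by
    have : η1 ≤ η := min_le_left _ _
    rw [he]; linarith
  obtain ⟨δ, hδ, N1, hTAP⟩ := hTAP e he0
  set d : ℝ := min δ e with hd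
  have hd0 : 0 < d := lt_min hδ he0
  have hdδ : d ≤ δ := min_le_left _ _
  have hde : d ≤ e := min_le_right _ _
  obtain ⟨Z, hZ⟩ := exists_nat_ge (1 / (δ * d ^ 2))
  have hZ1 : 1 ≤ (Z : ℝ) * (δ * d ^ 2) := by
    rwa [div_le_iff₀ (by positivity)] at hZ
  obtain ⟨K, L0, hNBQ⟩ := hNBQ (e / 2) Z (by positivity)
  set X0 : ℝ := 1 + 3 / 2 * K / e + (L0 + 1) / δ + 2 / e with hX0
  have hX00 : 0 ≤ X0 := by positivity
  refine ⟨e, he0, δ, hδ, max N1 ⌈X0 ^ 3⌉₊, fun N hN β α Q hQ1 hQ2 hQs => ?_⟩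
  have hNN1 : N1 ≤ N := (le_max_left _ _).trans hN
  obtain ⟨x, hx0, hX0x, hx3, hx2⟩ := TB.cube_root N X0 ((le_max_right _ _).trans hN)
  have hTAP' := hTAP N hNN1 β α
  have hAG' : ∀ L : ℝ, 0 < L → 3 / 2 * x ^ 2 ≤ L / 2 + x ^ 3 / √L := by
    intro L hL
    have := hAG (N : ℝ) L (Nat.cast_nonneg _) hL
    rwa [hx2, hx3] at this
  rw [hx2] at hQs ⊢
  simp only [hx2] at hTAP'
  rw [hx3] at hQ1
  have hQ2' : (Q.card : ℝ) ≤ x ^ 3 := by
    rw [← hx3]; exact_mod_cast hQ2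
  simp only [hx3] at hTAP'
  clear hTAP hAG
  -- consequences of the size of x
  have hx1 : 1 ≤ x := by
    have : 0 ≤ 3 / 2 * (K : ℝ) / e + (L0 + 1) / δ + 2 / e := by positivity
    linarith
  have hxK : 3 / 2 * K ≤ e * x := by
    have h : 3 / 2 * (K : ℝ) / e ≤ x := by
      have : 0 ≤ ((L0 : ℝ) + 1) / δ + 2 / e := by positivity
      linarith
    rw [div_le_iff₀ he0] at h
    linarith
  have hxL : (L0 : ℝ) + 1 ≤ δ * x := by
    have h : ((L0 : ℝ) + 1) / δ ≤ x := by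
      have : 0 ≤ 3 / 2 * (K : ℝ) / e + 2 / e := by positivity
      linarith
    rw [div_le_iff₀ hδ] at h
    linarith
  have hxe : 2 ≤ e * x := by
    have h : 2 / e ≤ x := by
      have : 0 ≤ 3 / 2 * (K : ℝ) / e + ((L0 : ℝ) + 1) / δ := by positivity
      linarith
    rw [div_le_iff₀ he0] at h
    linarith
  have hxx : 0 ≤ x ^ 2 := sq_nonneg x
  have hxxx : 0 ≤ x ^ 3 := by positivity
  have h2 : (3 / 2 - η) * x ^ 2 ≤ 2 * x ^ 2 :=
    mul_le_mul_of_nonneg_right (by linarith) hxx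
  by_cases hA : 3 / 2 * x ^ 2 ≤ ((Q.image Prod.fst).card : ℝ)
  · obtain ⟨P, hP, hC, hcard⟩ := hForest β α Q
    refine ⟨P, hP, hC, ?_⟩
    rw [hcard]
    exact (mul_le_mul_of_nonneg_right (by linarith : 3 / 2 - η ≤ 3 / 2) hxx).trans hA
  push Not at hA
  set Q1 : Finset (β × α) := Q.filter (fun e => K ≤ (nb Q e.1).card) with hQ1def
  have hQ1Q : Q1 ⊆ Q := filter_subset _ _
  have hcard1 : (Q1.card : ℝ) + ((Q.filter (fun e => (nb Q e.1).card < K)).card : ℝ) =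
      (Q.card : ℝ) := by
    have := Finset.card_filter_add_card_filter_not (s := Q) (fun e => K ≤ (nb Q e.1).card)
    simp only [not_le] at this
    rw [← this]
    push_cast
    rfl
  have hpr := hPrune β α Q K 1 one_pos
  have hQ1card : (1 - 2 * e) * x ^ 3 ≤ (Q1.card : ℝ) := by
    have h := hpr.1
    have h' : (K : ℝ) * ((Q.image Prod.fst).card : ℝ) ≤ K * (3 / 2 * x ^ 2) :=
      mul_le_mul_of_nonneg_left hA.le (Nat.cast_nonneg _)
    have h'' : (K : ℝ) * (3 / 2 * x ^ 2) ≤ e * x ^ 3 := by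
      have := mul_le_mul_of_nonneg_right hxK hxx
      linarith [this, (by ring : e * x * x ^ 2 = e * x ^ 3),
        (by ring : 3 / 2 * (K : ℝ) * x ^ 2 = K * (3 / 2 * x ^ 2))]
    linarith
  set L : ℕ := (Q1.image Prod.fst).card with hLdef
  have hLle : (L : ℝ) ≤ 3 / 2 * x ^ 2 := by
    have : L ≤ (Q.image Prod.fst).card := card_le_card (image_subset_image hQ1Q)
    have : (L : ℝ) ≤ ((Q.image Prod.fst).card : ℝ) := by exact_mod_cast this
    linarith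
  have hsnd : ∀ Q' ⊆ Q, ((Q'.image Prod.snd).card : ℝ) ≤ δ * x ^ 2 := by
    intro Q' hQ'
    have : (Q'.image Prod.snd).card ≤ (Q.image Prod.snd).card :=
      card_le_card (image_subset_image hQ')
    have : ((Q'.image Prod.snd).card : ℝ) ≤ ((Q.image Prod.snd).card : ℝ) := by
      exact_mod_cast this
    linarith
  by_cases hB1 : (L : ℝ) ≤ δ * x ^ 2
  · have hq1 : e * x ^ 3 ≤ (Q1.card : ℝ) :=
      (mul_le_mul_of_nonneg_right (by linarith : e ≤ 1 - 2 * e) hxxx).trans hQ1card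
    obtain ⟨P, hP, hC, hcard⟩ := hTAP' Q1 hB1 (hsnd Q1 hQ1Q) hq1
    exact ⟨P, hP.trans hQ1Q, hC, h2.trans hcard⟩
  push Not at hB1
  have hLL0 : (L0 : ℝ) + 1 ≤ (L : ℝ) := by
    have h : δ * x * 1 ≤ δ * x * x := mul_le_mul_of_nonneg_left hx1 (by positivity)
    have h' : δ * x * x = δ * x ^ 2 := by ring
    linarith
  have hL1 : (1 : ℝ) ≤ (L : ℝ) := by
    have : (0 : ℝ) ≤ (L0 : ℝ) := Nat.cast_nonneg _
    linarith
  have hLpos : (0 : ℝ) < L := by linarith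
  have hZpos : (0 : ℝ) < Z := by
    by_contra hcon
    push Not at hcon
    have : (Z : ℝ) * (δ * d ^ 2) ≤ 0 := mul_nonpos_of_nonpos_of_nonneg hcon (by positivity)
    linarith
  set D : ℝ := √((Z : ℝ) * L) with hD
  have hD0 : 0 < D := Real.sqrt_pos.2 (by positivity)
  have hDx : x ≤ d * D := by
    have h : x / d ≤ D := by
      rw [hD]
      apply Real.le_sqrt_of_sq_le
      rw [div_pow, div_le_iff₀ (by positivity)]
      have h1 : (Z : ℝ) * (δ * x ^ 2) ≤ Z * L := mul_le_mul_of_nonneg_left hB1.le hZpos.le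
      have h2 : (Z : ℝ) * (δ * x ^ 2) * d ^ 2 ≤ Z * L * d ^ 2 :=
        mul_le_mul_of_nonneg_right h1 (by positivity)
      have h3 : 1 * x ^ 2 ≤ (Z : ℝ) * (δ * d ^ 2) * x ^ 2 := mul_le_mul_of_nonneg_right hZ1 hxx
      have h4 : (Z : ℝ) * (δ * d ^ 2) * x ^ 2 = (Z : ℝ) * (δ * x ^ 2) * d ^ 2 := by ring
      linarith
    rw [div_le_iff₀ hd0] at h
    linarith
  set Qb : Finset (β × α) := Q1.filter (fun e => D < ((nb Q1 e.1).card : ℝ)) with hQb
  have hQbQ1 : Qb ⊆ Q1 := filter_subset _ _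
  have hpr1 := hPrune β α Q1 K D hD0
  have hbig : ((Qb.image Prod.fst).card : ℝ) ≤ d * x ^ 2 := by
    have h := hpr1.2.1
    have hQ1N : (Q1.card : ℝ) ≤ x ^ 3 := by
      have : (Q1.card : ℝ) ≤ (Q.card : ℝ) := by exact_mod_cast card_le_card hQ1Q
      linarith
    have h1 : ((Qb.image Prod.fst).card : ℝ) * D ≤ x ^ 3 := h.trans hQ1N
    have h2 : ((Qb.image Prod.fst).card : ℝ) * x ≤ ((Qb.image Prod.fst).card : ℝ) * (d * D) :=
      mul_le_mul_of_nonneg_left hDx (Nat.cast_nonneg _)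
    have h3 : ((Qb.image Prod.fst).card : ℝ) * x ≤ (d * x ^ 2) * x := by
      have : d * (((Qb.image Prod.fst).card : ℝ) * D) ≤ d * x ^ 3 :=
        mul_le_mul_of_nonneg_left h1 hd0.le
      linarith [(by ring : d * (((Qb.image Prod.fst).card : ℝ) * D) =
        ((Qb.image Prod.fst).card : ℝ) * (d * D)), (by ring : d * x ^ 3 = d * x ^ 2 * x)]
    exact le_of_mul_le_mul_right h3 (by linarith)
  by_cases hB2 : e * x ^ 3 ≤ (Qb.card : ℝ)
  · obtain ⟨P, hP, hC, hcard⟩ := hTAP' Qb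
      (hbig.trans (mul_le_mul_of_nonneg_right hdδ hxx)) (hsnd Qb (hQbQ1.trans hQ1Q)) hB2
    exact ⟨P, hP.trans (hQbQ1.trans hQ1Q), hC, h2.trans hcard⟩
  push Not at hB2
  set Q2 : Finset (β × α) := Q1.filter (fun e => ¬ D < ((nb Q1 e.1).card : ℝ)) with hQ2def
  have hQ2Q1 : Q2 ⊆ Q1 := filter_subset _ _
  have hcard2 : (Qb.card : ℝ) + (Q2.card : ℝ) = (Q1.card : ℝ) := by
    have := Finset.card_filter_add_card_filter_not (s := Q1)
      (fun e => D < ((nb Q1 e.1).card : ℝ))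
    rw [← this]
    push_cast
    rfl
  have hun : Q1.image Prod.fst ⊆ Q2.image Prod.fst ∪ Qb.image Prod.fst := by
    intro b hb
    obtain ⟨e', he', rfl⟩ := mem_image.1 hb
    rw [mem_union]
    by_cases hcase : D < ((nb Q1 e'.1).card : ℝ)
    · exact Or.inr (mem_image.2 ⟨e', mem_filter.2 ⟨he', hcase⟩, rfl⟩)
    · exact Or.inl (mem_image.2 ⟨e', mem_filter.2 ⟨he', hcase⟩, rfl⟩)
  have hLB : (L : ℝ) - e * x ^ 2 ≤ ((Q2.image Prod.fst).card : ℝ) := by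
    have h := (card_le_card hun).trans (card_union_le _ _)
    have h' : (L : ℝ) ≤ ((Q2.image Prod.fst).card : ℝ) + ((Qb.image Prod.fst).card : ℝ) := by
      exact_mod_cast h
    have : d * x ^ 2 ≤ e * x ^ 2 := mul_le_mul_of_nonneg_right hde hxx
    linarith
  have hBL : (Q2.image Prod.fst).card ≤ L := card_le_card (image_subset_image hQ2Q1)
  have hnb : ∀ b ∈ Q2.image Prod.fst, K ≤ (nb Q2 b).card ∧ (nb Q2 b).card ^ 2 ≤ Z * L := by
    intro b hb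
    obtain ⟨e', he', rfl⟩ := mem_image.1 hb
    have hD' : ¬ D < ((nb Q1 e'.1).card : ℝ) := (mem_filter.1 he').2
    have hK' : K ≤ (nb Q e'.1).card := (mem_filter.1 (mem_filter.1 he').1).2
    have h21 : nb Q2 e'.1 = nb Q1 e'.1 := by
      have := hpr1.2.2 (fun b => ¬ D < ((nb Q1 b).card : ℝ)) e'.1 hD'
      rw [← this, hQ2def]
      congr
    have h10 : nb Q1 e'.1 = nb Q e'.1 := by
      have := hpr.2.2 (fun b => K ≤ (nb Q b).card) e'.1 hK'
      rw [← this, hQ1def]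
      congr
    constructor
    · rw [h21, h10]; exact hK'
    · rw [h21]
      push Not at hD'
      have h : ((nb Q1 e'.1).card : ℝ) ^ 2 ≤ (Z : ℝ) * L := by
        calc ((nb Q1 e'.1).card : ℝ) ^ 2 ≤ D ^ 2 := by gcongr
          _ = (Z : ℝ) * L := Real.sq_sqrt (by positivity)
      exact_mod_cast h
  obtain ⟨P, hP, hC, hPc⟩ := hNBQ β α Q2 L (by
    have : (L0 : ℝ) ≤ (L : ℝ) := by linarith
    exact_mod_cast this) (by exact_mod_cast hL1) hBL hnb
  refine ⟨P, hP.trans (hQ2Q1.trans hQ1Q), hC, ?_⟩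
  exact TB.final he0 he1 heη hx0 hLpos hLle hxe (by exact_mod_cast hBL) hLB
    (q := (Q2.card : ℝ)) (by linarith) (hAG' L hLpos) hPc

end R128.IT
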