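import Pool.Agent.R128.IT.Stm

/-!
IT-TS (MP_9a04dc_co): parameters for Spn.
-/

namespace R128.IT

theorem TS_proof : TS_stm := by
  intro hS ε hε
  set d : ℝ := ε / 8 with hd
  have hdpos : 0 < d := by positivity
  refine ⟨√(d ^ 3) / 2, by positivity, ⌈(16 / ε) ^ 3⌉₊, fun N hN V _ G hT hE => ?_⟩
  set n : ℝ := (N : ℝ) ^ ((1 : ℝ) / 3) with hn
  have hN0 : (0 : ℝ) ≤ N := Nat.cast_nonneg N
  have hn0 : 0 ≤ n := Real.rpow_nonneg hN0 _
  have hn3 : n ^ 3 = N := by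
    rw [hn, ← Real.rpow_natCast, ← Real.rpow_mul hN0]
    norm_num
  have hn2 : (N : ℝ) ^ ((2 : ℝ) / 3) = n ^ 2 := by
    rw [hn, ← Real.rpow_natCast, ← Real.rpow_mul hN0]
    norm_num
  have hN16 : (16 / ε) ^ 3 ≤ (N : ℝ) := (Nat.le_ceil _).trans (by exact_mod_cast hN)
  have hn16 : 16 / ε ≤ n := by
    rw [← hn3] at hN16
    exact le_of_pow_le_pow_left₀ (by norm_num) hn0 hN16
  have hεn : 16 ≤ ε * n := by
    rw [div_le_iff₀ hε] at hn16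
    linarith
  set k : ℕ := ⌈d * n⌉₊ + 1 with hk
  have hk1 : d * n ≤ (k : ℝ) := by
    rw [hk]
    push_cast
    have := Nat.le_ceil (d * n)
    linarith
  have hk2 : (k : ℝ) ≤ d * n + 2 := by
    rw [hk]
    push_cast
    have := Nat.ceil_lt_add_one (show 0 ≤ d * n by positivity)
    linarith
  set T : ℕ := ⌊√(d ^ 3) / 2 * √(N : ℝ)⌋₊ with hTd
  have hT1 : (T : ℝ) ≤ √(d ^ 3) / 2 * √(N : ℝ) := Nat.floor_le (by positivity)
  have hT2 : 4 * (T : ℝ) ^ 2 ≤ (k : ℝ) ^ 3 := by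
    have h1 : (T : ℝ) ^ 2 ≤ (√(d ^ 3) / 2 * √(N : ℝ)) ^ 2 := by gcongr
    have h2 : (√(d ^ 3) / 2 * √(N : ℝ)) ^ 2 = d ^ 3 * N / 4 := by
      rw [mul_pow, div_pow, Real.sq_sqrt (by positivity), Real.sq_sqrt hN0]
      ring
    have h3 : (d * n) ^ 3 ≤ (k : ℝ) ^ 3 := by gcongr
    rw [mul_pow, hn3] at h3
    linarith
  obtain ⟨H, hH, hC, hne⟩ := hS V G T k (fun v => Nat.le_floor (hT v)) (by omega)
    (by exact_mod_cast hT2)
  refine ⟨H, hH, hC, ?_⟩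
  rw [hn2]
  have hne' : (ne G : ℝ) ≤ 2 * k * ne H := by exact_mod_cast hne
  have hkpos : (0 : ℝ) < k := by
    rw [hk]
    positivity
  have h4 : 4 * (k : ℝ) ≤ ε * n := by
    have : d * n = ε * n / 8 := by rw [hd]; ring
    linarith
  have h5 : 4 * (k : ℝ) * n ^ 2 ≤ ε * N := by
    rw [← hn3]
    nlinarith [mul_le_mul_of_nonneg_right h4 (sq_nonneg n)]
  have h6 : 2 * (k : ℝ) * (2 * n ^ 2) ≤ 2 * k * ne H := by linarith
  exact le_of_mul_le_mul_left h6 (by positivity)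

end R128.IT
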