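import Pool.Agent.R128.IT.Stm

/-! Piece Upper of project IT. -/

namespace R128.IT

open Filter Topology

lemma Upper.val : (3 / 2 : ℝ) ^ (-(3 / 2) : ℝ) = 2 * √2 / (3 * √3) := by
  rw [Real.rpow_neg (by norm_num)]
  have h1 : (3 / 2 : ℝ) ^ ((3 / 2) : ℝ) = 3 / 2 * √(3 / 2) := by
    rw [show ((3 : ℝ) / 2) = 1 + 1 / 2 by norm_num, Real.rpow_add (by norm_num), Real.rpow_one,
      ← Real.sqrt_eq_rpow]
  rw [h1, Real.sqrt_div (by norm_num)]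
  have h2 : (0 : ℝ) < √2 := Real.sqrt_pos.mpr (by norm_num)
  have h3 : (0 : ℝ) < √3 := Real.sqrt_pos.mpr (by norm_num)
  field_simp

lemma Upper.exists_eta (ε : ℝ) (hε : 0 < ε) : ∃ η : ℝ, 0 < η ∧ η < 1 ∧
    (3 / 2 - η) ^ (-(3 / 2) : ℝ) < 2 * √2 / (3 * √3) + ε := by
  have hc : ContinuousAt (fun η : ℝ => (3 / 2 - η) ^ (-(3 / 2) : ℝ)) 0 := by
    apply ContinuousAt.rpow_const
    · fun_prop
    · left; norm_num
  have h1 : ∀ᶠ η in 𝓝 (0 : ℝ), (3 / 2 - η) ^ (-(3 / 2) : ℝ) < 2 * √2 / (3 * √3) + ε := by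
    apply hc.eventually_lt continuousAt_const
    simp only [sub_zero]
    rw [Upper.val]
    linarith
  have h2 : ∀ᶠ η in 𝓝[>] (0 : ℝ), (3 / 2 - η) ^ (-(3 / 2) : ℝ) < 2 * √2 / (3 * √3) + ε :=
    h1.filter_mono nhdsWithin_le_nhds
  have h3 : ∀ᶠ η in 𝓝[>] (0 : ℝ), η ∈ Set.Ioo (0 : ℝ) 1 := Ioo_mem_nhdsGT one_pos
  obtain ⟨η, ha, hb⟩ := (h2.and h3).exists
  exact ⟨η, hb.1, hb.2, ha⟩

theorem Upper_proof : Upper_stm := by
  intro hM ε hε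
  obtain ⟨η, hη0, hη1, hη⟩ := Upper.exists_eta ε hε
  obtain ⟨N0, hN0⟩ := hM η hη0
  refine ⟨2 * N0 + 1, fun k hk N hN => ?_⟩
  obtain ⟨n, G, hG, hfree⟩ := hN
  have hk1 : (1 : ℝ) ≤ k := by
    have : 1 ≤ k := by omega
    exact_mod_cast this
  have hk0 : (0 : ℝ) < k := by linarith
  have hconst : (1 : ℝ) / 2 ≤ 2 * √2 / (3 * √3) := by
    have h2 : (1 : ℝ) ≤ √2 := by
      rw [Real.one_le_sqrt]; norm_num
    have h3 : √3 ≤ (2 : ℝ) := by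
      rw [Real.sqrt_le_left (by norm_num)]; norm_num
    have h4 : (0 : ℝ) < √3 := Real.sqrt_pos.mpr (by norm_num)
    have h5 : (3 / 2 : ℝ) * √3 ≤ 2 * √2 := by
      have h6 : √3 ^ 2 = (3 : ℝ) := Real.sq_sqrt (by norm_num)
      have h7 : √2 ^ 2 = (2 : ℝ) := Real.sq_sqrt (by norm_num)
      have h8 : (3 / 2 * √3) ^ 2 ≤ (2 * √2) ^ 2 := by
        rw [mul_pow, mul_pow, h6, h7]; norm_num
      exact le_of_sq_le_sq h8 (by positivity)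
    rw [le_div_iff₀ (by positivity)]
    linarith
  by_cases hcase : N0 ≤ N
  · rw [← hG] at hcase
    obtain ⟨H, hH, hHf, hHne⟩ := hN0 n G hcase
    have h1 : (ne H : ℝ) < k := by exact_mod_cast hfree H hH hHf
    rw [hG] at hHne
    have hp : (0 : ℝ) < 3 / 2 - η := by linarith
    have h2 : (N : ℝ) ^ ((2 : ℝ) / 3) ≤ k * (3 / 2 - η)⁻¹ := by
      rw [← div_eq_mul_inv, le_div_iff₀ hp]
      linarith
    have h3 : (N : ℝ) = ((N : ℝ) ^ ((2 : ℝ) / 3)) ^ ((3 : ℝ) / 2) := by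
      rw [← Real.rpow_mul (Nat.cast_nonneg _)]
      norm_num
    rw [h3]
    calc ((N : ℝ) ^ ((2 : ℝ) / 3)) ^ ((3 : ℝ) / 2) ≤ (k * (3 / 2 - η)⁻¹) ^ ((3 : ℝ) / 2) :=
          Real.rpow_le_rpow (Real.rpow_nonneg (Nat.cast_nonneg _) _) h2 (by norm_num)
      _ = (3 / 2 - η) ^ (-(3 / 2) : ℝ) * (k : ℝ) ^ ((3 : ℝ) / 2) := by
          rw [Real.mul_rpow hk0.le (by positivity), Real.inv_rpow hp.le, Real.rpow_neg hp.le]
          ring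
      _ ≤ (2 * √2 / (3 * √3) + ε) * (k : ℝ) ^ ((3 : ℝ) / 2) :=
          mul_le_mul_of_nonneg_right hη.le (Real.rpow_nonneg hk0.le _)
  · have h1 : (N : ℝ) ≤ N0 := by
      have : N ≤ N0 := by omega
      exact_mod_cast this
    have h2 : (k : ℝ) ≤ (k : ℝ) ^ ((3 : ℝ) / 2) := by
      calc (k : ℝ) = (k : ℝ) ^ (1 : ℝ) := (Real.rpow_one _).symm
        _ ≤ (k : ℝ) ^ ((3 : ℝ) / 2) := Real.rpow_le_rpow_of_exponent_le hk1 (by norm_num)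
    have h3 : (2 * N0 + 1 : ℝ) ≤ k := by exact_mod_cast hk
    have h4 : (0 : ℝ) ≤ (k : ℝ) ^ ((3 : ℝ) / 2) := Real.rpow_nonneg hk0.le _
    have h5 : (1 / 2 : ℝ) * (k : ℝ) ^ ((3 : ℝ) / 2) ≤
        (2 * √2 / (3 * √3) + ε) * (k : ℝ) ^ ((3 : ℝ) / 2) :=
      mul_le_mul_of_nonneg_right (by linarith) h4
    linarith

end R128.IT
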