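import Pool.Agent.R128.IT.Stm

/-! IT-WNonneg (MP_9a04dc): the weights are in `[0, 1/R]`. -/

namespace R128.IT

open Classical Finset

theorem WNonneg.mem_F {β α : Type} (D : Dat β α) (e : β × Finset α × ℕ) (he : e ∈ D.F) :
    e.1 ∈ D.B ∧ e.2.1 ⊆ D.Nb e.1 ∧ e.2.2 < D.Dm e.2.1.card := by
  unfold Dat.F at he
  simp only [mem_biUnion, mem_filter, mem_powerset, mem_image, mem_range] at he
  obtain ⟨b, hb, S, ⟨hS, _⟩, i, hi, rfl⟩ := he
  exact ⟨hb, hS, hi⟩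

theorem WNonneg.P_bd {β α : Type} (D : Dat β α) (b : β) (h0 : 0 ≤ D.p b) (h1 : D.p b ≤ 1)
    (j : ℕ) : 0 ≤ D.P b j ∧ D.P b j ≤ 1 := by
  unfold Dat.P
  split_ifs
  · constructor <;> linarith
  · exact ⟨h0, h1⟩
  · exact ⟨le_rfl, zero_le_one⟩

theorem WNonneg_proof : WNonneg_stm := by
  intro β α D m K L hA e he
  obtain ⟨hb, hS, hi⟩ := WNonneg.mem_F D e he
  obtain ⟨hP0, hP1⟩ := WNonneg.P_bd D e.1 (hA.p0 _ hb) (hA.p1 _ hb) e.2.1.card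
  have hR : (1 : ℝ) ≤ (D.R : ℝ) := by exact_mod_cast hA.R1
  have hDm : (D.R : ℝ) ≤ (D.Dm e.2.1.card : ℝ) := by
    unfold Dat.Dm
    push_cast
    have : (0 : ℝ) ≤ (⌈D.W e.2.1.card⌉₊ : ℝ) := Nat.cast_nonneg _
    linarith
  have hch : (1 : ℝ) ≤ (((D.Nb e.1).card.choose e.2.1.card : ℕ) : ℝ) := by
    exact_mod_cast Nat.choose_pos (card_le_card hS)
  have hden : (D.R : ℝ) ≤ (((D.Nb e.1).card.choose e.2.1.card : ℕ) : ℝ) *
      (D.Dm e.2.1.card : ℝ) := by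
    nlinarith
  unfold Dat.w
  constructor
  · apply div_nonneg hP0
    positivity
  · exact div_le_div₀ zero_le_one hP1 (by linarith) hden

end R128.IT
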