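import Pool.Agent.R128.IT.Stm

namespace R128.IT
open Classical Finset

theorem WSum_proof : WSum_stm := by
  unfold WSum_stm WSum
  intro hS β α D m K L hA
  rw [hS β α D D.w hA.s1 hA.R1]
  have hDm : ∀ j, (0 : ℝ) < (D.Dm j : ℝ) := by
    intro j
    have h0 : 0 < D.Dm j := by
      unfold Dat.Dm
      have := hA.R1
      omega
    exact_mod_cast h0
  have key : ∀ b ∈ D.B, ∀ j, j ≤ (D.Nb b).card → ∑ S ∈ (D.Nb b).powersetCard j,
      ∑ i ∈ range (D.Dm j), D.w (b, S, i) = D.P b j := by
    intro b hb j hj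
    have hC : (0 : ℝ) < (((D.Nb b).card.choose j : ℕ) : ℝ) := by
      exact_mod_cast Nat.choose_pos hj
    have h1 : ∀ S ∈ (D.Nb b).powersetCard j, ∑ i ∈ range (D.Dm j), D.w (b, S, i) =
        D.P b j / (((D.Nb b).card.choose j : ℕ) : ℝ) := by
      intro S hS
      have hc := (Finset.mem_powersetCard.1 hS).2
      have h2 : ∀ i ∈ range (D.Dm j), D.w (b, S, i) =
          D.P b j / ((((D.Nb b).card.choose j : ℕ) : ℝ) * (D.Dm j : ℝ)) := by
        intro i _
        unfold Dat.w
        simp only [hc]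
      rw [Finset.sum_congr rfl h2, Finset.sum_const, Finset.card_range, nsmul_eq_mul]
      have h3 := hDm j
      field_simp
    rw [Finset.sum_congr rfl h1, Finset.sum_const, Finset.card_powersetCard, nsmul_eq_mul]
    field_simp
  have h3 : ∀ b ∈ D.B, (∑ S ∈ (D.Nb b).powersetCard (D.s b),
      ∑ i ∈ range (D.Dm (D.s b)), D.w (b, S, i) +
    ∑ S ∈ (D.Nb b).powersetCard (D.s b + 1), ∑ i ∈ range (D.Dm (D.s b + 1)), D.w (b, S, i)) =
      (1 : ℝ) := by
    intro b hb
    have hd := hA.dK b hb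
    have hm := hA.sm b hb
    have hmK := hA.mK
    rw [key b hb _ (by omega), key b hb _ (by omega)]
    unfold Dat.P
    simp
  rw [Finset.sum_congr rfl h3]
  simp

end R128.IT
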