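import Pool.Agent.R128.IT.Assembly
import Pool.Agent.R128.IT.NibT
import Pool.Agent.R128.IT.AlgP
import Pool.Agent.R128.IT.AlgG
import Pool.Agent.R128.IT.Spn
import Pool.Agent.R128.IT.Forest
import Pool.Agent.R128.IT.GlueG
import Pool.Agent.R128.IT.Mix
import Pool.Agent.R128.IT.Cnt
import Pool.Agent.R128.IT.SumF
import Pool.Agent.R128.IT.WNonneg
import Pool.Agent.R128.IT.WSum
import Pool.Agent.R128.IT.ARank
import Pool.Agent.R128.IT.LoadB
import Pool.Agent.R128.IT.LoadP
import Pool.Agent.R128.IT.LoadD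
import Pool.Agent.R128.IT.Loads
import Pool.Agent.R128.IT.NM
import Pool.Agent.R128.IT.NX
import Pool.Agent.R128.IT.NB
import Pool.Agent.R128.IT.NBQ
import Pool.Agent.R128.IT.AG
import Pool.Agent.R128.IT.TAP
import Pool.Agent.R128.IT.TAG
import Pool.Agent.R128.IT.TS
import Pool.Agent.R128.IT.Prune
import Pool.Agent.R128.IT.TB
import Pool.Agent.R128.IT.Split
import Pool.Agent.R128.IT.Main
import Pool.Agent.R128.IT.LB
import Pool.Agent.R128.IT.Bdd
import Pool.Agent.R128.IT.Upper
import Pool.Agent.R128.IT.Lower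
import Pool.Agent.R128.IT.Fin1

namespace R128.IT

/-- the inverse Turan number of the 4-cycle -/
theorem inverse_turan_C4 : Fin1 :=
  final_of Nibble_proof AlgP_proof AlgG_proof Spn_proof Forest_proof GlueG_proof Mix_proof Cnt_proof SumF_proof WNonneg_proof WSum_proof ARank_proof LoadB_proof LoadP_proof LoadD_proof Loads_proof NM_proof
    NX_proof NB_proof NBQ_proof AG_proof TAP_proof TAG_proof TS_proof Prune_proof TB_proof Split_proof Main_proof LB_proof Bdd_proof Upper_proof Lower_proof Fin1_proof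

end R128.IT
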