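import Pool.Agent.R128.IT.LoadB

/-!
Piece LoadD of project IT (helper562): loads at a dummy vertex `(j, i)`.
-/

namespace R128.IT

namespace LoadD

noncomputable section
open Classical Finset LoadB

variable {β α : Type}

/-- the bound for the sum over the sets of size `j'` -/
lemma innerD {D : Dat β α} {m K L : ℕ} (h : Adm D m K L) {b : β} (hb : b ∈ D.B) (j i j' : ℕ)
    (Q : Finset α → Prop) [DecidablePred Q] :
    ∑ S ∈ (D.Nb b).powersetCard j', ∑ i' ∈ range (D.Dm j'),
      (if Q S ∧ S.card = j ∧ i' = i then D.w (b, S, i') else 0) ≤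
    if j' = j then D.P b j * (((((D.Nb b).powersetCard j).filter Q).card : ℝ) /
      (((D.Nb b).card.choose j : ℕ) : ℝ)) / (D.Dm j : ℝ) else 0 := by
  by_cases hj : j' = j
  · subst hj
    rw [if_pos rfl]
    have hD : 0 < (D.Dm j' : ℝ) := Dm_pos h j'
    have hc0 : 0 ≤ D.P b j' / ((((D.Nb b).card.choose j' : ℕ) : ℝ) * (D.Dm j' : ℝ)) := by
      apply div_nonneg (P_nonneg h hb j')
      positivity
    have h1 : ∀ S ∈ (D.Nb b).powersetCard j', ∑ i' ∈ range (D.Dm j'),
        (if Q S ∧ S.card = j' ∧ i' = i then D.w (b, S, i') else 0) ≤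
        if Q S then D.P b j' / ((((D.Nb b).card.choose j' : ℕ) : ℝ) * (D.Dm j' : ℝ)) else 0 := by
      intro S hS
      have hc := (mem_powersetCard.1 hS).2
      by_cases hQ : Q S
      · simp only [hQ, if_true, Dat.w, hc, true_and]
        rw [sum_ite_eq' (range (D.Dm j')) i]
        split_ifs
        · exact le_rfl
        · exact hc0
      · simp [hQ]
    refine (sum_le_sum h1).trans (le_of_eq ?_)
    rw [← sum_filter, sum_const, nsmul_eq_mul]
    have : ((((D.Nb b).powersetCard j').filter Q).card : ℝ) *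
        (D.P b j' / ((((D.Nb b).card.choose j' : ℕ) : ℝ) * (D.Dm j' : ℝ))) =
        D.P b j' * (((((D.Nb b).powersetCard j').filter Q).card : ℝ) /
      (((D.Nb b).card.choose j' : ℕ) : ℝ)) / (D.Dm j' : ℝ) := by
      rw [← div_div]
      ring
    exact this
  · rw [if_neg hj]
    apply le_of_eq
    apply sum_eq_zero
    intro S hS
    have hc := (mem_powersetCard.1 hS).2
    apply sum_eq_zero
    intro i' _
    rw [if_neg]
    rintro ⟨_, h2, _⟩
    exact hj (hc.symm.trans h2)

/-- the bound for a vertex `b` -/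
lemma bound {D : Dat β α} {m K L : ℕ} (h : Adm D m K L) {b : β} (hb : b ∈ D.B) (j i : ℕ)
    (Q : Finset α → Prop) [DecidablePred Q] :
    (∑ S ∈ (D.Nb b).powersetCard (D.s b), ∑ i' ∈ range (D.Dm (D.s b)),
      (if Q S ∧ S.card = j ∧ i' = i then D.w (b, S, i') else 0)) +
    (∑ S ∈ (D.Nb b).powersetCard (D.s b + 1), ∑ i' ∈ range (D.Dm (D.s b + 1)),
      (if Q S ∧ S.card = j ∧ i' = i then D.w (b, S, i') else 0)) ≤
    D.P b j * (((((D.Nb b).powersetCard j).filter Q).card : ℝ) /
      (((D.Nb b).card.choose j : ℕ) : ℝ)) / (D.Dm j : ℝ) := by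
  have h1 := innerD h hb j i (D.s b) Q
  have h2 := innerD h hb j i (D.s b + 1) Q
  have h0 : 0 ≤ D.P b j * (((((D.Nb b).powersetCard j).filter Q).card : ℝ) /
      (((D.Nb b).card.choose j : ℕ) : ℝ)) / (D.Dm j : ℝ) := by
    have := P_nonneg h hb j
    positivity
  refine (add_le_add h1 h2).trans ?_
  by_cases h3 : D.s b = j
  · rw [if_pos h3, if_neg (by omega), add_zero]
  · by_cases h4 : D.s b + 1 = j
    · rw [if_neg h3, if_pos h4, zero_add]
    · rw [if_neg h3, if_neg h4, add_zero]
      exact h0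

lemma ratio_le_one (N : Finset α) (j : ℕ) (Q : Finset α → Prop) [DecidablePred Q] :
    ((((N.powersetCard j).filter Q).card : ℝ) / ((N.card.choose j : ℕ) : ℝ)) ≤ 1 := by
  apply div_le_one_of_le₀
  · have := card_filter_le (N.powersetCard j) Q
    rw [card_powersetCard] at this
    exact_mod_cast this
  · positivity

lemma bound1 {D : Dat β α} {m K L : ℕ} (h : Adm D m K L) {b : β} (hb : b ∈ D.B) (j : ℕ)
    (Q : Finset α → Prop) [DecidablePred Q] :
    D.P b j * (((((D.Nb b).powersetCard j).filter Q).card : ℝ) /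
      (((D.Nb b).card.choose j : ℕ) : ℝ)) / (D.Dm j : ℝ) ≤ D.P b j / (D.Dm j : ℝ) := by
  have hD := Dm_pos h j
  apply div_le_div_of_nonneg_right _ hD.le
  exact mul_le_of_le_one_right (P_nonneg h hb j) (ratio_le_one _ _ _)

/-- the pair bound -/
lemma bound2 (hC : Cnt) {D : Dat β α} {m K L : ℕ} (h : Adm D m K L) {b : β} (hb : b ∈ D.B)
    (j : ℕ) (T : Finset α) (hT : T.card = 2) :
    D.P b j * (((((D.Nb b).powersetCard j).filter (fun S => T ⊆ S)).card : ℝ) /
      (((D.Nb b).card.choose j : ℕ) : ℝ)) ≤ 1 / (L : ℝ) := by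
  have hs := s_le h hb
  by_cases hTN : T ⊆ D.Nb b
  · by_cases hj : D.s b = j ∨ D.s b + 1 = j
    · rw [ratio2 hC _ T hT hTN j (by omega) (by omega)]
      have h20 : 0 < (((D.Nb b).card.choose 2 : ℕ) : ℝ) := by
        have := Nat.choose_pos (show 2 ≤ (D.Nb b).card by omega)
        exact_mod_cast this
      have hbud := h.bud b hb
      have hkey : D.P b j * ((j.choose 2 : ℕ) : ℝ) ≤
          (((D.Nb b).card.choose 2 : ℕ) : ℝ) / (L : ℝ) := by
        rw [← hbud]
        have e1 : 0 ≤ (1 - D.p b) * ((D.s b).choose 2 : ℝ) := by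
          have := h.p1 b hb
          apply mul_nonneg (by linarith)
          positivity
        have e2 : 0 ≤ D.p b * ((D.s b + 1).choose 2 : ℝ) := by
          have := h.p0 b hb
          positivity
        rcases hj with hj | hj
        · subst hj
          rw [P_s]
          linarith
        · subst hj
          rw [P_s1]
          linarith
      rw [← mul_div_assoc, div_le_iff₀ h20]
      refine hkey.trans (le_of_eq ?_)
      ring
    · have : D.P b j = 0 := by
        push Not at hj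
        unfold Dat.P
        rw [if_neg (fun e => hj.1 e.symm), if_neg (fun e => hj.2 e.symm)]
      rw [this, zero_mul]
      positivity
  · rw [cnt2_zero _ _ hTN]
    simp

end

end LoadD

open LoadB LoadD Classical Finset in
theorem LoadD_proof : LoadD_stm := by
  intro hC hF _ β α D m K L h j i
  have hD := Dm_pos h j
  have hR := R_pos h
  have hRD := Dm_ge D j
  have hinv : 1 / (D.Dm j : ℝ) ≤ 1 / (D.R : ℝ) := one_div_le_one_div_of_le hR hRD
  refine ⟨?_, ?_, ?_⟩
  · rw [sum_filter, hF β α D _ h.s1 h.R1]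
    have h1 : ∀ b ∈ D.B, _ ≤ D.P b j / (D.Dm j : ℝ) := fun b hb =>
      (bound h hb j i (fun _ => True)).trans (bound1 h hb j _)
    simp only [true_and] at h1
    refine (sum_le_sum h1).trans ?_
    rw [← sum_div, div_le_one hD]
    have h2 : D.W j ≤ (⌈D.W j⌉₊ : ℝ) := Nat.le_ceil _
    have h3 : (⌈D.W j⌉₊ : ℝ) ≤ (D.Dm j : ℝ) := by
      have : ⌈D.W j⌉₊ ≤ D.Dm j := by unfold Dat.Dm; omega
      exact_mod_cast this
    exact h2.trans h3
  · intro b
    rw [sum_filter, hF β α D _ h.s1 h.R1]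
    by_cases hb : b ∈ D.B
    · rw [sum_eq_single b]
      · have h1 := (bound h hb j i (fun _ => True)).trans (bound1 h hb j _)
        simp only [true_and] at h1 ⊢
        refine h1.trans ?_
        refine le_trans ?_ hinv
        exact div_le_div_of_nonneg_right (P_le_one h hb j) hD.le
      · intro b' _ hne
        simp [hne]
      · intro hb'
        exact absurd hb hb'
    · apply le_of_eq_of_le _ (by positivity : (0 : ℝ) ≤ 1 / (D.R : ℝ))
      apply sum_eq_zero
      intro b' hb'
      have hne : b' ≠ b := fun e => hb (e ▸ hb')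
      simp [hne]
  · intro T hT
    rw [sum_filter, hF β α D _ h.s1 h.R1]
    have h1 : ∀ b ∈ D.B, _ ≤ 1 / (L : ℝ) / (D.Dm j : ℝ) := fun b hb =>
      (bound h hb j i (fun S => T ⊆ S)).trans
        (div_le_div_of_nonneg_right (bound2 hC h hb j T hT) hD.le)
    refine (sum_le_sum h1).trans ?_
    rw [sum_const, nsmul_eq_mul]
    have hL : 0 < (L : ℝ) := by
      have := h.L1
      exact_mod_cast this
    have hcard : (D.B.card : ℝ) ≤ (L : ℝ) := by exact_mod_cast h.cardB
    have h4 : (D.B.card : ℝ) * (1 / (L : ℝ) / (D.Dm j : ℝ)) =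
        ((D.B.card : ℝ) / (L : ℝ)) * (1 / (D.Dm j : ℝ)) := by ring
    rw [h4]
    have h5 : (D.B.card : ℝ) / (L : ℝ) ≤ 1 := (div_le_one hL).2 hcard
    have h6 : 0 ≤ 1 / (D.Dm j : ℝ) := by positivity
    calc ((D.B.card : ℝ) / (L : ℝ)) * (1 / (D.Dm j : ℝ)) ≤ 1 * (1 / (D.Dm j : ℝ)) :=
          mul_le_mul_of_nonneg_right h5 h6
      _ ≤ 1 / (D.R : ℝ) := by rw [one_mul]; exact hinv

end R128.IT
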