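import Pool.Agent.R128.IT.Stm

namespace R128.IT
open Classical Finset

theorem Lower_proof : Lower_stm := by
  unfold Lower_stm
  intro hLB ε hε
  refine ⟨max 2 ⌈4 / ε ^ 2⌉₊, ?_⟩
  intro k hk
  have hk2 : 2 ≤ k := le_trans (le_max_left _ _) hk
  have hk4 : (4 / ε ^ 2 : ℝ) ≤ k := le_trans (Nat.le_ceil _) (by exact_mod_cast le_trans (le_max_right _ _) hk)
  set s : ℝ := √(k : ℝ) with hs
  have hs2 : s ^ 2 = k := Real.sq_sqrt (by positivity)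
  have hk2r : (2 : ℝ) ≤ k := by exact_mod_cast hk2
  have hs0 : 0 ≤ s := Real.sqrt_nonneg _
  have hs1 : 1 ≤ s := by nlinarith
  have hk32 : (k : ℝ) ^ ((3 : ℝ) / 2) = s ^ 3 := by
    rw [show ((3 : ℝ) / 2) = (1 / 2) * ((3 : ℕ) : ℝ) by norm_num, Real.rpow_mul (by positivity),
      ← Real.sqrt_eq_rpow, Real.rpow_natCast]
  set r : ℝ := √2 / √3 with hr
  have h3 : (0 : ℝ) < √3 := by positivity
  have hr2 : r ^ 2 = 2 / 3 := by
    rw [hr, div_pow, Real.sq_sqrt (by norm_num), Real.sq_sqrt (by norm_num)]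
  have hr0 : 0 ≤ r := by positivity
  have hr1 : r ≤ 1 := by nlinarith
  have hc : 2 * √2 / (3 * √3) = 2 / 3 * r := by
    rw [hr]; field_simp
  have hes : 2 ≤ ε * s := by
    have h1 : 4 ≤ ε ^ 2 * s ^ 2 := by
      rw [hs2]
      rw [div_le_iff₀ (by positivity)] at hk4
      linarith
    have h2 : 0 ≤ ε * s := by positivity
    nlinarith
  set a : ℕ := ⌊r * s⌋₊ with ha
  have ha1 : (a : ℝ) ≤ r * s := Nat.floor_le (by positivity)
  have ha2 : r * s < a + 1 := Nat.lt_floor_add_one _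
  have hch : ((a.choose 2 : ℕ) : ℝ) ≤ k / 3 := by
    have h1 : ((a.choose 2 : ℕ) : ℝ) = a * (a - 1) / 2 := Nat.cast_choose_two ℝ a
    have h0 : (0 : ℝ) ≤ a := Nat.cast_nonneg a
    have h4 : (a : ℝ) ^ 2 ≤ (r * s) ^ 2 := by
      apply pow_le_pow_left₀ h0 ha1
    have h5 : (r * s) ^ 2 = 2 / 3 * k := by rw [mul_pow, hr2, hs2]
    rw [h1]
    nlinarith
  have hchk : a.choose 2 + 1 ≤ k := by
    have : ((a.choose 2 : ℕ) : ℝ) + 1 ≤ k := by linarith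
    exact_mod_cast this
  refine ⟨a * (k - 1 - a.choose 2), hLB a (k - 1 - a.choose 2) k (by omega), ?_⟩
  have hb : ((k - 1 - a.choose 2 : ℕ) : ℝ) = (k : ℝ) - 1 - (a.choose 2 : ℕ) := by
    rw [Nat.cast_sub (by omega), Nat.cast_sub (by omega)]
    simp
  have hb2 : (2 / 3 * k - 1 : ℝ) ≤ ((k - 1 - a.choose 2 : ℕ) : ℝ) := by
    rw [hb]; linarith
  rw [Nat.cast_mul, hk32, hc]
  have h0 : (0 : ℝ) ≤ a := Nat.cast_nonneg a
  have e1 : (a : ℝ) * (2 / 3 * k - 1) ≤ a * ((k - 1 - a.choose 2 : ℕ) : ℝ) :=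
    mul_le_mul_of_nonneg_left hb2 h0
  have e2 : (r * s - 1) * (2 / 3 * k - 1) ≤ a * (2 / 3 * k - 1) :=
    mul_le_mul_of_nonneg_right (by linarith) (by linarith)
  have e3 : (r * s - 1) * (2 / 3 * (k : ℝ) - 1) = 2 / 3 * r * s ^ 3 - r * s - 2 / 3 * s ^ 2 + 1 := by
    rw [← hs2]; ring
  have e4 : r * s ≤ s ^ 2 := by nlinarith
  have e5 : 2 * s ^ 2 ≤ ε * s ^ 3 := by nlinarith [sq_nonneg s]
  nlinarith

end R128.IT
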