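import Pool.Agent.R128.IT.Defs

/-!
Exact statements of project IT (inverse Turan number of the 4-cycle).
`def X` are the facts, `def X_stm` is the statement of the piece (hypotheses -> X).
-/

namespace R128.IT

noncomputable section
open Classical Finset

/-! ### facts -/

def AlgP : Prop := ∀ (β α : Type) (q : ℕ), q.Prime → ∀ Q : Finset (β × α),
  (Q.image Prod.fst).card ≤ q ^ 2 → (Q.image Prod.snd).card ≤ q ^ 2 →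
  ∃ P ⊆ Q, C4P P ∧ Q.card ≤ q * P.card

def AlgG : Prop := ∀ (V : Type) (G : SimpleGraph V) (q : ℕ), q.Prime → ∀ U : Finset V,
  U.card ≤ q ^ 2 → (∀ a b, G.Adj a b → a ∈ U ∧ b ∈ U) →
  ∃ H ≤ G, C4Free H ∧ ne G ≤ q * ne H

def Spn : Prop := ∀ (V : Type) [Fintype V] (G : SimpleGraph V) (T k : ℕ),
  (∀ v, (G.neighborSet v).ncard ≤ T) → 1 ≤ k → 4 * T ^ 2 ≤ k ^ 3 →
  ∃ H ≤ G, C4Free H ∧ ne G ≤ 2 * k * ne H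

def Forest : Prop := ∀ (β α : Type) (Q : Finset (β × α)),
  ∃ P ⊆ Q, C4P P ∧ P.card = (Q.image Prod.fst).card

def GlueG : Prop := ∀ (V : Type) [Fintype V] (G : SimpleGraph V) (A B : Finset V),
  Disjoint A B → ∀ P : Finset (V × V), (∀ e ∈ P, e.1 ∈ B ∧ e.2 ∈ A ∧ G.Adj e.1 e.2) → C4P P →
  ∃ H ≤ G, C4Free H ∧ P.card ≤ ne H

def Mix : Prop := ∀ Z : ℕ, ∃ m : ℕ, ∀ z : ℝ, 0 ≤ z → z ≤ Z → ∃ (s : ℕ) (p : ℝ),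
  1 ≤ s ∧ s + 1 ≤ m ∧ 0 ≤ p ∧ p ≤ 1 ∧
  (1 - p) * ((s.choose 2 : ℕ) : ℝ) + p * (((s + 1).choose 2 : ℕ) : ℝ) = z ∧
  1 / 2 + √(2 * z) ≤ (1 - p) * s + p * (s + 1)

/-- the weighted nibble theorem (proved: `H115R4.nibble_T`) -/
def Nibble : Prop := ∀ (r : ℕ) (θ : ℝ), 0 < θ →
    ∃ κ : ℝ, 0 < κ ∧ ∀ (ι α : Type) [Fintype ι] [DecidableEq ι] [DecidableEq α]
      (A : ι → Finset α) (w : ι → ℝ),
      (∀ e, 0 ≤ w e) → (∀ e, (A e).Nonempty) → (∀ e, (A e).card ≤ r) →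
      (∀ v, ∑ e ∈ univ.filter (fun e => v ∈ A e), w e ≤ 1) →
      (∀ u v, u ≠ v → ∑ e ∈ univ.filter (fun e => u ∈ A e ∧ v ∈ A e), w e ≤ κ) →
      (∀ e, w e ≤ κ) →
      ∃ M : Finset ι, (∀ e ∈ M, ∀ f ∈ M, e ≠ f → Disjoint (A e) (A f)) ∧ (∀ e ∈ M, 0 < w e) ∧
        (1 - θ) * ∑ e, w e ≤ (M.card : ℝ)

/-- number of `j`-subsets of `N` containing `T` -/
def Cnt : Prop := ∀ (α : Type) (N T : Finset α) (j : ℕ), T ⊆ N → T.card ≤ j →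
  ((N.powersetCard j).filter (fun S => T ⊆ S)).card = (N.card - T.card).choose (j - T.card)

/-- sum over the hyperedges of `b`: the general formula -/
def SumF : Prop := ∀ (β α : Type) (D : Dat β α) (g : β × Finset α × ℕ → ℝ),
  (∀ b ∈ D.B, 1 ≤ D.s b) → 1 ≤ D.R →
  ∑ e ∈ D.F, g e = ∑ b ∈ D.B, (∑ S ∈ (D.Nb b).powersetCard (D.s b),
      ∑ i ∈ range (D.Dm (D.s b)), g (b, S, i) +
    ∑ S ∈ (D.Nb b).powersetCard (D.s b + 1), ∑ i ∈ range (D.Dm (D.s b + 1)), g (b, S, i))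

def WNonneg : Prop := ∀ (β α : Type) (D : Dat β α) (m K L : ℕ), Adm D m K L →
  ∀ e ∈ D.F, 0 ≤ D.w e ∧ D.w e ≤ 1 / (D.R : ℝ)

def WSum : Prop := ∀ (β α : Type) (D : Dat β α) (m K L : ℕ), Adm D m K L →
  ∑ e ∈ D.F, D.w e = (D.B.card : ℝ)

def ARank : Prop := ∀ (β α : Type) (D : Dat β α) (m K L : ℕ), Adm D m K L →
  ∀ e ∈ D.F, (D.A e).Nonempty ∧ (D.A e).card ≤ m ^ 2 + 2

/-- load of a vertex `b`, and of `b` together with a pair -/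
def LoadB : Prop := ∀ (β α : Type) (D : Dat β α) (m K L : ℕ), Adm D m K L → ∀ b : β,
  (∑ e ∈ D.F.filter (fun e => e.1 = b), D.w e ≤ 1) ∧
  (∀ T : Finset α, T.card = 2 →
    ∑ e ∈ D.F.filter (fun e => e.1 = b ∧ T ⊆ e.2.1), D.w e ≤
      if b ∈ D.B ∧ T ⊆ D.Nb b then 1 / (L : ℝ) else 0)

/-- load of a pair, and of two pairs -/
def LoadP : Prop := ∀ (β α : Type) (D : Dat β α) (m K L : ℕ), Adm D m K L →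
  (∀ T : Finset α, T.card = 2 → ∑ e ∈ D.F.filter (fun e => T ⊆ e.2.1), D.w e ≤ 1) ∧
  (∀ T T' : Finset α, T.card = 2 → T'.card = 2 → T ≠ T' →
    ∑ e ∈ D.F.filter (fun e => T ⊆ e.2.1 ∧ T' ⊆ e.2.1), D.w e ≤ (m : ℝ) / ((K : ℝ) - 2))

/-- loads involving a dummy vertex `(j, i)` -/
def LoadD : Prop := ∀ (β α : Type) (D : Dat β α) (m K L : ℕ), Adm D m K L → ∀ j i : ℕ,
  (∑ e ∈ D.F.filter (fun e => e.2.1.card = j ∧ e.2.2 = i), D.w e ≤ 1) ∧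
  (∀ b : β, ∑ e ∈ D.F.filter (fun e => e.1 = b ∧ e.2.1.card = j ∧ e.2.2 = i), D.w e ≤
    1 / (D.R : ℝ)) ∧
  (∀ T : Finset α, T.card = 2 →
    ∑ e ∈ D.F.filter (fun e => T ⊆ e.2.1 ∧ e.2.1.card = j ∧ e.2.2 = i), D.w e ≤ 1 / (D.R : ℝ))

/-- loads and codegrees of the hypergraph -/
def Loads : Prop := ∀ (β α : Type) (D : Dat β α) (m K L : ℕ), Adm D m K L →
  (∀ v, ∑ e ∈ D.F.filter (fun e => v ∈ D.A e), D.w e ≤ 1) ∧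
  (∀ u v, u ≠ v → ∑ e ∈ D.F.filter (fun e => u ∈ D.A e ∧ v ∈ D.A e), D.w e ≤
    1 / (L : ℝ) + (m : ℝ) / ((K : ℝ) - 2) + 1 / (D.R : ℝ))

/-- the nibble applied to the hypergraph -/
def NM : Prop := ∀ (m : ℕ) (θ : ℝ), 0 < θ → ∃ κ : ℝ, 0 < κ ∧
  ∀ (β α : Type) (D : Dat β α) (K L : ℕ), Adm D m K L →
  1 / (L : ℝ) + (m : ℝ) / ((K : ℝ) - 2) + 1 / (D.R : ℝ) ≤ κ →
  ∃ M ⊆ D.F, (∀ e ∈ M, ∀ f ∈ M, e ≠ f → Disjoint (D.A e) (D.A f)) ∧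
    (1 - θ) * (D.B.card : ℝ) ≤ (M.card : ℝ)

/-- extraction of the sets from the matching -/
def NX : Prop := ∀ (β α : Type) (D : Dat β α) (m K L : ℕ) (θ : ℝ), Adm D m K L →
  ∀ M ⊆ D.F, (∀ e ∈ M, ∀ f ∈ M, e ≠ f → Disjoint (D.A e) (D.A f)) →
  (1 - θ) * (D.B.card : ℝ) ≤ (M.card : ℝ) →
  ∃ S : β → Finset α, (∀ b ∈ D.B, S b ⊆ D.Nb b) ∧
    (∀ b ∈ D.B, ∀ b' ∈ D.B, b ≠ b' → (S b ∩ S b').card ≤ 1) ∧
    (∑ b ∈ D.B, ((1 - D.p b) * (D.s b : ℝ) + D.p b * ((D.s b : ℝ) + 1))) -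
      m * (θ * (D.B.card : ℝ) + m * (1 + (D.R : ℝ))) ≤ ∑ b ∈ D.B, ((S b).card : ℝ)

def NB : Prop := ∀ (ε : ℝ) (Z : ℕ), 0 < ε → ∃ K L0 : ℕ, ∀ (β α : Type) (B : Finset β)
  (Nb : β → Finset α) (L : ℕ), L0 ≤ L → B.card ≤ L →
  (∀ b ∈ B, K ≤ (Nb b).card ∧ (((Nb b).card.choose 2 : ℕ) : ℝ) ≤ Z * L) →
  ∃ S : β → Finset α, (∀ b ∈ B, S b ⊆ Nb b) ∧
    (∀ b ∈ B, ∀ b' ∈ B, b ≠ b' → (S b ∩ S b').card ≤ 1) ∧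
    (∑ b ∈ B, (1 / 2 + √(2 * ((((Nb b).card.choose 2 : ℕ) : ℝ) / (L : ℝ))))) - ε * L ≤
      ∑ b ∈ B, ((S b).card : ℝ)

def NBQ : Prop := ∀ (ε : ℝ) (Z : ℕ), 0 < ε → ∃ K L0 : ℕ, ∀ (β α : Type) (Q : Finset (β × α))
  (L : ℕ), L0 ≤ L → 1 ≤ L → (Q.image Prod.fst).card ≤ L →
  (∀ b ∈ Q.image Prod.fst, K ≤ (nb Q b).card ∧ (nb Q b).card ^ 2 ≤ Z * L) →
  ∃ P ⊆ Q, C4P P ∧
    ((Q.image Prod.fst).card : ℝ) / 2 + ((Q.card : ℝ) - ((Q.image Prod.fst).card : ℝ)) / √(L : ℝ)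
      - ε * L ≤ (P.card : ℝ)

/-! ### real estimates; `x ^ ((2:ℝ)/3)` -/

def AG : Prop := ∀ N L : ℝ, 0 ≤ N → 0 < L → 3 / 2 * N ^ ((2 : ℝ) / 3) ≤ L / 2 + N / √L

def TAP : Prop := ∀ ε : ℝ, 0 < ε → ∃ δ : ℝ, 0 < δ ∧ ∃ N0 : ℕ, ∀ N : ℕ, N0 ≤ N →
  ∀ (β α : Type) (Q : Finset (β × α)),
  ((Q.image Prod.fst).card : ℝ) ≤ δ * (N : ℝ) ^ ((2 : ℝ) / 3) →
  ((Q.image Prod.snd).card : ℝ) ≤ δ * (N : ℝ) ^ ((2 : ℝ) / 3) →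
  ε * N ≤ (Q.card : ℝ) → ∃ P ⊆ Q, C4P P ∧ 2 * (N : ℝ) ^ ((2 : ℝ) / 3) ≤ (P.card : ℝ)

def TAG : Prop := ∀ ε : ℝ, 0 < ε → ∃ δ : ℝ, 0 < δ ∧ ∃ N0 : ℕ, ∀ N : ℕ, N0 ≤ N →
  ∀ (V : Type) (G : SimpleGraph V) (U : Finset V),
  (U.card : ℝ) ≤ δ * (N : ℝ) ^ ((2 : ℝ) / 3) → (∀ a b, G.Adj a b → a ∈ U ∧ b ∈ U) →
  ε * N ≤ (ne G : ℝ) → ∃ H ≤ G, C4Free H ∧ 2 * (N : ℝ) ^ ((2 : ℝ) / 3) ≤ (ne H : ℝ)

def TS : Prop := ∀ ε : ℝ, 0 < ε → ∃ c : ℝ, 0 < c ∧ ∃ N0 : ℕ, ∀ N : ℕ, N0 ≤ N →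
  ∀ (V : Type) [Fintype V] (G : SimpleGraph V),
  (∀ v, ((G.neighborSet v).ncard : ℝ) ≤ c * √(N : ℝ)) →
  ε * N ≤ (ne G : ℝ) → ∃ H ≤ G, C4Free H ∧ 2 * (N : ℝ) ^ ((2 : ℝ) / 3) ≤ (ne H : ℝ)

/-- removing the `b` with few neighbours, and those with many neighbours -/
def Prune : Prop := ∀ (β α : Type) (Q : Finset (β × α)) (K : ℕ) (D : ℝ), 0 < D →
  (((Q.filter (fun e => (nb Q e.1).card < K)).card : ℝ) ≤ K * ((Q.image Prod.fst).card : ℝ)) ∧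
  (((Q.filter (fun e => D < ((nb Q e.1).card : ℝ))).image Prod.fst).card : ℝ) * D ≤ (Q.card : ℝ) ∧
  (∀ (p : β → Prop) (b : β), p b → nb (Q.filter (fun e => p e.1)) b = nb Q b)

def TB : Prop := ∀ η : ℝ, 0 < η → ∃ ε : ℝ, 0 < ε ∧ ∃ δ : ℝ, 0 < δ ∧ ∃ N0 : ℕ, ∀ N : ℕ, N0 ≤ N →
  ∀ (β α : Type) (Q : Finset (β × α)), (1 - ε) * N ≤ (Q.card : ℝ) → Q.card ≤ N →
  ((Q.image Prod.snd).card : ℝ) ≤ δ * (N : ℝ) ^ ((2 : ℝ) / 3) →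
  ∃ P ⊆ Q, C4P P ∧ (3 / 2 - η) * (N : ℝ) ^ ((2 : ℝ) / 3) ≤ (P.card : ℝ)

/-- splitting the edges by a threshold `T` for the degrees -/
def Split : Prop := ∀ (n : ℕ) (G : SimpleGraph (Fin n)) (T : ℝ), 0 < T →
  ∃ A B : Finset (Fin n), Disjoint A B ∧ (A.card : ℝ) * T ≤ 2 * (ne G : ℝ) ∧
  ∃ GA GB : SimpleGraph (Fin n), ∃ Q : Finset (Fin n × Fin n), GA ≤ G ∧ GB ≤ G ∧
    (∀ a b, GA.Adj a b → a ∈ A ∧ b ∈ A) ∧ (∀ v, ((GB.neighborSet v).ncard : ℝ) ≤ T) ∧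
    (∀ e ∈ Q, e.1 ∈ B ∧ e.2 ∈ A ∧ G.Adj e.1 e.2) ∧ ne G ≤ ne GA + ne GB + Q.card ∧
    Q.card ≤ ne G

def Main : Prop := ∀ η : ℝ, 0 < η → ∃ N0 : ℕ, ∀ (n : ℕ) (G : SimpleGraph (Fin n)), N0 ≤ ne G →
  ∃ H ≤ G, C4Free H ∧ (3 / 2 - η) * (ne G : ℝ) ^ ((2 : ℝ) / 3) ≤ (ne H : ℝ)

/-- complete bipartite graphs -/
def LB : Prop := ∀ a b k : ℕ, b + a.choose 2 < k → a * b ∈ InvSet k

def Bdd : Prop := ∀ k : ℕ, BddAbove (InvSet k)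

def Upper : Prop := ∀ ε : ℝ, 0 < ε → ∃ k0 : ℕ, ∀ k : ℕ, k0 ≤ k → ∀ N ∈ InvSet k,
  (N : ℝ) ≤ (2 * √2 / (3 * √3) + ε) * (k : ℝ) ^ ((3 : ℝ) / 2)

def Lower : Prop := ∀ ε : ℝ, 0 < ε → ∃ k0 : ℕ, ∀ k : ℕ, k0 ≤ k → ∃ N ∈ InvSet k,
  (2 * √2 / (3 * √3) - ε) * (k : ℝ) ^ ((3 : ℝ) / 2) ≤ (N : ℝ)

def Fin1 : Prop := (∀ k, BddAbove (InvSet k)) ∧
  Filter.Tendsto (fun k : ℕ => (exInv k : ℝ) / (k : ℝ) ^ ((3 : ℝ) / 2)) Filter.atTop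
    (nhds (2 * √2 / (3 * √3)))

/-! ### the pieces -/

def AlgP_stm : Prop := AlgP
def AlgG_stm : Prop := AlgG
def Spn_stm : Prop := Spn
def Forest_stm : Prop := Forest
def GlueG_stm : Prop := GlueG
def Mix_stm : Prop := Mix
def Cnt_stm : Prop := Cnt
def SumF_stm : Prop := SumF
def WNonneg_stm : Prop := WNonneg
def WSum_stm : Prop := SumF → WSum
def ARank_stm : Prop := ARank
def LoadB_stm : Prop := Cnt → SumF → WNonneg → LoadB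
def LoadP_stm : Prop := Cnt → SumF → WNonneg → LoadP
def LoadD_stm : Prop := Cnt → SumF → WNonneg → LoadD
def Loads_stm : Prop := WNonneg → LoadB → LoadP → LoadD → Loads
def NM_stm : Prop := Nibble → WNonneg → WSum → ARank → Loads → NM
def NX_stm : Prop := NX
def NB_stm : Prop := Mix → NM → NX → NB
def NBQ_stm : Prop := NB → NBQ
def AG_stm : Prop := AG
def TAP_stm : Prop := AlgP → TAP
def TAG_stm : Prop := AlgG → TAG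
def TS_stm : Prop := Spn → TS
def Prune_stm : Prop := Prune
def TB_stm : Prop := NBQ → AG → TAP → Forest → Prune → TB
def Split_stm : Prop := Split
def Main_stm : Prop := TAG → TS → TB → GlueG → Split → Main
def LB_stm : Prop := LB
def Bdd_stm : Prop := Main → Bdd
def Upper_stm : Prop := Main → Upper
def Lower_stm : Prop := LB → Lower
def Fin1_stm : Prop := Bdd → Upper → Lower → Fin1

end

end R128.IT
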